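import Mathlib

/-!
# Extension of scalars for polynomials
-/

namespace Pool.Agent.Lib.MP_4ca46c_ag.Vtc

open MvPolynomial

attribute [local instance] MvPolynomial.gradedAlgebra

/-- The homomorphism `F[x_j] ⟶ k[x_j]` of graded rings. -/
noncomputable def bcG (F k : Type) [Field F] [Field k] [Algebra F k] (κ : Type) :
    GradedRingHom (homogeneousSubmodule κ F) (homogeneousSubmodule κ k) where
  toRingHom := MvPolynomial.map (algebraMap F k)
  map_mem {n x} hx := by
    have h : IsHomogeneous x n := hx
    exact h.map _

end Pool.Agent.Lib.MP_4ca46c_ag.Vtc
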