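import Mathlib
import Pool.Agent.Lib.MP_4ca46c_ag.Vtc.BcG

/-!
# Extension of scalars for polynomials: the irrelevant ideal
-/

namespace Pool.Agent.Lib.MP_4ca46c_ag.Vtc

open CategoryTheory Limits AlgebraicGeometry MvPolynomial

attribute [local instance] MvPolynomial.gradedAlgebra

variable (F k : Type) [Field F] [Field k] [Algebra F k] (κ : Type)

theorem bcG_apply (x : MvPolynomial κ F) : bcG F k κ x = MvPolynomial.map (algebraMap F k) x := rfl

theorem bcG_irrelevant : HomogeneousIdeal.irrelevant (homogeneousSubmodule κ k) ≤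
    (HomogeneousIdeal.irrelevant (homogeneousSubmodule κ F)).map (bcG F k κ) := by
  refine (HomogeneousIdeal.toIdeal_irrelevant_le _).2 fun n hn x hx => ?_
  have hx' : IsHomogeneous x n := hx
  suffices h : x ∈ ((HomogeneousIdeal.irrelevant (homogeneousSubmodule κ F)).map
      (bcG F k κ)).toIdeal from h
  rw [x.as_sum]
  refine Ideal.sum_mem _ fun m hm => ?_
  have h1 : (monomial m (coeff m x) : MvPolynomial κ k) =
      C (coeff m x) * bcG F k κ (monomial m 1) := by
    rw [bcG_apply, map_monomial, map_one, C_mul_monomial, mul_one]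
  rw [h1]
  refine Ideal.mul_mem_left _ _ (Ideal.mem_map_of_mem _
    (HomogeneousIdeal.mem_irrelevant_of_mem _ hn ?_))
  refine isHomogeneous_monomial _ ?_
  have h2 := hx' (mem_support_iff.1 hm)
  rw [← h2]
  simp only [Finsupp.weight_apply, Finsupp.sum, Pi.one_apply, smul_eq_mul, mul_one]
  rfl

end Pool.Agent.Lib.MP_4ca46c_ag.Vtc
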