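import Mathlib
import Pool.Agent.Lib.MP_4ca46c_ag.Std.Statement
import Pool.Agent.Lib.MP_4ca46c_ag.Vtc.BcIrr

/-!
# Base change of projective spaces
-/

namespace Pool.Agent.Lib.MP_4ca46c_ag.Vtc

open AlgebraicGeometry Pool.Agent.Lib.MP_4ca46c_ag.Hyp

attribute [local instance] MvPolynomial.gradedAlgebra

/-- The base change map `ℙ_k ⟶ ℙ_F` of projective spaces. -/
noncomputable def psBC (F k : Type) [Field F] [Field k] [Algebra F k] (κ : Type) :
    PS k κ ⟶ PS F κ := Proj.map (bcG F k κ) (le_trans (bcG_irrelevant F k κ) le_rfl)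

end Pool.Agent.Lib.MP_4ca46c_ag.Vtc
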