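import Mathlib
import Pool.Agent.Lib.MP_4ca46c_ag.Vtc.PsBC

/-!
# Base change of projective spaces: the structure maps
-/

namespace Pool.Agent.Lib.MP_4ca46c_ag.Vtc

open CategoryTheory Limits AlgebraicGeometry MvPolynomial
open Pool.Agent.Lib.MP_4ca46c_ag.Sign Pool.Agent.Lib.MP_4ca46c_ag.Hyp
open Pool.Agent.Lib.MP_4ca46c_ag.Std

attribute [local instance] MvPolynomial.gradedAlgebra

variable (F k : Type) [Field F] [Field k] [Algebra F k] (κ : Type)

theorem bc_away (y : MvPolynomial κ F) :
    (HomogeneousLocalization.Away.map (bcG F k κ) y).comp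
      ((HomogeneousLocalization.fromZeroRingHom (homogeneousSubmodule κ F)
        (Submonoid.powers y)).comp (algebraMap F (homogeneousSubmodule κ F 0))) =
    ((HomogeneousLocalization.fromZeroRingHom (homogeneousSubmodule κ k)
        (Submonoid.powers (bcG F k κ y))).comp (algebraMap k (homogeneousSubmodule κ k 0))).comp
      (algebraMap F k) := by
  ext x
  have e : ∀ {L : Type} [Field L] (x : L) (y : MvPolynomial κ L),
      HomogeneousLocalization.fromZeroRingHom
      (homogeneousSubmodule κ L) (Submonoid.powers y) (algebraMap L (homogeneousSubmodule κ L 0) x)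
      = HomogeneousLocalization.mk ⟨0, algebraMap L (homogeneousSubmodule κ L 0) x, 1, one_mem _⟩ :=
    fun x y => rfl
  simp only [RingHom.comp_apply]
  rw [e, e, HomogeneousLocalization.Away.map, HomogeneousLocalization.map_mk]
  simp only [HomogeneousLocalization.val_mk]
  exact congrArg₂ Localization.mk (MvPolynomial.map_C (algebraMap F k) x)
    (Subtype.ext (map_one (bcG F k κ)))

theorem psBC_str : psBC F k κ ≫ psStr F κ =
    psStr k κ ≫ Spec.map (CommRingCat.ofHom (algebraMap F k)) := by
  refine (Proj.mapAffineOpenCover (bcG F k κ) (bcG_irrelevant F k κ)).openCover.hom_ext _ _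
    fun (s : Σ i : ℕ+, homogeneousSubmodule κ F i) => ?_
  have h := Proj.awayι_comp_map (bcG F k κ) (bcG_irrelevant F k κ) s.1.2 s.2.1 s.2.2
  refine Eq.trans (Category.assoc _ _ _).symm (Eq.trans (congrArg (fun φ => φ ≫ psStr F κ) h) ?_)
  refine Eq.trans (Category.assoc _ _ _) (Eq.trans (congrArg (fun φ => Spec.map
    (CommRingCat.ofHom (HomogeneousLocalization.Away.map (bcG F k κ) s.2.1)) ≫ φ)
      (away_str F s.2.1 s.2.2 s.1.2)) ?_)
  refine Eq.trans ?_ (Eq.trans (congrArg (fun φ => φ ≫
    Spec.map (CommRingCat.ofHom (algebraMap F k))) (away_str k (bcG F k κ s.2.1)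
      ((bcG F k κ).2 s.2.2) s.1.2).symm) (Category.assoc _ _ _))
  refine Eq.trans (Spec.map_comp _ _).symm (Eq.trans ?_ (Spec.map_comp _ _))
  exact congrArg (fun φ => Spec.map (CommRingCat.ofHom φ)) (bc_away F k κ s.2.1)

variable (k₀ : Type) [Field k₀] [Algebra k₀ F] [Algebra k₀ k] [IsScalarTower k₀ F k]

/-- The base change map `ℙ_k ⟶ ℙ_F` of projective spaces, over `k₀`. -/
noncomputable def PSo.bc : PSo k₀ k κ ⟶ PSo k₀ F κ :=
  Over.homMk (psBC F k κ) (by
    change psBC F k κ ≫ psStr F κ ≫ _ = psStr k κ ≫ _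
    rw [← Category.assoc, psBC_str, Category.assoc, ← Spec.map_comp, ← CommRingCat.ofHom_comp,
      ← IsScalarTower.algebraMap_eq])

end Pool.Agent.Lib.MP_4ca46c_ag.Vtc
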