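import Mathlib
import Pool.Agent.Lib.MP_4ca46c_ag.Vtc.PsStr
import Pool.Agent.Lib.MP_4ca46c_ag.Std.GenClass
import Pool.Agent.Lib.MP_4ca46c_ag.Std.GeoFacts

/-!
# Base change of projective spaces
-/

namespace Pool.Agent.Lib.MP_4ca46c_ag.Vtc

open CategoryTheory Limits AlgebraicGeometry MvPolynomial
open Pool.Agent.Lib.MP_4ca46c_ag.Sign Pool.Agent.Lib.MP_4ca46c_ag.Hyp
open Pool.Agent.Lib.MP_4ca46c_ag.Std

attribute [local instance] MvPolynomial.gradedAlgebra

/-- The morphism `Spec k ⟶ Spec F` for an extension `F ⊆ k`. -/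
noncomputable abbrev ext (k₀ F k : Type) [Field k₀] [Field F] [Field k] [Algebra k₀ F]
    [Algebra k₀ k] [Algebra F k] [IsScalarTower k₀ F k] : pt k₀ k ⟶ pt k₀ F :=
  ptMap k₀ (IsScalarTower.toAlgHom k₀ F k)

section ring

variable (F k : Type) [Field F] [Field k] [Algebra F k] (κ : Type)

/-- The constants in the ring of a chart of projective space. -/
noncomputable def bcCst (L : Type) [Field L] {κ : Type} (y : MvPolynomial κ L) :
    L →+* HomogeneousLocalization.Away (homogeneousSubmodule κ L) y :=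
  (HomogeneousLocalization.fromZeroRingHom (homogeneousSubmodule κ L)
    (Submonoid.powers y)).comp (algebraMap L (homogeneousSubmodule κ L 0))

theorem bc_map_chart (i : κ) (y : MvPolynomial κ k) (hy : y ∈ homogeneousSubmodule κ k 1)
    (e : bcG F k κ (X i) = y) :
    ∃ g : HomogeneousLocalization.Away (homogeneousSubmodule κ F) (X i : MvPolynomial κ F) →+*
        HomogeneousLocalization.Away (homogeneousSubmodule κ k) y,
      Proj.awayι (homogeneousSubmodule κ k) y hy one_pos ≫ psBC F k κ =
        Spec.map (CommRingCat.ofHom g) ≫ psι i ∧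
      g.comp (bcCst F (X i)) = (bcCst k y).comp (algebraMap F k) ∧
      ∀ j, g (frac i j) = HomogeneousLocalization.Away.mk (homogeneousSubmodule κ k) hy 1 (X j)
        (by simpa using hX j) := by
  subst e
  refine ⟨HomogeneousLocalization.Away.map (bcG F k κ) (X i), ?_, bc_away F k κ (X i),
    fun j => ?_⟩
  · exact Proj.awayι_comp_map (bcG F k κ) (bcG_irrelevant F k κ) one_pos (X i) (hX i)
  · refine HomogeneousLocalization.val_injective _ ?_
    rw [frac, HomogeneousLocalization.Away.map_mk, HomogeneousLocalization.Away.val_mk,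
      HomogeneousLocalization.Away.val_mk]
    have h : bcG F k κ (X j) = X j := by rw [bcG_apply, map_X]
    rw [h]

/-- The homomorphism of the rings of the charts. -/
theorem exists_bcChart (i : κ) :
    ∃ g : HomogeneousLocalization.Away (homogeneousSubmodule κ F) (X i : MvPolynomial κ F) →+*
        HomogeneousLocalization.Away (homogeneousSubmodule κ k) (X i : MvPolynomial κ k),
      psι i ≫ psBC F k κ = Spec.map (CommRingCat.ofHom g) ≫ psι i ∧
      g.comp (bcCst F (X i)) = (bcCst k (X i)).comp (algebraMap F k) ∧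
      ∀ j, g (frac i j) = frac i j :=
  bc_map_chart F k κ i (X i) (hX i) (by rw [bcG_apply, map_X])

variable {k κ} in
/-- Homomorphisms out of the ring of a chart. -/
theorem exists_away_hom {R : Type} [CommRing R] (i : κ) (a : k →+* R) (b : κ → R)
    (hb : b i = 1) :
    ∃ φ : HomogeneousLocalization.Away (homogeneousSubmodule κ k) (X i : MvPolynomial κ k) →+* R,
      φ.comp (bcCst k (X i)) = a ∧ ∀ j, φ (frac i j) = b j := by
  have hu : IsUnit (eval₂Hom a b (X i)) := by
    rw [coe_eval₂Hom, eval₂_X, hb]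
    exact isUnit_one
  let L := Localization.Away (X i : MvPolynomial κ k)
  let φ : L →+* R := IsLocalization.Away.lift (X i) hu
  have hφ : ∀ p, φ (algebraMap (MvPolynomial κ k) L p) = eval₂Hom a b p := fun p =>
    IsLocalization.Away.lift_eq (X i) hu p
  refine ⟨φ.comp (algebraMap (HomogeneousLocalization.Away (homogeneousSubmodule κ k)
    (X i : MvPolynomial κ k)) L), ?_, fun j => ?_⟩
  · ext x
    have h1 := hφ (C x)
    rw [coe_eval₂Hom, eval₂_C] at h1
    exact h1
  · have h1 : algebraMap (HomogeneousLocalization.Away (homogeneousSubmodule κ k)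
        (X i : MvPolynomial κ k)) L (frac i j) * algebraMap (MvPolynomial κ k) L (X i) =
        algebraMap (MvPolynomial κ k) L (X j) := by
      rw [HomogeneousLocalization.algebraMap_apply, frac,
        HomogeneousLocalization.Away.val_mk, ← Localization.mk_one_eq_algebraMap,
        ← Localization.mk_one_eq_algebraMap,
        Localization.mk_mul, Localization.mk_eq_mk_iff, Localization.r_iff_exists]
      refine ⟨1, ?_⟩
      simp only [OneMemClass.coe_one, one_mul, pow_one, mul_one]
      ring
    have h2 := congrArg φ h1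
    rw [map_mul, hφ, hφ, coe_eval₂Hom, eval₂_X, eval₂_X, hb, mul_one] at h2
    exact h2

theorem bc_isPushout (i : κ) (g : HomogeneousLocalization.Away (homogeneousSubmodule κ F)
      (X i : MvPolynomial κ F) →+*
        HomogeneousLocalization.Away (homogeneousSubmodule κ k) (X i : MvPolynomial κ k))
    (h1 : g.comp (bcCst F (X i)) = (bcCst k (X i)).comp (algebraMap F k))
    (h2 : ∀ j, g (frac i j) = frac i j) :
    IsPushout (CommRingCat.ofHom (bcCst F (X i : MvPolynomial κ F)))
      (CommRingCat.ofHom (algebraMap F k)) (CommRingCat.ofHom g)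
      (CommRingCat.ofHom (bcCst k (X i : MvPolynomial κ k))) := by
  have w : CommRingCat.ofHom (bcCst F (X i : MvPolynomial κ F)) ≫ CommRingCat.ofHom g =
      CommRingCat.ofHom (algebraMap F k) ≫
        CommRingCat.ofHom (bcCst k (X i : MvPolynomial κ k)) := by
    rw [← CommRingCat.ofHom_comp, ← CommRingCat.ofHom_comp, h1]
  have key : ∀ s : PushoutCocone (CommRingCat.ofHom (bcCst F (X i : MvPolynomial κ F)))
      (CommRingCat.ofHom (algebraMap F k)),
      ∃ φ : HomogeneousLocalization.Away (homogeneousSubmodule κ k)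
        (X i : MvPolynomial κ k) →+* s.pt,
      φ.comp (bcCst k (X i)) = s.inr.hom ∧ ∀ j, φ (frac i j) = s.inl.hom (frac i j) := fun s =>
    exists_away_hom (R := s.pt) i s.inr.hom (fun j => s.inl.hom (frac i j))
      (by rw [frac_self, map_one])
  choose φ hφ1 hφ2 using key
  refine ⟨⟨w⟩, ⟨PushoutCocone.IsColimit.mk w (fun s => CommRingCat.ofHom (φ s)) (fun s => ?_)
    (fun s => ?_) fun s m hm1 hm2 => ?_⟩⟩
  · ext1
    refine away_ext (φ := (φ s).comp g) (ψ := s.inl.hom) ?_ fun j => ?_
    · have h3 : (φ s).comp (g.comp (bcCst F (X i))) = s.inl.hom.comp (bcCst F (X i)) := by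
        rw [h1, ← RingHom.comp_assoc, hφ1]
        have h4 := congrArg CommRingCat.Hom.hom s.condition
        exact h4.symm
      exact h3
    · rw [RingHom.comp_apply, h2, hφ2]
  · ext1
    exact hφ1 s
  · ext1
    refine away_ext (φ := m.hom) (ψ := φ s) ?_ fun j => ?_
    · have h3 : m.hom.comp (bcCst k (X i)) = s.inr.hom := congrArg CommRingCat.Hom.hom hm2
      exact h3.trans (hφ1 s).symm
    · rw [hφ2]
      have h3 : m.hom.comp g = s.inl.hom := congrArg CommRingCat.Hom.hom hm1
      rw [← h3, RingHom.comp_apply, h2]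

/-- The chart of `ℙ_k` is the preimage of the chart of `ℙ_F`. -/
theorem bc_chart (i : κ) (g : HomogeneousLocalization.Away (homogeneousSubmodule κ F)
      (X i : MvPolynomial κ F) →+*
        HomogeneousLocalization.Away (homogeneousSubmodule κ k) (X i : MvPolynomial κ k))
    (h : psι i ≫ psBC F k κ = Spec.map (CommRingCat.ofHom g) ≫ psι i) :
    IsPullback (Spec.map (CommRingCat.ofHom g)) (psι (k := k) i) (psι (k := F) i)
      (psBC F k κ) := by
  refine IsOpenImmersion.isPullback _ _ _ _ h ?_
  rw [Proj.opensRange_awayι, Proj.opensRange_awayι]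
  refine (Proj.map_preimage_basicOpen (bcG F k κ) (bcG_irrelevant F k κ) (X i)).trans ?_
  rw [bcG_apply, map_X]

theorem psι_str (L : Type) [Field L] (i : κ) :
    psι (k := L) i ≫ psStr L κ = Spec.map (CommRingCat.ofHom (bcCst L (X i))) :=
  away_str L (X i) (hX i) one_pos

/-- The open cover of projective space by the charts. -/
noncomputable def bcCover : (PS F κ).AffineOpenCover where
  I₀ := κ
  X i := .of (HomogeneousLocalization.Away (homogeneousSubmodule κ F) (X i : MvPolynomial κ F))
  f i := psι i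
  idx x := (TopologicalSpace.Opens.mem_iSup.mp
    ((iSup_psD (k := F) (κ := κ)).ge (Set.mem_univ x))).choose
  covers x := by
    change x ∈ (psι (k := F) _).opensRange
    rw [Proj.opensRange_awayι]
    exact (TopologicalSpace.Opens.mem_iSup.mp
      ((iSup_psD (k := F) (κ := κ)).ge (Set.mem_univ x))).choose_spec

theorem psBC_isPullback : IsPullback (psBC F k κ) (psStr k κ) (psStr F κ)
    (Spec.map (CommRingCat.ofHom (algebraMap F k))) := by
  refine Scheme.isPullback_of_openCover _ _ _ _ (bcCover F κ).openCover fun (i : κ) => ?_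
  obtain ⟨g, hg1, hg2, hg3⟩ := exists_bcChart F k κ i
  have h1 := bc_chart F k κ i g hg1
  have h2 := isPullback_SpecMap_of_isPushout _ _ _ _ (bc_isPushout F k κ i g hg2 hg3)
  have h3 : IsPullback (Spec.map (CommRingCat.ofHom g)) (psι i ≫ psStr k κ)
      (psι i ≫ psStr F κ) (Spec.map (CommRingCat.ofHom (algebraMap F k))) := by
    rw [psι_str, psι_str]
    exact h2
  have h4 : IsPullback (pullback.snd (psBC F k κ) (psι (k := F) i))
      (pullback.fst (psBC F k κ) (psι (k := F) i) ≫ psStr k κ)
      (psι i ≫ psStr F κ) (Spec.map (CommRingCat.ofHom (algebraMap F k))) := by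
    refine IsPullback.of_iso h3 (h1.flip.isoIsPullback _ _
      (IsPullback.of_hasPullback (psBC F k κ) (psι (k := F) i))) (Iso.refl _) (Iso.refl _)
      (Iso.refl _) ?_ ?_ ?_ ?_
    · simp
    · simp only [Iso.refl_hom, Category.comp_id, ← Category.assoc]
      rw [IsPullback.isoIsPullback_hom_fst]
    · simp
    · simp
  exact h4

end ring

section overk

variable (k₀ F k : Type) [Field k₀] [Field F] [Field k] [Algebra k₀ F] [Algebra k₀ k]
  [Algebra F k] [IsScalarTower k₀ F k] (κ : Type)

theorem bc_str : PSo.bc F k κ k₀ ≫ PSo.str k₀ F κ = PSo.str k₀ k κ ≫ ext k₀ F k := by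
  apply Over.OverMorphism.ext
  exact psBC_str F k κ

theorem bc_isPullback : IsPullback (PSo.bc F k κ k₀) (PSo.str k₀ k κ) (PSo.str k₀ F κ)
    (ext k₀ F k) :=
  over_isPullback _ _ _ _ (psBC_isPullback F k κ)

theorem bc_flat : Flat (PSo.bc F k κ k₀).left :=
  MorphismProperty.of_isPullback (P := @Flat) ((bc_isPullback k₀ F k κ).map (Over.forget _)).flip
    (genclass_flat_field (k₀ := k₀) (F := F) (F' := k))

variable {κ}

theorem killG_bcG (i : κ) :
    (killG k i).comp (bcG F k κ) = (bcG F k {j // j ≠ i}).comp (killG F i) := by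
  have e : ((kill k i).toRingHom).comp (MvPolynomial.map (algebraMap F k)) =
      (MvPolynomial.map (algebraMap F k)).comp (kill F i).toRingHom := by
    refine MvPolynomial.ringHom_ext (fun r => ?_) fun j => ?_
    · have h1 : kill k i (C (algebraMap F k r)) = C (algebraMap F k r) := (kill k i).commutes _
      have h2 : kill F i (C r) = C r := (kill F i).commutes _
      change kill k i (MvPolynomial.map (algebraMap F k) (C r)) =
        MvPolynomial.map (algebraMap F k) (kill F i (C r))
      rw [map_C, h1, h2, map_C]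
    · change kill k i (MvPolynomial.map (algebraMap F k) (X j)) =
        MvPolynomial.map (algebraMap F k) (kill F i (X j))
      rw [map_X]
      by_cases hj : j = i
      · subst hj
        rw [kill_X_self, kill_X_self, map_zero]
      · rw [kill_X_ne k i hj, kill_X_ne F i hj, map_X]
  exact DFunLike.ext _ _ fun x => congrArg (fun φ => φ x) e

theorem hypMap_psBC (i : κ) : hypMap k i ≫ psBC F k κ = psBC F k {j // j ≠ i} ≫ hypMap F i := by
  have e := killG_bcG F k i
  have key : ∀ {f f' : GradedRingHom (homogeneousSubmodule κ F)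
      (homogeneousSubmodule {j // j ≠ i} k)}, f = f' → ∀ hf hf', Proj.map f hf = Proj.map f' hf' := by
    rintro f _ rfl _ _
    rfl
  exact (Proj.map_comp _ _ _ _).symm.trans ((key e _ _).trans (Proj.map_comp _ _ _ _))

theorem hyp_bc (i : κ) : PSo.hyp k₀ k κ i ≫ PSo.bc F k κ k₀ =
    PSo.bc F k {j // j ≠ i} k₀ ≫ PSo.hyp k₀ F κ i := by
  apply Over.OverMorphism.ext
  exact hypMap_psBC F k i

theorem hyp_isPullback (i : κ) : IsPullback (PSo.bc F k {j // j ≠ i} k₀) (PSo.hyp k₀ k κ i)
    (PSo.hyp k₀ F κ i) (PSo.bc F k κ k₀) := by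
  have h1 : IsPullback (PSo.bc F k {j // j ≠ i} k₀) (PSo.hyp k₀ k κ i ≫ PSo.str k₀ k κ)
      (PSo.hyp k₀ F κ i ≫ PSo.str k₀ F κ) (ext k₀ F k) := by
    rw [PSo.hyp_str, PSo.hyp_str]
    exact bc_isPullback k₀ F k _
  exact IsPullback.of_bot h1 (hyp_bc k₀ F k i).symm (bc_isPullback k₀ F k κ)

end overk

theorem hyperplane_bc {k₀ K : Type} [Field k₀] [Field K] {D : CohData k₀ K} (h : D.IsTheory)
    (F k : Type) [Field F] [Field k] [Algebra k₀ F] [Algebra k₀ k] [Algebra F k]
    [IsScalarTower k₀ F k] {κ : Type} [Fintype κ] [Nontrivial κ] (i : κ) :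
    D.pb (PSo.bc F k κ k₀) (hyperplane D F i) = hyperplane D k i := by
  have hκ : ∃ N, Fintype.card κ = N + 2 := by
    have : 1 < Fintype.card κ := Fintype.one_lt_card
    exact ⟨Fintype.card κ - 2, by omega⟩
  obtain ⟨N, hN⟩ := hκ
  have hn : Nat.card κ = (N + 1) + 1 := by rw [Nat.card_eq_fintype_card, hN]
  have hn' : Nat.card {j // j ≠ i} = N + 1 := card_ne hn i
  have s1 : ∀ (L : Type) [Field L] [Algebra k₀ L], Sm (PSo k₀ L κ) := fun L _ _ =>
    (pso_var k₀ L κ (N + 1) hn).sm
  have s2 : ∀ (L : Type) [Field L] [Algebra k₀ L], Sm (PSo k₀ L {j // j ≠ i}) := fun L _ _ =>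
    (pso_var k₀ L {j // j ≠ i} N hn').sm
  have hc : IsClosedImmersion (PSo.hyp k₀ F κ i).left := hyp_closed i
  have h1 := h.chow.flatBaseChange _ _ _ _ (PSo.hyp k₀ F κ i) (PSo.hyp k₀ k κ i)
    (PSo.bc F k {j // j ≠ i} k₀) (PSo.bc F k κ k₀) (hyp_isPullback k₀ F k i) (s2 F) (s1 F)
    (s2 k) (s1 k) inferInstance (bc_flat k₀ F k κ) (D.fund _)
  refine h1.trans ?_
  have h2 : D.pb (PSo.bc F k {j // j ≠ i} k₀) (D.fund _) = D.fund _ :=
    map_one (D.pull (PSo.bc F k {j // j ≠ i} k₀))
  rw [h2]
  rfl

end Pool.Agent.Lib.MP_4ca46c_ag.Vtc
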