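import Mathlib
import Pool.Agent.Lib.MP_4ca46c_ag.Std.LocSm

/-!
# Descent of projective varieties: the relative dimension
-/

namespace Pool.Agent.Lib.MP_4ca46c_ag.Vtc

open CategoryTheory Limits AlgebraicGeometry
open Pool.Agent.Lib.MP_4ca46c_ag.Sign Pool.Agent.Lib.MP_4ca46c_ag.Hyp
open Pool.Agent.Lib.MP_4ca46c_ag.Std

theorem desc_locsm (k B : Type) [Field k] [CommRing B] [Algebra k B] [Nontrivial B] (m n : ℕ)
    (hm : LocSm m k B) (hn : LocSm n k B) : m = n := by
  obtain ⟨q, hq⟩ := Ideal.exists_maximal B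
  obtain ⟨b, hb, h1⟩ := hm q hq.isPrime
  obtain ⟨c, hc, h2⟩ := hn q hq.isPrime
  let S := Localization.Away b
  let S' := Localization.Away c
  let T := Localization.Away (algebraMap B S c)
  let T' := Localization.Away (algebraMap B S' b)
  have i1 : IsLocalization.Away (b * c) T := IsLocalization.Away.mul' S T b c
  have i2 : IsLocalization.Away (b * c) T' := by
    rw [mul_comm]
    exact IsLocalization.Away.mul' S' T' c b
  have hbc : b * c ∉ q := fun h => by
    rcases hq.isPrime.mem_or_mem h with h | h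
    · exact hb h
    · exact hc h
  have hnt : Nontrivial T := by
    have h3 : (Submonoid.powers (b * c)) ≤ q.primeCompl := by
      rintro _ ⟨j, rfl⟩
      exact fun h => hbc (hq.isPrime.mem_of_pow_mem _ h)
    refine ⟨⟨0, 1, fun h => ?_⟩⟩
    have h4 : algebraMap B T 1 = algebraMap B T 0 := by
      rw [map_one, map_zero, h]
    obtain ⟨⟨c', hc'⟩, h5⟩ := (IsLocalization.eq_iff_exists (Submonoid.powers (b * c)) T).1 h4
    have h6 : c' ∈ q := by
      have : c' = 0 := by simpa using h5
      rw [this]
      exact q.zero_mem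
    exact h3 hc' h6
  let e : T ≃ₐ[B] T' := IsLocalization.algEquiv (Submonoid.powers (b * c)) T T'
  have h3 : Algebra.IsStandardSmoothOfRelativeDimension m k T := by
    have h4 : Algebra.IsStandardSmoothOfRelativeDimension 0 S T :=
      Algebra.IsStandardSmoothOfRelativeDimension.localization_away (algebraMap B S c)
    have h5 := Algebra.IsStandardSmoothOfRelativeDimension.trans (n := m) (m := 0) k S T
    rwa [zero_add] at h5
  have h4 : Algebra.IsStandardSmoothOfRelativeDimension n k T' := by
    have h4 : Algebra.IsStandardSmoothOfRelativeDimension 0 S' T' :=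
      Algebra.IsStandardSmoothOfRelativeDimension.localization_away (algebraMap B S' b)
    have h5 := Algebra.IsStandardSmoothOfRelativeDimension.trans (n := n) (m := 0) k S' T'
    rwa [zero_add] at h5
  have h5 : Algebra.IsStandardSmoothOfRelativeDimension n k T :=
    Algebra.IsStandardSmoothOfRelativeDimension.of_algEquiv n (e.symm.restrictScalars k)
  have h6 := Algebra.IsStandardSmoothOfRelativeDimension.rank_kaehlerDifferential (R := k)
    (S := T) m
  have h7 := Algebra.IsStandardSmoothOfRelativeDimension.rank_kaehlerDifferential (R := k)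
    (S := T) n
  have h8 := h6.symm.trans h7
  exact_mod_cast h8

/-- The relative dimension of a nonempty smooth scheme over a field is unique. -/
theorem desc_unique {k : Type} [Field k] {X : Scheme.{0}} (f : X ⟶ Spec (CommRingCat.of k))
    (m n : ℕ) [hX : Nonempty X] (hm : SmoothOfRelativeDimension m f)
    (hn : SmoothOfRelativeDimension n f) : m = n := by
  obtain ⟨x⟩ := hX
  obtain ⟨U, hU, hx, -⟩ := exists_isAffineOpen_mem_and_subset (x := x) (U := ⊤) trivial
  let alg : Algebra k Γ(X, U) :=
    ((Scheme.ΓSpecIso (CommRingCat.of k)).inv ≫ f.appLE ⊤ U (by simp)).hom.toAlgebra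
  have h1 := tLocSm₂ k X f m hm U hU rfl
  have h2 := tLocSm₂ k X f n hn U hU rfl
  have : Nonempty U := ⟨⟨x, hx⟩⟩
  exact desc_locsm k _ m n h1 h2

theorem desc_restrict {X Y : Scheme.{0}} (f : X ⟶ Y) (m : ℕ) (U : Y.Opens) (hU : IsAffineOpen U)
    (V : X.Opens) (hV : IsAffineOpen V) (e : V ≤ f ⁻¹ᵁ U)
    (h : RingHom.IsStandardSmoothOfRelativeDimension m (f.appLE U V e).hom) :
    SmoothOfRelativeDimension m (V.ι ≫ f) := by
  have : IsAffine V.toScheme := hV
  refine ⟨fun v => ⟨U, hU, ⊤, isAffineOpen_top _, trivial, ?_, ?_⟩⟩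
  · intro w _
    exact e w.2
  · have h1 : (V.ι ≫ f).appLE U ⊤ (fun w _ => e w.2) = f.appLE U V e ≫ V.topIso.inv := by
      rw [← Scheme.Hom.appLE_comp_appLE V.ι f U V ⊤ e (by simp)]
      congr 1
      simp only [Scheme.Opens.ι_appLE, Scheme.Opens.topIso_inv]
      rfl
    rw [h1]
    exact RingHom.isStandardSmoothOfRelativeDimension_respectsIso.1 _
      V.topIso.symm.commRingCatIsoToRingEquiv h

end Pool.Agent.Lib.MP_4ca46c_ag.Vtc
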