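import Mathlib
import Pool.Agent.Lib.MP_4ca46c_ag.Vtc.HasDesc3
import Pool.Agent.Lib.MP_4ca46c_ag.Std.Conn
import Pool.Agent.Lib.MP_4ca46c_ag.Std.GeomConn
import Pool.Agent.Lib.MP_4ca46c_ag.Std.TensorD

/-!
# Descent of smoothness and connectedness
-/

namespace Pool.Agent.Lib.MP_4ca46c_ag.Vtc

open CategoryTheory Limits AlgebraicGeometry
open Pool.Agent.Lib.MP_4ca46c_ag.Sign Pool.Agent.Lib.MP_4ca46c_ag.Hyp
open Pool.Agent.Lib.MP_4ca46c_ag.Std

theorem desc_dim {R S : Type} [CommRing R] [CommRing S] (f : R →+* S)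
    (h : f.IsStandardSmooth) : ∃ m, f.IsStandardSmoothOfRelativeDimension m := by
  let _ := f.toAlgebra
  obtain ⟨ι, σ, h1, h2, ⟨P⟩⟩ := h
  exact ⟨P.dimension, P.isStandardSmoothOfRelativeDimension rfl⟩

variable {F k : Type} [Field F] [Field k] {X Y : Scheme.{0}}
  (φ : Spec (CommRingCat.of k) ⟶ Spec (CommRingCat.of F))
  (f : X ⟶ Spec (CommRingCat.of F)) (g : Y ⟶ X) (y : Y ⟶ Spec (CommRingCat.of k))

theorem desc_smooth [Surjective φ] [Flat φ] [QuasiCompact φ] (h : IsPullback g y f φ) (n : ℕ)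
    (hn : SmoothOfRelativeDimension n y) : SmoothOfRelativeDimension n f := by
  have hy : Smooth y := SmoothOfRelativeDimension.smooth n y
  have hf : Smooth f := MorphismProperty.of_isPullback_of_descendsAlong (P := @Smooth)
    (Q := @Surjective ⊓ @Flat ⊓ @QuasiCompact) h.flip
    ⟨⟨inferInstance, inferInstance⟩, inferInstance⟩ hy
  have hg : Surjective g := MorphismProperty.of_isPullback (P := @Surjective) h.flip inferInstance
  refine ⟨fun x => ?_⟩
  obtain ⟨U, hU, V, hV, hx, e, hs⟩ := Smooth.exists_isStandardSmooth f x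
  obtain ⟨m, hm⟩ := desc_dim _ hs
  have h1 : SmoothOfRelativeDimension m (V.ι ≫ f) := desc_restrict f m U hU V hV e hm
  have h2 : IsPullback (g ∣_ V) ((g ⁻¹ᵁ V).ι ≫ y) (V.ι ≫ f) φ :=
    ((isPullback_morphismRestrict g V).flip.paste_horiz h.flip).flip
  have h4 : SmoothOfRelativeDimension m ((g ⁻¹ᵁ V).ι ≫ y) := by
    have := smoothOfRelativeDimension_isStableUnderBaseChange.{0} m
    exact MorphismProperty.of_isPullback (P := @SmoothOfRelativeDimension m) h2 h1
  have h5 : SmoothOfRelativeDimension n ((g ⁻¹ᵁ V).ι ≫ y) := by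
    have h6 : SmoothOfRelativeDimension (0 + n) ((g ⁻¹ᵁ V).ι ≫ y) := inferInstance
    rwa [zero_add] at h6
  obtain ⟨z, hz⟩ := hg.surj x
  have : Nonempty (g ⁻¹ᵁ V).toScheme := ⟨⟨z, by
    change g z ∈ V
    rwa [hz]⟩⟩
  obtain rfl := desc_unique _ m n h4 h5
  exact ⟨U, hU, V, hV, hx, e, hm⟩

theorem desc_conn [IsAlgClosed F] [Surjective φ] (h : IsPullback g y f φ)
    (hy : GeometricallyConnected y) : GeometricallyConnected f := by
  have hg : Surjective g := MorphismProperty.of_isPullback (P := @Surjective) h.flip inferInstance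
  have hY : ConnectedSpace Y := GeometricallyConnected.connectedSpace_of_subsingleton y
  have hX : ConnectedSpace X := hg.surj.connectedSpace g.continuous
  exact tGeomConn tTensor F X f hX

end Pool.Agent.Lib.MP_4ca46c_ag.Vtc
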