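import Mathlib
import Pool.Agent.Lib.MP_4ca46c_ag.Vtc.PsStr

/-!
# The variational Tate conjecture

`D : CohData k₀ K` are Chow groups and a cohomology theory for schemes over the field `k₀`, see
`Sign/Compact.lean`.
-/

namespace Pool.Agent.Lib.MP_4ca46c_ag.Vtc

open CategoryTheory Limits AlgebraicGeometry
open Pool.Agent.Lib.MP_4ca46c_ag.Sign Pool.Agent.Lib.MP_4ca46c_ag.Hyp
open Pool.Agent.Lib.MP_4ca46c_ag.Std

section

variable {k₀ : Type} [Field k₀]

/-- The map from the projective space over `k` to the projective space over `k₀`. -/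
noncomputable def toPS (k : Type) [Field k] [Algebra k₀ k] (κ : Type) :
    PSo k₀ k κ ⟶ PSo k₀ k₀ κ :=
  Over.homMk (psBC k₀ k κ) (PSo.bc k₀ k κ k₀).w

/-- Morphisms of schemes over `k₀`. -/
abbrev Mor (X Y : Sch k₀) : Type := X ⟶ Y

/-- The fibre product of `g` and `b`, in particular the fibre of `g` over the point `b`. -/
noncomputable abbrev fib {X S B : Sch k₀} (g : Mor X S) (b : Mor B S) : Sch k₀ := pullback g b

/-- The map from the fibre to the total space. -/
noncomputable abbrev fibι {X S B : Sch k₀} (g : Mor X S) (b : Mor B S) : Mor (fib g b) X :=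
  pullback.fst g b

/-- The map from the fibre to the point. -/
noncomputable abbrev fibπ {X S B : Sch k₀} (g : Mor X S) (b : Mor B S) : Mor (fib g b) B :=
  pullback.snd g b

/-- The map of fibres over `b` given by a morphism of families. -/
noncomputable abbrev fibm {X X' S B : Sch k₀} {g : Mor X S} {g' : Mor X' S} (m : Mor X X')
    (hm : m ≫ g' = g) (b : Mor B S) : Mor (fib g b) (fib g' b) :=
  pullback.lift (fibι g b ≫ m) (fibπ g b) (by rw [Category.assoc, hm, pullback.condition])

/-- `g : X ⟶ S` is a smooth proper family with geometrically connected fibres of dimension `n`. -/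
structure IsFam {X S : Sch k₀} (g : Mor X S) (n : ℕ) : Prop where
  smooth : SmoothOfRelativeDimension n g.left
  proper : IsProper g.left
  connected : GeometricallyConnected g.left

end

/-- `φ` is an isomorphism of algebras. -/
def IsAlgIso (K : Type) [Field K] {A B : Type} [Ring A] [Algebra K A] [Ring B] [Algebra K B]
    (φ : A → B) : Prop := ∃ α : A ≃ₐ[K] B, ∀ u, φ u = α u

variable {k₀ : Type} [Field k₀] {K : Type} [Field K]

/-- A morphism `f : W ⟶ C` from a smooth projective variety to a smooth proper curve, over an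
algebraically closed field, and a smooth connected fibre `Y` of `f`, over the point `b`. -/
structure Fibration (k₀ : Type) [Field k₀] where
  W : PrVar k₀
  C : Sch k₀
  c : Mor C (pt k₀ W.k)
  isCurve : IsVar c 1
  f : Mor W.X C
  f_str : f ≫ c = W.str
  b : Mor (pt k₀ W.k) C
  b_str : b ≫ c = 𝟙 _
  Y : Sch k₀
  y : Mor Y (pt k₀ W.k)
  ι : Mor Y W.X
  isFibre : IsPullback ι y f b
  m : ℕ
  isVar : IsVar y m
  dim : W.n = m + 1

namespace Fibration

variable (Φ : Fibration k₀) (D : CohData k₀ K)

/-- The class in `H^2(W)` of the fibre `Y`. -/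
noncomputable def η : D.H Φ.W.X := D.cls (D.pf Φ.ι (D.fund Φ.Y))

/-- The variational Tate conjecture: if the class of a cycle on `Y` is the restriction of a
cohomology class of `W`, then it is the class of the restriction of a cycle on `W`. -/
def VarTate : Prop := ∀ (j : ℕ) (a : D.CH Φ.Y), D.Codim j a →
  (∃ w : D.H Φ.W.X, D.cls a = D.pbH Φ.ι w) →
    ∃ a' : D.CH Φ.W.X, D.Codim j a' ∧ D.cls a = D.cls (D.pb Φ.ι a')

/-- The restriction `H(W) ⟶ H(Y)` is split by an algebraic correspondence: there is a cycle `a` of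
codimension `dim Y` on `W × Y`, such that the operator `s v = p₁_* (cl a ∪ p₂^* v)` from `H(Y)` to
`H(W)` is a section of the restriction on its image, and zero on the orthogonal complement of this
image. -/
def Splits : Prop := ∃ (a : D.CH (fib Φ.W.str Φ.y)) (s : D.H Φ.Y → D.H Φ.W.X),
  D.Codim Φ.m a ∧ (∀ v w, D.trace (D.cup (s v) w) = D.trace (D.cup (D.cup (D.cls a)
    (D.pbH (fibπ Φ.W.str Φ.y) v)) (D.pbH (fibι Φ.W.str Φ.y) w))) ∧
  (∀ w, D.pbH Φ.ι (s (D.pbH Φ.ι w)) = D.pbH Φ.ι w) ∧
  ∀ z, (∀ w, D.trace (D.cup z (D.pbH Φ.ι w)) = 0) → s z = 0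

/-- If the product of a class with the class of `Y` is zero, then its restriction to `Y` is zero
(a consequence of the semisimplicity of the monodromy). -/
def Kernel : Prop := ∀ w : D.H Φ.W.X, D.cup (Φ.η D) w = 0 → D.pbH Φ.ι w = 0

/-- The relative hard Lefschetz theorem for `f : W ⟶ C`: the iterated Lefschetz operator `h^i`
gives a surjective map between the parts of degrees `n - i` and `n + i` of `Ker η / Im η`. -/
def RelLefschetz : Prop := ∀ i ≤ Φ.W.n, ∀ v, D.Deg (Φ.W.n + i) v → D.cup (Φ.η D) v = 0 →
  ∃ u g, D.Deg (Φ.W.n - i) u ∧ D.cup (Φ.η D) u = 0 ∧ v = Φ.W.lef D i u + D.cup (Φ.η D) g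

/-- The theorem of the fixed part, for the smooth geometric generic fibre `Y'` of `f`: the
cohomology classes of `Y'` which are invariant under the automorphisms of `Y'` over `W` (and over
automorphisms of its base field `k`) are restrictions of cohomology classes of `W`. -/
def FixedPart : Prop := ∀ (k : Type) [Field k] [Algebra k₀ k] [IsAlgClosed k]
  (e : Mor (pt k₀ k) Φ.C) (Y' : Sch k₀) (y : Mor Y' (pt k₀ k)) (ι : Mor Y' Φ.W.X),
  IsDominant e.left → IsPullback ι y Φ.f e → IsVar y Φ.m → ∀ x : D.H Y',
  (∀ (σ : k →ₐ[k₀] k) (s : Mor Y' Y'), IsIso (ptMap k₀ σ) → ptMap k₀ σ ≫ e = e → s ≫ ι = ι →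
    s ≫ y = y ≫ ptMap k₀ σ → D.pbH s x = x) → ∃ w : D.H Φ.W.X, D.pbH ι w = x

end Fibration

section axioms

variable (D : CohData k₀ K)

/-- `sp` is a system of specialization maps `H(X_e) ⟶ H(X_b)` for smooth proper families
`X ⟶ S`. -/
structure IsSpec {B E S : Sch k₀} (b : Mor B S) (e : Mor E S)
    (sp : ∀ (X : Sch k₀) (g : Mor X S), D.H (fib g e) → D.H (fib g b)) : Prop where
  /-- the specialization maps are isomorphisms of algebras -/
  iso : ∀ X g n, IsFam g n → IsAlgIso K (sp X g)
  deg : ∀ X g n, IsFam g n → ∀ i u, D.Deg i u → D.Deg i (sp X g u)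
  trace : ∀ X g n, IsFam g n → ∀ u, D.trace (sp X g u) = D.trace u
  /-- they are compatible with morphisms of families -/
  map : ∀ X X' g g' n n' (m : Mor X X') (hm : m ≫ g' = g), IsFam g n → IsFam g' n' →
    ∀ u, sp X g (D.pbH (fibm m hm e) u) = D.pbH (fibm m hm b) (sp X' g' u)
  /-- the restrictions to `X_e` and `X_b` of a cohomology class of a smooth proper variety `Z`
  correspond, for every morphism `X ⟶ Z` -/
  const : ∀ X g n (Z : Sch k₀) (q : Mor X Z), IsFam g n → IsWeil Z →
    ∀ u, sp X g (D.pbH (fibι g e ≫ q) u) = D.pbH (fibι g b ≫ q) u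

/-- Smooth and proper base change: let `S` be a connected scheme with geometric points `b` and
`e`. There are specialization isomorphisms. -/
def Specialization : Prop := ∀ (F k : Type) [Field F] [Algebra k₀ F] [IsAlgClosed F] [Field k]
  [Algebra k₀ k] [IsAlgClosed k] (S : Sch k₀) (b : Mor (pt k₀ F) S) (e : Mor (pt k₀ k) S),
  ConnectedSpace S.left → ∃ sp, IsSpec D b e sp

/-- If `f : X ⟶ Y` is a surjective morphism of varieties of the same dimension then `f_* [X]` is
not zero. -/
def PushFund : Prop := ∀ (k : Type) [Field k] [Algebra k₀ k] [IsAlgClosed k] (X Y : Sch k₀)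
  (y : Mor Y (pt k₀ k)) (f : Mor X Y) (n : ℕ), IsVar (f ≫ y) n → IsVar y n →
  Surjective f.left → D.pf f (D.fund X) ≠ 0

/-- Properties of `ℓ`-adic cohomology: consequences of the theorems of Deligne (the theorem of the
fixed part and the semisimplicity of the monodromy), of the relative hard Lefschetz theorem for
morphisms to curves, and of the smooth and proper base change theorem. -/
structure HasFamilies : Prop where
  fixedPart : ∀ Φ : Fibration k₀, Φ.FixedPart D
  kernel : ∀ Φ : Fibration k₀, Φ.Kernel D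
  relLefschetz : ∀ Φ : Fibration k₀, Φ.RelLefschetz D
  specialization : Specialization D
  pushFund : PushFund D

end axioms

/-- A model of the smooth projective variety `V` over the curve `C` of the fibration `Φ`, over the
field `F`. There are a connected scheme `S` with a monomorphism `j : S ⟶ C` (an open subset of
`C`), a smooth projective family `g : X ⟶ S` with geometric generic fibre `V`, and a surjective
morphism `φ` over `S` from the smooth family `Y = f⁻¹(S)` to `X ×_S X`. -/
structure Model (Φ : Fibration k₀) (V : PrVar k₀) where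
  S : Sch k₀
  connected : ConnectedSpace S.left
  j : Mor S Φ.C
  mono : Mono j
  b : Mor (pt k₀ Φ.W.k) S
  b_j : b ≫ j = Φ.b
  e : Mor (pt k₀ V.k) S
  generic : IsDominant (e ≫ j).left
  X : Sch k₀
  g : Mor X S
  isFam : IsFam g V.n
  toP : Mor X (PSo k₀ Φ.W.k V.κ)
  toP_str : toP ≫ PSo.str k₀ Φ.W.k V.κ = g ≫ j ≫ Φ.c
  closed : IsClosedImmersion (fibι g b ≫ toP).left
  fst : Mor V.X X
  isFibre : IsPullback fst V.str g e
  fst_toP : fst ≫ toP ≫ toPS Φ.W.k V.κ = V.emb ≫ toPS V.k V.κ
  dim : Φ.m = 2 * V.n
  Y : Sch k₀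
  h : Mor Y S
  q : Mor Y Φ.W.X
  isPullback : IsPullback q h Φ.f j
  isFamY : IsFam h Φ.m
  φ : Mor Y (fib g g)
  φ_str : φ ≫ fibι g g ≫ g = h
  surjective : Surjective φ.left

/-- Spreading out, and de Jong's theorem on semistable alterations over curves: a variety over a
field of transcendence degree `r + 1` has a model over a curve over a field of transcendence
degree `r`. -/
def HasModels (k₀ : Type) [Field k₀] : Prop := ∀ (r : ℕ) (V : PrVar k₀),
  Algebra.trdeg k₀ V.k = r + 1 → ∃ Φ : Fibration k₀, Algebra.trdeg k₀ Φ.W.k = r ∧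
    Nonempty (Model Φ V)

end Pool.Agent.Lib.MP_4ca46c_ag.Vtc
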