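import Mathlib
import Pool.Agent.Lib.MP_4ca46c_ag.Geo.Lef
import Pool.Agent.Lib.MP_4ca46c_ag.Geo.Spread

/-!
# The image of the restriction to a fibre

`ι : Y ⟶ X` is the inclusion of a smooth fibre of a morphism from `X` to a curve.
-/

namespace Pool.Agent.Lib.MP_4ca46c_ag.Vtc

open CategoryTheory MonoidalCategory CartesianMonoidalCategory
open Pool.Agent.Lib.MP_4ca46c_ag.Geo Pool.Agent.Lib.MP_4ca46c_ag.Geo.WeilCohomology

universe v u

variable {K : Type} [Field K] [CharZero K] {𝒱 : Type u} [Category.{v} 𝒱]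
  [CartesianMonoidalCategory 𝒱]

/-- Hard Lefschetz for the class `h`. -/
def Hard (W : WeilCohomology K 𝒱) (X : 𝒱) (h : W.H X) : Prop :=
  ∀ i j : ℕ, i + j = W.dim X →
    Set.BijOn (fun x => h ^ j * x) (W.gr X i) (W.gr X (i + 2 * j))

/-- A smooth fibre `ι : Y ⟶ X` of a morphism from `X` to a curve. -/
structure Fib (W : WeilCohomology K 𝒱) {X Y : 𝒱} (ι : Y ⟶ X) (h : W.H X) : Prop where
  dim : W.dim X = W.dim Y + 1
  alg : h ∈ W.Alg X 1
  hardX : Hard W X h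
  hardY : Hard W Y (W.pull ι h)
  sq : W.push ι 1 * W.push ι 1 = 0
  ker : ∀ w, W.push ι 1 * w = 0 → W.pull ι w = 0
  rhl : ∀ i j : ℕ, i + j = W.dim X → ∀ v ∈ W.gr X (i + 2 * j), W.push ι 1 * v = 0 →
    ∃ u ∈ W.gr X i, ∃ g, W.push ι 1 * u = 0 ∧ v = h ^ j * u + W.push ι 1 * g

section

variable (W : WeilCohomology K 𝒱) {X Y : 𝒱}

theorem pull_pi (ι : Y ⟶ X) (i : ℕ) (w : W.H X) :
    W.pull ι (W.pi X i w) = W.pi Y i (W.pull ι w) := by
  refine W.ind (P := fun w => W.pull ι (W.pi X i w) = W.pi Y i (W.pull ι w)) w (by simp)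
    (fun j w hw => ?_) (fun a b ha hb => by simp only [map_add, ha, hb])
  by_cases h : j = i
  · subst h
    rw [W.pi_same hw, W.pi_same (W.pull_gr ι hw)]
  · rw [W.pi_ne hw h, W.pi_ne (W.pull_gr ι hw) h, map_zero]

/-- even classes are central -/
theorem even_comm {a : ℕ} {z : W.H X} (hz : z ∈ W.gr X (2 * a)) (x : W.H X) :
    z * x = x * z := by
  refine W.ind (P := fun x => z * x = x * z) x (by simp) (fun j x hx => ?_)
    (fun r s hr hs => by simp only [mul_add, add_mul, hr, hs])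
  rw [W.comm_smul hz hx, Even.neg_one_pow ⟨a * j, by ring⟩, one_smul]

/-- a homogeneous component of a product with an even class -/
theorem pi_mul {a : ℕ} {z : W.H X} (hz : z ∈ W.gr X a) (i : ℕ) (x : W.H X) :
    W.pi X (a + i) (z * x) = z * W.pi X i x := by
  refine W.ind (P := fun x => W.pi X (a + i) (z * x) = z * W.pi X i x) x (by simp)
    (fun j x hx => ?_) (fun r s hr hs => by simp only [mul_add, map_add, hr, hs])
  have h1 : z * x ∈ W.gr X (a + j) := SetLike.mul_mem_graded hz hx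
  by_cases h : j = i
  · subst h
    rw [W.pi_same hx, W.pi_same h1]
  · rw [W.pi_ne hx h, W.pi_ne h1 (by omega), mul_zero]

end

namespace Fib

variable {W : WeilCohomology K 𝒱} {X Y : 𝒱} {ι : Y ⟶ X} {h : W.H X} (Φ : Fib W ι h)

include Φ

/-- the class of the fibre -/
theorem eta_alg : W.push ι 1 ∈ W.Alg X 1 :=
  W.push_alg ι (W.alg_one Y) (by rw [Φ.dim]; ring)

theorem eta_gr : W.push ι 1 ∈ W.gr X (2 * 1) := W.alg_gr Φ.eta_alg

theorem h_gr : h ∈ W.gr X 2 := W.alg_gr Φ.alg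

theorem hY_alg : W.pull ι h ∈ W.Alg Y 1 := W.alg_pull ι Φ.alg

theorem hY_gr : W.pull ι h ∈ W.gr Y 2 := W.alg_gr Φ.hY_alg

theorem pull_eq_zero {w : W.H X} : W.pull ι w = 0 ↔ W.push ι 1 * w = 0 := by
  refine ⟨fun h => ?_, Φ.ker w⟩
  rw [← W.push_pull, h, map_zero]

/-- the form on the image of the restriction -/
theorem tr_pull (w w' : W.H X) :
    W.tr Y (W.pull ι w * W.pull ι w') = W.tr X (W.push ι 1 * w * w') := by
  rw [← W.push_pull, W.push_spec]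

theorem pull_pow (j : ℕ) (w : W.H X) : W.pull ι (h ^ j * w) = (W.pull ι h) ^ j * W.pull ι w := by
  rw [map_mul, map_pow]

/-- an element of the image of degree `a` is the restriction of an element of degree `a` -/
theorem exists_gr {a : ℕ} {x : W.H Y} (hx : x ∈ W.gr Y a) (h0 : ∃ w, W.pull ι w = x) :
    ∃ w ∈ W.gr X a, W.pull ι w = x := by
  obtain ⟨w, rfl⟩ := h0
  exact ⟨W.pi X a w, W.pi_mem a w, by rw [pull_pi, W.pi_same hx]⟩

/-- the image of the restriction in degree `a` -/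
def G (_ : Fib W ι h) (a : ℕ) : Submodule K (W.H Y) :=
  LinearMap.range (W.pull ι).toLinearMap ⊓ W.gr Y a

theorem mem_G {a : ℕ} {x : W.H Y} : x ∈ Φ.G a ↔ ∃ w ∈ W.gr X a, W.pull ι w = x := by
  constructor
  · rintro ⟨⟨w, hw⟩, hx⟩
    exact Φ.exists_gr hx ⟨w, hw⟩
  · rintro ⟨w, hw, rfl⟩
    exact ⟨⟨w, rfl⟩, W.pull_gr ι hw⟩

theorem finrank_le {a b : ℕ} (hab : a + b = 2 * W.dim Y) :
    Module.finrank K (Φ.G b) ≤ Module.finrank K (Φ.G a) := by
  let B : Φ.G b →ₗ[K] Module.Dual K (Φ.G a) :=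
    (((LinearMap.mul K (W.H Y)).compr₂ (W.tr Y)).compl₁₂ (Φ.G b).subtype (Φ.G a).subtype)
  have hB : ∀ (x : Φ.G b) (y : Φ.G a), B x y = W.tr Y (x * y) := fun _ _ => rfl
  have hinj : Function.Injective B := by
    rw [injective_iff_map_eq_zero]
    intro x hx
    obtain ⟨w, hw, hwx⟩ := Φ.mem_G.1 x.2
    apply Subtype.ext
    change (x : W.H Y) = 0
    rw [← hwx, Φ.pull_eq_zero]
    refine W.duality _ fun w' => ?_
    refine W.ind (P := fun w' => W.tr X (W.push ι 1 * w * w') = 0) w' (by simp)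
      (fun j w' hw' => ?_) (fun r s hr hs => by simp only [mul_add, map_add, hr, hs, add_zero])
    by_cases hj : j = a
    · subst hj
      have h1 := hB x ⟨W.pull ι w', Φ.mem_G.2 ⟨w', hw', rfl⟩⟩
      rw [hx] at h1
      rw [← Φ.tr_pull, hwx]
      exact h1.symm
    · refine W.tr_gr (SetLike.mul_mem_graded (SetLike.mul_mem_graded Φ.eta_gr hw) hw') ?_
      rw [Φ.dim]
      omega
  calc Module.finrank K (Φ.G b) ≤ Module.finrank K (Module.Dual K (Φ.G a)) :=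
        LinearMap.finrank_le_finrank_of_injective hinj
    _ = Module.finrank K (Φ.G a) := Subspace.dual_finrank_eq

/-- hard Lefschetz for the image of the restriction -/
theorem surj_G {a j : ℕ} (haj : a + j = W.dim Y) {x : W.H Y} (hx : x ∈ Φ.G (a + 2 * j)) :
    ∃ y ∈ Φ.G a, (W.pull ι h) ^ j * y = x := by
  have hmap : ∀ y : Φ.G a, (W.pull ι h) ^ j * (y : W.H Y) ∈ Φ.G (a + 2 * j) := by
    intro y
    obtain ⟨w, hw, hwy⟩ := Φ.mem_G.1 y.2
    rw [Φ.mem_G]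
    exact ⟨h ^ j * w, W.pow_gr Φ.h_gr j hw, by rw [Φ.pull_pow, hwy]⟩
  let f : Φ.G a →ₗ[K] Φ.G (a + 2 * j) :=
    ((LinearMap.mulLeft K ((W.pull ι h) ^ j)).comp (Φ.G a).subtype).codRestrict _ hmap
  have hf : Function.Injective f := by
    rw [injective_iff_map_eq_zero]
    intro y hy
    have h1 : (W.pull ι h) ^ j * (y : W.H Y) = 0 := congrArg Subtype.val hy
    obtain ⟨w, hw, hwy⟩ := Φ.mem_G.1 y.2
    have h2 : (y : W.H Y) ∈ W.gr Y a := y.2.2
    exact Subtype.ext ((Φ.hardY a j haj).2.1 h2 (Submodule.zero_mem _)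
      (by show _ = (W.pull ι h) ^ j * 0; rw [mul_zero]; exact h1))
  have hfr : Module.finrank K (Φ.G a) = Module.finrank K (Φ.G (a + 2 * j)) :=
    le_antisymm (LinearMap.finrank_le_finrank_of_injective hf) (Φ.finrank_le (by omega))
  have hs := (LinearMap.injective_iff_surjective_of_finrank_eq_finrank hfr).1 hf
  obtain ⟨y, hy⟩ := hs ⟨x, hx⟩
  exact ⟨y, y.2, congrArg Subtype.val hy⟩

/-- primitive decomposition in the image of the restriction -/
theorem prim_G {a j : ℕ} (haj : a + j = W.dim Y) {x : W.H Y} (hx : x ∈ Φ.G a) :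
    ∃ x' ∈ Φ.G a, (W.pull ι h) ^ (j + 1) * x' = 0 ∧
      ((x = x' ∧ a < 2) ∨ ∃ a', a = a' + 2 ∧ ∃ y ∈ Φ.G a', x = x' + W.pull ι h * y ∧
        (W.pull ι h) ^ (j + 2) * y = (W.pull ι h) ^ (j + 1) * x) := by
  have hx2 : x ∈ W.gr Y a := hx.2
  by_cases h2 : a < 2
  · refine ⟨x, hx, ?_, Or.inl ⟨rfl, h2⟩⟩
    exact W.gr_top (W.pow_gr Φ.hY_gr (j + 1) hx2) (by omega)
  · obtain ⟨a', rfl⟩ : ∃ a', a = a' + 2 := ⟨a - 2, by omega⟩
    have h3 : (W.pull ι h) ^ (j + 1) * x ∈ Φ.G (a' + 2 * (j + 2)) := by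
      obtain ⟨w, hw, rfl⟩ := Φ.mem_G.1 hx
      rw [Φ.mem_G]
      refine ⟨h ^ (j + 1) * w, ?_, Φ.pull_pow _ _⟩
      have h4 := W.pow_gr Φ.h_gr (j + 1) hw
      have e : a' + 2 + 2 * (j + 1) = a' + 2 * (j + 2) := by ring
      rwa [e] at h4
    obtain ⟨y, hy, hyx⟩ := Φ.surj_G (a := a') (j := j + 2) (by omega) h3
    have hhy : W.pull ι h * y ∈ Φ.G (a' + 2) := by
      obtain ⟨w, hw, rfl⟩ := Φ.mem_G.1 hy
      rw [Φ.mem_G]
      refine ⟨h * w, ?_, map_mul _ _ _⟩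
      have h4 := W.pow_gr Φ.h_gr 1 hw
      rwa [pow_one, mul_one] at h4
    refine ⟨x - W.pull ι h * y, Submodule.sub_mem _ hx hhy, ?_, Or.inr ⟨a', rfl, y, hy, ?_, hyx⟩⟩
    · rw [mul_sub, ← mul_assoc, ← pow_succ, hyx, sub_self]
    · rw [sub_add_cancel]

/-- **The key step.** The operator `ι^* θ h^j ι_*` maps the space of primitive classes in the image
of the restriction onto itself. -/
theorem key {a j : ℕ} (haj : a + j = W.dim Y) {θ : W.H X →ₗ[K] W.H X}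
    (hθ : ∀ u ∈ W.gr X a, θ (h ^ (j + 1) * u) = u) {x : W.H Y} (hx : x ∈ Φ.G a)
    (hp : (W.pull ι h) ^ (j + 1) * x = 0) :
    ∃ x' ∈ Φ.G a, (W.pull ι h) ^ (j + 1) * x' = 0 ∧
      W.pull ι (θ (h ^ j * W.push ι x')) = x := by
  obtain ⟨u1, hu1, hu1x⟩ := Φ.mem_G.1 hx
  have hη := Φ.eta_gr
  have h1 : W.push ι 1 * (h ^ (j + 1) * u1) = 0 := by
    rw [← Φ.pull_eq_zero, Φ.pull_pow, hu1x, hp]
  obtain ⟨y, hy, g, hy0, hv⟩ := Φ.rhl a (j + 1) (by rw [Φ.dim]; omega) _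
    (W.pow_gr Φ.h_gr (j + 1) hu1) h1
  -- the component of `g` of the right degree
  set g1 := W.pi X (a + 2 * j) g with hg1
  have hg1m : g1 ∈ W.gr X (a + 2 * j) := W.pi_mem _ _
  have hv1 : W.push ι 1 * g1 = h ^ (j + 1) * (u1 - y) := by
    have h2 : W.push ι 1 * g = h ^ (j + 1) * (u1 - y) := by
      rw [mul_sub, hv]
      abel
    have h3 : h ^ (j + 1) * (u1 - y) ∈ W.gr X (2 * 1 + (a + 2 * j)) := by
      have h4 := W.pow_gr Φ.h_gr (j + 1) (Submodule.sub_mem _ hu1 hy)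
      have e : a + 2 * (j + 1) = 2 * 1 + (a + 2 * j) := by ring
      rwa [e] at h4
    rw [hg1, ← pi_mul W hη, h2, W.pi_same h3]
  -- hard Lefschetz for the image
  obtain ⟨x1, hx1, hx1g⟩ := Φ.surj_G haj (Φ.mem_G.2 ⟨g1, hg1m, rfl⟩)
  obtain ⟨u1', hu1', hu1'x⟩ := Φ.mem_G.1 hx1
  have h5 : W.push ι 1 * g1 = W.push ι 1 * (h ^ j * u1') := by
    rw [← sub_eq_zero, ← mul_sub, ← Φ.pull_eq_zero, map_sub, Φ.pull_pow, hu1'x, hx1g, sub_self]
  have hyι : W.pull ι y = 0 := Φ.ker y hy0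
  have hηη : ∀ z, W.pull ι (W.push ι 1 * z) = 0 := by
    intro z
    rw [Φ.pull_eq_zero, ← mul_assoc, Φ.sq, zero_mul]
  have hηh : ∀ (i : ℕ) z, W.push ι 1 * (h ^ i * z) = h ^ i * (W.push ι 1 * z) := by
    intro i z
    rw [← mul_assoc, even_comm W hη, mul_assoc]
  -- it is enough to find `u'` and `u`
  have final : ∀ (x' : W.H Y) (u u' : W.H X), u ∈ W.gr X a → W.pull ι u = x →
      W.pull ι u' = x' → h ^ (j + 1) * u = h ^ j * (W.push ι 1 * u') →
      W.pull ι (θ (h ^ j * W.push ι x')) = x := by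
    intro x' u u' hu hux hu' he
    rw [← hu', W.push_pull, ← he, hθ u hu, hux]
  obtain ⟨x', hx', hx'0, hdec⟩ := Φ.prim_G haj hx1
  refine ⟨x', hx', hx'0, ?_⟩
  rcases hdec with ⟨hdec, -⟩ | ⟨a', rfl, z, hz, hdec, -⟩
  · refine final x' (u1 - y) u1' (Submodule.sub_mem _ hu1 hy) ?_ (hu1'x.trans hdec) ?_
    · rw [map_sub, hyι, sub_zero, hu1x]
    · rw [← hv1, h5, hηh]
  · obtain ⟨g', hg', hg'z⟩ := Φ.mem_G.1 hz
    refine final x' (u1 - y - W.push ι 1 * g') (u1' - h * g')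
      (Submodule.sub_mem _ (Submodule.sub_mem _ hu1 hy) ?_) ?_ ?_ ?_
    · have h6 := SetLike.mul_mem_graded hη hg'
      have e : 2 * 1 + a' = a' + 2 := by ring
      rwa [e] at h6
    · rw [map_sub, map_sub, hyι, sub_zero, hηη, sub_zero, hu1x]
    · rw [map_sub, map_mul, hg'z, hu1'x, hdec, add_sub_cancel_right]
    · rw [mul_sub, ← hv1, h5, hηh, mul_sub (W.push ι 1), mul_sub, ← hηh (j + 1) g', pow_succ,
        mul_assoc (h ^ j) h g', hηh j (h * g')]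

end Fib

end Pool.Agent.Lib.MP_4ca46c_ag.Vtc
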