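import Mathlib
import Pool.Agent.Lib.MP_4ca46c_ag.Sign.Rat

/-!
# The inverse of an operator with rational traces is a rational polynomial in the operator
-/

namespace Pool.Agent.Lib.MP_4ca46c_ag.Vtc

open Module Polynomial
open Pool.Agent.Lib.MP_4ca46c_ag.Sign

section

variable {K P : Type} [Field K] [CharZero K] [AddCommGroup P] [Module K P]
  [FiniteDimensional K P]

/-- The inverse of an injective operator is a polynomial in the operator. -/
theorem ratinv_cayley (r : Module.End K P) (hr : ∀ x, r x = 0 → x = 0) :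
    ∃ g : K[X], r * aeval r g = 1 := by
  obtain ⟨q, hq1, hq2⟩ := Polynomial.exists_eq_pow_rootMultiplicity_mul_and_not_dvd
    (minpoly K r) (minpoly.ne_zero (Algebra.IsIntegral.isIntegral r)) 0
  rw [C_0, sub_zero] at hq1 hq2
  set m := (minpoly K r).rootMultiplicity 0
  have hinj : ∀ (m : ℕ) (f : Module.End K P), r ^ m * f = 0 → f = 0 := by
    intro m f h
    induction m with
    | zero => simpa using h
    | succ m ih =>
      apply ih
      ext x
      apply hr
      have := LinearMap.congr_fun h x
      rw [pow_succ'] at this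
      simpa [Module.End.mul_apply] using this
  have h0 : aeval r q = 0 := by
    refine hinj m _ ?_
    have h1 := minpoly.aeval K r
    rw [hq1, map_mul, map_pow, aeval_X] at h1
    exact h1
  have hc : IsUnit (q.coeff 0) := by
    rw [isUnit_iff_ne_zero]
    intro h
    exact hq2 (X_dvd_iff.2 h)
  refine ⟨-(C (q.coeff 0)⁻¹ * q.divX), ?_⟩
  have h2 := congrArg (aeval r) (X_mul_divX_add q)
  rw [h0, map_add, map_mul, aeval_X, aeval_C] at h2
  have h3 : r * aeval r q.divX = -algebraMap K _ (q.coeff 0) := eq_neg_of_add_eq_zero_left h2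
  rw [map_neg, map_mul, aeval_C, mul_neg, ← mul_assoc, ← Algebra.commutes, mul_assoc, h3, mul_neg,
    neg_neg, ← map_mul, inv_mul_cancel₀ hc.ne_zero, map_one]

/-- The inverse of an injective operator with rational traces is a rational polynomial in the
operator. -/
theorem ratinv_core (r : Module.End K P) (hr : ∀ x, r x = 0 → x = 0)
    (ht : ∀ m : ℕ, ∃ q : ℚ, LinearMap.trace K P (r ^ (m + 1)) = q) :
    ∃ g : ℚ[X], r * aeval r (g.map (algebraMap ℚ K)) = 1 := by
  obtain ⟨φ, hφ1, hφ2⟩ := rat_phi K
  obtain ⟨gK, hg⟩ := ratinv_cayley r hr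
  -- rational traces
  have ht' : ∀ m : ℕ, ∃ q : ℚ, LinearMap.trace K P (r ^ m) = q := by
    intro m
    rcases m with _ | m
    · exact ⟨finrank K P, by rw [pow_zero, LinearMap.trace_one]; simp⟩
    · exact ht m
  choose t ht' using ht'
  set g : ℚ[X] := ∑ i ∈ gK.support, C (φ (gK.coeff i)) * X ^ i with hgdef
  set u : Module.End K P := r * aeval r (g.map (algebraMap ℚ K)) with hu
  have eK : ∀ m : ℕ, LinearMap.trace K P (r ^ m) =
      ∑ i ∈ gK.support, gK.coeff i * (t (i + 1 + m) : K) := by
    intro m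
    have h1 : r ^ m = ∑ i ∈ gK.support, gK.coeff i • r ^ (i + 1 + m) := by
      conv_lhs => rw [← one_mul (r ^ m), ← hg, aeval_eq_sum_range' (n := gK.natDegree + 1)
        (Nat.lt_succ_self _)]
      rw [Finset.mul_sum, Finset.sum_mul]
      rw [← Finset.sum_subset (s₁ := gK.support)]
      · refine Finset.sum_congr rfl fun i _ => ?_
        rw [mul_smul_comm, smul_mul_assoc, ← pow_succ', ← pow_add]
      · intro i hi
        rw [Finset.mem_range]
        exact Nat.lt_succ_of_le (le_natDegree_of_mem_supp i hi)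
      · intro i _ hi
        rw [notMem_support_iff.1 hi, zero_smul, mul_zero, zero_mul]
    rw [h1, map_sum]
    refine Finset.sum_congr rfl fun i _ => ?_
    rw [map_smul, ht', smul_eq_mul]
  have eQ : ∀ m : ℕ, LinearMap.trace K P (u * r ^ m) =
      ∑ i ∈ gK.support, ((φ (gK.coeff i) : ℚ) : K) * (t (i + 1 + m) : K) := by
    intro m
    rw [hu, hgdef, Polynomial.map_sum, map_sum, Finset.mul_sum, Finset.sum_mul, map_sum]
    refine Finset.sum_congr rfl fun i _ => ?_
    have e1 : r * aeval r (Polynomial.map (algebraMap ℚ K) (C (φ (gK.coeff i)) * X ^ i)) * r ^ m =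
        ((φ (gK.coeff i) : ℚ) : K) • r ^ (i + 1 + m) := by
      rw [Polynomial.map_mul, Polynomial.map_pow, map_C, map_X, map_mul (aeval r),
        map_pow (aeval r), aeval_X, aeval_C, ← Algebra.smul_def, mul_smul_comm, smul_mul_assoc,
        ← pow_succ', ← pow_add]
      rfl
    rw [e1, map_smul, ht', smul_eq_mul]
  have key2 : ∀ m : ℕ, LinearMap.trace K P ((1 - u) * r ^ m) = 0 := by
    intro m
    rw [sub_mul, one_mul, map_sub, sub_eq_zero, eQ, ht' m]
    have h1 := congrArg φ ((ht' m).symm.trans (eK m))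
    rw [hφ1, map_sum] at h1
    rw [h1]
    push_cast
    refine Finset.sum_congr rfl fun i _ => ?_
    rw [hφ2]
    push_cast
    rfl
  have key3 : ∀ f : K[X], LinearMap.trace K P ((1 - u) * aeval r f) = 0 := by
    intro f
    induction f using Polynomial.induction_on' with
    | add p q hp hq => rw [map_add, mul_add, map_add, hp, hq, add_zero]
    | monomial n a =>
      rw [aeval_monomial, ← Algebra.smul_def, mul_smul_comm, map_smul, key2, smul_zero]
  have hu' : ∃ f : K[X], aeval r f = 1 - u := ⟨1 - X * g.map (algebraMap ℚ K), by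
    rw [map_sub, map_one, map_mul, aeval_X]⟩
  obtain ⟨f, hf⟩ := hu'
  have hnil : IsNilpotent (1 - u) := by
    refine isNilpotent_of_trace_pow _ fun m hm => ?_
    obtain ⟨m, rfl⟩ := Nat.exists_eq_succ_of_ne_zero hm.ne'
    have h1 : (1 - u) ^ (m.succ) = (1 - u) * aeval r (f ^ m) := by
      rw [Nat.succ_eq_add_one, pow_succ', map_pow, hf]
    rw [h1]
    exact key3 _
  obtain ⟨M, hM⟩ := hnil
  refine ⟨g * ∑ k ∈ Finset.range M, (1 - X * g) ^ k, ?_⟩
  have h1 : aeval r ((∑ k ∈ Finset.range M, (1 - X * g) ^ k : ℚ[X]).map (algebraMap ℚ K)) =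
      ∑ k ∈ Finset.range M, (1 - u) ^ k := by
    rw [Polynomial.map_sum, map_sum]
    refine Finset.sum_congr rfl fun k _ => ?_
    rw [Polynomial.map_pow, map_pow, Polynomial.map_sub, Polynomial.map_one, Polynomial.map_mul,
      map_X, map_sub, map_one, map_mul, aeval_X]
  rw [Polynomial.map_mul, map_mul, h1, ← mul_assoc, ← hu]
  have h2 := mul_neg_geom_sum (1 - u) M
  rw [hM, sub_zero, sub_sub_cancel] at h2
  exact h2

end

/-- Let `R` be an operator on `V` with image in `P`, injective on `P`, such that the traces of all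
its powers are rational. Then `R` has an inverse on `P` which is a rational polynomial in `R`. -/
theorem ratInv {K V : Type} [Field K] [CharZero K] [AddCommGroup V] [Module K V]
    [FiniteDimensional K V] (R : Module.End K V) (P : Submodule K V) (h1 : ∀ x, R x ∈ P)
    (h2 : ∀ x ∈ P, R x = 0 → x = 0)
    (h3 : ∀ m : ℕ, ∃ q : ℚ, LinearMap.trace K V (R ^ (m + 1)) = q) :
    ∃ g : ℚ[X], ∀ x ∈ P, R (aeval R (g.map (algebraMap ℚ K)) x) = x := by
  have h1' : ∀ x ∈ P, R x ∈ P := fun x _ => h1 x
  have hp : ∀ m : ℕ, ∀ x ∈ P, (R ^ m) x ∈ P := by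
    intro m x hx
    induction m with
    | zero => simpa using hx
    | succ m ih => rw [pow_succ', Module.End.mul_apply]; exact h1 _
  have hres : ∀ (m : ℕ) (x : P), ((R.restrict h1') ^ m) x = (R ^ m) x := by
    intro m
    induction m with
    | zero => intro x; simp
    | succ m ih =>
      intro x
      rw [pow_succ', pow_succ', Module.End.mul_apply, Module.End.mul_apply, ← ih]
      rfl
  obtain ⟨g, hg⟩ := ratinv_core (R.restrict h1')
    (fun x hx => Subtype.ext (h2 x x.2 (congrArg Subtype.val hx))) (fun m => by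
      obtain ⟨q, hq⟩ := h3 m
      refine ⟨q, ?_⟩
      have e1 : (R.restrict h1') ^ (m + 1) = (R ^ (m + 1)).restrict (hp (m + 1)) := by
        ext x
        exact hres (m + 1) x
      rw [e1, ← hq]
      refine LinearMap.trace_restrict_eq_of_forall_mem P (R ^ (m + 1)) (fun x => ?_) _
      rw [pow_succ', Module.End.mul_apply]
      exact h1 _)
  refine ⟨g, fun x hx => ?_⟩
  have e2 : ∀ (f : K[X]) (x : P), (aeval (R.restrict h1') f x : V) = aeval R f (x : V) := by
    intro f x
    induction f using Polynomial.induction_on' with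
    | add p q hp hq =>
      rw [map_add, map_add, LinearMap.add_apply, LinearMap.add_apply, ← hp, ← hq]
      rfl
    | monomial n a =>
      rw [aeval_monomial, aeval_monomial, ← Algebra.smul_def, ← Algebra.smul_def,
        LinearMap.smul_apply, LinearMap.smul_apply, ← hres]
      rfl
  have h4 := congrArg Subtype.val (LinearMap.congr_fun hg ⟨x, hx⟩)
  rw [← e2 _ ⟨x, hx⟩]
  exact h4

end Pool.Agent.Lib.MP_4ca46c_ag.Vtc
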