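import Mathlib
import Pool.Agent.Lib.MP_4ca46c_ag.Vtc.Core1
import Pool.Agent.Lib.MP_4ca46c_ag.Vtc.RatInv

/-!
# The operator `ι^* θ h^j ι_*` on the cohomology of a fibre
-/

namespace Pool.Agent.Lib.MP_4ca46c_ag.Vtc

open CategoryTheory MonoidalCategory CartesianMonoidalCategory Polynomial
open Pool.Agent.Lib.MP_4ca46c_ag.Geo Pool.Agent.Lib.MP_4ca46c_ag.Geo.WeilCohomology

universe v u

variable {K : Type} [Field K] [CharZero K] {𝒱 : Type u} [Category.{v} 𝒱]
  [CartesianMonoidalCategory 𝒱]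

section general

variable (W : WeilCohomology K 𝒱) {X Y : 𝒱}

/-- algebraic correspondences of degree `0` map algebraic classes to algebraic classes -/
theorem cor_alg {f : W.H Y →ₗ[K] W.H X} (hf : f ∈ W.Cor X Y 0) {c : ℕ} {y : W.H Y}
    (hy : y ∈ W.Alg Y c) : f y ∈ W.Alg X c := by
  obtain ⟨u, hu, rfl⟩ := W.mem_cor_zero.1 hf
  refine W.push_alg _ (W.alg_mul hu (W.alg_pull _ hy)) ?_
  rw [W.dim_tensor]
  ring

/-- rational polynomials in an algebraic correspondence of degree `0` -/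
theorem cor_aeval {f : Module.End K (W.H Y)} (hf : f ∈ W.Cor Y Y 0) (q : ℚ[X]) :
    (aeval f (q.map (algebraMap ℚ K)) : Module.End K (W.H Y)) ∈ W.Cor Y Y 0 := by
  have hpow : ∀ m : ℕ, (f ^ m : Module.End K (W.H Y)) ∈ W.Cor Y Y 0 := by
    intro m
    induction m with
    | zero => exact W.cor_id Y
    | succ m ih =>
      have h1 := W.cor_comp ih hf
      rw [add_zero] at h1
      rw [pow_succ]
      exact h1
  induction q using Polynomial.induction_on' with
  | add p q hp hq =>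
    rw [Polynomial.map_add, map_add]
    exact AddSubgroup.add_mem _ hp hq
  | monomial n a =>
    rw [Polynomial.map_monomial, aeval_monomial, ← Algebra.smul_def]
    exact W.cor_rat (hpow n) a

/-- the trace of an algebraic correspondence of degree `0` which is supported in one degree -/
theorem trace_rat {f : Module.End K (W.H Y)} (hf : f ∈ W.Cor Y Y 0) {a : ℕ}
    (ha : ∀ (b : ℕ), b ≠ a → ∀ x ∈ W.gr Y b, f x = 0) :
    ∃ q : ℚ, LinearMap.trace K (W.H Y) f = q := by
  obtain ⟨q, hq⟩ := W.trace_eps_rat hf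
  refine ⟨(-1) ^ a * q, ?_⟩
  have h1 : f ∘ₗ W.eps Y = ((-1 : K) ^ a) • f := by
    refine W.hom_ext fun b x hx => ?_
    rw [LinearMap.comp_apply, W.eps_gr hx, map_smul, LinearMap.smul_apply]
    by_cases hb : b = a
    · rw [hb]
    · rw [ha b hb x hx, smul_zero, smul_zero]
  rw [h1, map_smul, smul_eq_mul] at hq
  push_cast
  rw [← hq, ← mul_assoc, ← mul_pow]
  norm_num

theorem pow_cor {h : W.H X} (hh : h ∈ W.Alg X 1) (j : ℕ) :
    LinearMap.mulLeft K (h ^ j) ∈ W.Cor X X j := by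
  have h1 : h ^ j ∈ W.Alg X j := by
    induction j with
    | zero => rw [pow_zero]; exact W.alg_one X
    | succ j ih => rw [pow_succ]; exact W.alg_mul ih hh
  exact W.cor_mul h1

end general

/-- `z` is orthogonal to the image of the restriction. -/
def Perp (W : WeilCohomology K 𝒱) {X Y : 𝒱} (ι : Y ⟶ X) (z : W.H Y) : Prop :=
  ∀ w, W.tr Y (z * W.pull ι w) = 0

namespace Fib

variable {W : WeilCohomology K 𝒱} {X Y : 𝒱} {ι : Y ⟶ X} {h : W.H X} (Φ : Fib W ι h)

omit [CharZero K] in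
/-- the orthogonal complement of the image of the restriction is the kernel of `ι_*` -/
theorem _root_.Pool.Agent.Lib.MP_4ca46c_ag.Vtc.Perp.push {K : Type} [Field K] [CharZero K]
    {𝒱 : Type u} [Category.{v} 𝒱] [CartesianMonoidalCategory 𝒱] {W : WeilCohomology K 𝒱}
    {X Y : 𝒱} {ι : Y ⟶ X} {z : W.H Y} (hz : Perp W ι z) : W.push ι z = 0 := by
  refine W.duality _ fun w => ?_
  rw [W.push_spec, hz]

include Φ

/-- the image of `ι_*` is the image of the restriction of `ι_*` to the image of `ι^*` -/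
theorem exists_G {a : ℕ} (ha : a ≤ 2 * W.dim Y) {x : W.H Y} (hx : x ∈ W.gr Y a) :
    ∃ g ∈ Φ.G a, W.push ι x = W.push ι g := by
  obtain ⟨b, hb⟩ : ∃ b, a + b = 2 * W.dim Y := ⟨2 * W.dim Y - a, by omega⟩
  let B : Φ.G a →ₗ[K] Module.Dual K (Φ.G b) :=
    (((LinearMap.mul K (W.H Y)).compr₂ (W.tr Y)).compl₁₂ (Φ.G a).subtype (Φ.G b).subtype)
  have hB : ∀ (x : Φ.G a) (y : Φ.G b), B x y = W.tr Y (x * y) := fun _ _ => rfl
  have hinj : Function.Injective B := by
    rw [injective_iff_map_eq_zero]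
    intro x hx
    obtain ⟨w, hw, hwx⟩ := Φ.mem_G.1 x.2
    apply Subtype.ext
    change (x : W.H Y) = 0
    rw [← hwx, Φ.pull_eq_zero]
    refine W.duality _ fun w' => ?_
    refine W.ind (P := fun w' => W.tr X (W.push ι 1 * w * w') = 0) w' (by simp)
      (fun j w' hw' => ?_) (fun r s hr hs => by simp only [mul_add, map_add, hr, hs, add_zero])
    by_cases hj : j = b
    · subst hj
      have h1 := hB x ⟨W.pull ι w', Φ.mem_G.2 ⟨w', hw', rfl⟩⟩
      rw [hx] at h1
      rw [← Φ.tr_pull, hwx]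
      exact h1.symm
    · refine W.tr_gr (SetLike.mul_mem_graded (SetLike.mul_mem_graded Φ.eta_gr hw) hw') ?_
      rw [Φ.dim]
      omega
  have hfr : Module.finrank K (Φ.G a) = Module.finrank K (Module.Dual K (Φ.G b)) := by
    rw [Subspace.dual_finrank_eq]
    exact le_antisymm (Φ.finrank_le (by omega)) (Φ.finrank_le (by omega))
  obtain ⟨g, hg⟩ := (LinearMap.injective_iff_surjective_of_finrank_eq_finrank hfr).1 hinj
    (((LinearMap.mul K (W.H Y)).compr₂ (W.tr Y) x).comp (Φ.G b).subtype)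
  refine ⟨g, g.2, ?_⟩
  rw [← sub_eq_zero, ← map_sub]
  refine Perp.push fun w => ?_
  refine W.ind (P := fun w => W.tr Y ((x - g) * W.pull ι w) = 0) w (by simp)
    (fun j w hw => ?_) (fun r s hr hs => by simp only [mul_add, map_add, hr, hs, add_zero])
  by_cases hj : j = b
  · subst hj
    have h1 := LinearMap.congr_fun hg ⟨W.pull ι w, Φ.mem_G.2 ⟨w, hw, rfl⟩⟩
    have h2 : W.tr Y (g * W.pull ι w) = W.tr Y (x * W.pull ι w) := h1
    rw [sub_mul, map_sub, h2, sub_self]
  · exact W.tr_gr (SetLike.mul_mem_graded (Submodule.sub_mem _ hx g.2.2) (W.pull_gr ι hw))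
      (by omega)

/-- the space of primitive classes in the image of the restriction -/
def P (c j : ℕ) : Submodule K (W.H Y) :=
  Φ.G c ⊓ LinearMap.ker (LinearMap.mulLeft K ((W.pull ι h) ^ (j + 1)))

end Fib

end Pool.Agent.Lib.MP_4ca46c_ag.Vtc
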