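import Mathlib
import Pool.Agent.Lib.MP_4ca46c_ag.Vtc.Core2

/-!
# The algebraic splitting of the restriction to a fibre
-/

namespace Pool.Agent.Lib.MP_4ca46c_ag.Vtc

open CategoryTheory MonoidalCategory CartesianMonoidalCategory Polynomial
open Pool.Agent.Lib.MP_4ca46c_ag.Geo Pool.Agent.Lib.MP_4ca46c_ag.Geo.WeilCohomology

universe v u

variable {K : Type} [Field K] [CharZero K] {𝒱 : Type u} [Category.{v} 𝒱]
  [CartesianMonoidalCategory 𝒱]

namespace Fib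

variable {W : WeilCohomology K 𝒱} {X Y : 𝒱} {ι : Y ⟶ X} {h : W.H X} (Φ : Fib W ι h)

include Φ

theorem mem_P {c j : ℕ} {x : W.H Y} :
    x ∈ Φ.P c j ↔ x ∈ Φ.G c ∧ (W.pull ι h) ^ (j + 1) * x = 0 := Iff.rfl

theorem hηη (z : W.H X) : W.pull ι (W.push ι 1 * z) = 0 := by
  rw [Φ.pull_eq_zero, ← mul_assoc, Φ.sq, zero_mul]

theorem hηh (i : ℕ) (z : W.H X) : W.push ι 1 * (h ^ i * z) = h ^ i * (W.push ι 1 * z) := by
  rw [← mul_assoc, even_comm W Φ.eta_gr, mul_assoc]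

/-- the operator of degree `0` attached to `θ` -/
theorem exists_T (hX : W.Lefschetz X h) {c j : ℕ} (hcj : c + j = W.dim Y) :
    ∃ θ ∈ W.Cor X X (-((j + 1 : ℕ) : ℤ)), (∀ x, θ x ∈ W.gr X c) ∧
      (∀ u ∈ W.gr X c, θ (h ^ (j + 1) * u) = u) ∧
      (∀ b, b ≠ c + 2 * (j + 1) → ∀ x ∈ W.gr X b, θ x = 0) ∧
      ∃ Q ∈ W.Cor Y Y 0, (∀ x ∈ Φ.P c j, Q x ∈ Φ.P c j) ∧
        (∀ x ∈ Φ.P c j, W.pull ι (θ (h ^ j * W.push ι (Q x))) = x) ∧
        ∀ x ∈ Φ.P c j, Q (W.pull ι (θ (h ^ j * W.push ι x))) = x := by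
  obtain ⟨θ₀, hθ₀, hθ₀1⟩ := W.lefschetz_iff.1 hX c (j + 1) (by rw [Φ.dim]; omega)
  have hC := W.kunneth_iff.1 (Lefschetz.kunneth Φ.alg Φ.hardX hX)
  have hθ : W.pi X c ∘ₗ θ₀ ∈ W.Cor X X (-((j + 1 : ℕ) : ℤ)) := by
    have h1 := W.cor_comp (hC c) hθ₀
    rwa [zero_add] at h1
  have hθ1 : ∀ u ∈ W.gr X c, (W.pi X c ∘ₗ θ₀) (h ^ (j + 1) * u) = u := by
    intro u hu
    rw [LinearMap.comp_apply, hθ₀1 u hu, W.pi_same hu]
  have hθ2 : ∀ x, (W.pi X c ∘ₗ θ₀) x ∈ W.gr X c := fun x => W.pi_mem c _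
  have hθ3 : ∀ b, b ≠ c + 2 * (j + 1) → ∀ x ∈ W.gr X b, (W.pi X c ∘ₗ θ₀) x = 0 := by
    intro b hb x hx
    rw [LinearMap.comp_apply]
    by_cases h1 : b < 2 * (j + 1)
    · rw [W.cor_gr_zero hθ₀ hx (by push_cast; omega), map_zero]
    · have h2 := W.cor_gr hθ₀ hx (m := b - 2 * (j + 1)) (by push_cast; omega)
      exact W.pi_ne h2 (by omega)
  set θ := W.pi X c ∘ₗ θ₀ with hθdef
  refine ⟨θ, hθ, hθ2, hθ1, hθ3, ?_⟩
  -- the operators `H(Y) ⟶ H(X)` and `H(Y) ⟶ H(Y)`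
  set T1 : W.H Y →ₗ[K] W.H X := θ ∘ₗ LinearMap.mulLeft K (h ^ j) ∘ₗ W.push ι with hT1
  have hT1c : T1 ∈ W.Cor X Y 0 := by
    have h1 := W.cor_comp hθ (W.cor_comp (pow_cor W Φ.alg j) (W.cor_push ι))
    have e : -((j + 1 : ℕ) : ℤ) + ((j : ℤ) + ((W.dim X : ℤ) - W.dim Y)) = 0 := by
      rw [Φ.dim]
      push_cast
      ring
    rwa [e] at h1
  set T : Module.End K (W.H Y) := (W.pull ι).toLinearMap ∘ₗ T1 with hT
  have hTc : T ∈ W.Cor Y Y 0 := by
    have h1 := W.cor_comp (W.cor_pull ι) hT1c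
    rwa [add_zero] at h1
  have hTapp : ∀ x, T x = W.pull ι (θ (h ^ j * W.push ι x)) := fun _ => rfl
  have hT0 : ∀ b, b ≠ c → ∀ x ∈ W.gr Y b, T x = 0 := by
    intro b hb x hx
    have h1 := W.cor_gr hT1c hx (m := b) (by ring)
    have h2 : T1 x ∈ W.gr X c := hθ2 _
    have h3 : T1 x = 0 := by rw [← W.pi_same h2, W.pi_ne h1 hb]
    change W.pull ι (T1 x) = 0
    rw [h3, map_zero]
  -- `T` kills the multiples of `h` in the image of the restriction
  have hT2 : ∀ c', c = c' + 2 → ∀ y ∈ Φ.G c', T (W.pull ι h * y) = 0 := by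
    intro c' hc y hy
    obtain ⟨w, hw, hwy⟩ := Φ.mem_G.1 hy
    rw [hTapp, ← hwy, ← map_mul, W.push_pull]
    have e : h ^ j * (W.push ι 1 * (h * w)) = h ^ (j + 1) * (W.push ι 1 * w) := by
      have h1 := Φ.hηh 1 w
      rw [pow_one] at h1
      rw [h1, ← mul_assoc, ← pow_succ]
    rw [e, hθ1, Φ.hηη]
    have h1 := SetLike.mul_mem_graded Φ.eta_gr hw
    rwa [hc, show c' + 2 = 2 * 1 + c' by ring]
  have hkey : ∀ x ∈ Φ.P c j, ∃ x' ∈ Φ.P c j, T x' = x := by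
    intro x hx
    obtain ⟨x', hx', hx'0, he⟩ := Φ.key hcj hθ1 (Φ.mem_P.1 hx).1 (Φ.mem_P.1 hx).2
    exact ⟨x', Φ.mem_P.2 ⟨hx', hx'0⟩, he⟩
  -- `T` preserves the space of primitive classes
  have hmap : (Φ.P c j).map T = Φ.P c j := by
    refine (Submodule.eq_of_le_of_finrank_le (fun x hx => ?_)
      (Submodule.finrank_map_le _ _)).symm
    obtain ⟨x', hx', he⟩ := hkey x hx
    exact ⟨x', hx', he⟩
  have hTP : ∀ x ∈ Φ.P c j, T x ∈ Φ.P c j := fun x hx => by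
    rw [← hmap]
    exact ⟨x, hx, rfl⟩
  have hTG : ∀ x ∈ Φ.G c, T x ∈ Φ.P c j := by
    intro x hx
    obtain ⟨x', hx', hx'0, hd⟩ := Φ.prim_G hcj hx
    rcases hd with ⟨hd, -⟩ | ⟨c', hc', y, hy, hd, -⟩
    · rw [hd]
      exact hTP _ (Φ.mem_P.2 ⟨hx', hx'0⟩)
    · rw [hd, map_add, hT2 c' hc' y hy, add_zero]
      exact hTP _ (Φ.mem_P.2 ⟨hx', hx'0⟩)
  have hTall : ∀ x, T x ∈ Φ.P c j := by
    intro x
    refine W.ind (P := fun x => T x ∈ Φ.P c j) x (by rw [map_zero]; exact Submodule.zero_mem _)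
      (fun b x hx => ?_) (fun r s hr hs => by rw [map_add]; exact Submodule.add_mem _ hr hs)
    by_cases hb : b = c
    · subst hb
      obtain ⟨g, hg, hgx⟩ := Φ.exists_G (by omega) hx
      rw [hTapp, hgx]
      exact hTG g hg
    · rw [hT0 b hb x hx]
      exact Submodule.zero_mem _
  let TP : Φ.P c j →ₗ[K] Φ.P c j := T.restrict fun x hx => hTP x hx
  have hsurj : Function.Surjective TP := by
    intro x
    obtain ⟨x', hx', he⟩ := hkey x x.2
    exact ⟨⟨x', hx'⟩, Subtype.ext he⟩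
  have hinj : Function.Injective TP := LinearMap.injective_iff_surjective.2 hsurj
  have hinj0 : ∀ x ∈ Φ.P c j, T x = 0 → x = 0 := by
    intro x hx h0
    have h1 : TP ⟨x, hx⟩ = TP 0 := Subtype.ext (by rw [map_zero]; exact h0)
    exact congrArg Subtype.val (hinj h1)
  have hTpow : ∀ m : ℕ, (T ^ (m + 1) : Module.End K (W.H Y)) ∈ W.Cor Y Y 0 := by
    intro m
    induction m with
    | zero => rw [zero_add, pow_one]; exact hTc
    | succ m ih =>
      have h1 := W.cor_comp ih hTc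
      rw [add_zero] at h1
      rw [pow_succ]
      exact h1
  obtain ⟨q, hq⟩ := ratInv T (Φ.P c j) hTall hinj0 fun m => trace_rat W (hTpow m) (a := c)
    fun b hb x hx => by rw [pow_succ, Module.End.mul_apply, hT0 b hb x hx, map_zero]
  have hcomm : T * aeval T (q.map (algebraMap ℚ K)) = aeval T (q.map (algebraMap ℚ K)) * T := by
    have h1 := congrArg (aeval T) (mul_comm (Polynomial.X (R := K)) (q.map (algebraMap ℚ K)))
    rwa [map_mul, map_mul, aeval_X] at h1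
  have hQP : ∀ x ∈ Φ.P c j, aeval T (q.map (algebraMap ℚ K)) x ∈ Φ.P c j := by
    have hpow : ∀ (m : ℕ), ∀ x ∈ Φ.P c j, (T ^ m) x ∈ Φ.P c j := by
      intro m x hx
      rcases m with _ | m
      · rwa [pow_zero, Module.End.one_apply]
      · rw [pow_succ', Module.End.mul_apply]
        exact hTall _
    intro x hx
    rw [aeval_eq_sum_range, LinearMap.sum_apply]
    exact Submodule.sum_mem _ fun i _ => Submodule.smul_mem _ _ (hpow i x hx)
  refine ⟨aeval T (q.map (algebraMap ℚ K)), cor_aeval W hTc q, hQP, hq, fun x hx => ?_⟩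
  have h1 := LinearMap.congr_fun hcomm x
  rw [Module.End.mul_apply, Module.End.mul_apply, hq x hx] at h1
  exact h1.symm

/-- **The splitting, for one primitive part.** -/
theorem exists_S (hX : W.Lefschetz X h) {c j m : ℕ} (hcj : c + j = W.dim Y) (hm : m ≤ j) :
    ∃ S ∈ W.Cor X Y 0, (∀ z, W.push ι z = 0 → S z = 0) ∧
      (∀ z ∈ Φ.P c j, W.pull ι (S ((W.pull ι h) ^ m * z)) = (W.pull ι h) ^ m * z) ∧
      ∀ c' j' m', c' + j' = W.dim Y → m' ≤ j' → (c' ≠ c ∨ m' ≠ m) → ∀ z ∈ Φ.P c' j',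
        S ((W.pull ι h) ^ m' * z) = 0 := by
  obtain ⟨θ, hθ, hθ2, hθ1, hθ3, Q, hQ, hQP, hQ1, hQ2⟩ := Φ.exists_T hX hcj
  set T1 : W.H Y →ₗ[K] W.H X := θ ∘ₗ LinearMap.mulLeft K (h ^ j) ∘ₗ W.push ι with hT1
  have hT1c : T1 ∈ W.Cor X Y 0 := by
    have h1 := W.cor_comp hθ (W.cor_comp (pow_cor W Φ.alg j) (W.cor_push ι))
    have e : -((j + 1 : ℕ) : ℤ) + ((j : ℤ) + ((W.dim X : ℤ) - W.dim Y)) = 0 := by
      rw [Φ.dim]
      push_cast
      ring
    rwa [e] at h1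
  set E : W.H Y →ₗ[K] W.H X := θ ∘ₗ LinearMap.mulLeft K (h ^ (j - m)) ∘ₗ W.push ι with hE
  have hEc : E ∈ W.Cor X Y (-(m : ℤ)) := by
    have h1 := W.cor_comp hθ (W.cor_comp (pow_cor W Φ.alg (j - m)) (W.cor_push ι))
    have e : -((j + 1 : ℕ) : ℤ) + (((j - m : ℕ) : ℤ) + ((W.dim X : ℤ) - W.dim Y)) =
        -(m : ℤ) := by
      rw [Φ.dim]
      push_cast [Nat.cast_sub hm]
      ring
    rwa [e] at h1
  have hEapp : ∀ x, E x = θ (h ^ (j - m) * W.push ι x) := fun _ => rfl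
  have hEpull : ∀ u, E (W.pull ι u) = θ (h ^ (j - m) * (W.push ι 1 * u)) := fun u => by
    rw [hEapp, W.push_pull]
  refine ⟨LinearMap.mulLeft K (h ^ m) ∘ₗ T1 ∘ₗ Q ∘ₗ Q ∘ₗ (W.pull ι).toLinearMap ∘ₗ E, ?_,
    fun z hz => ?_, fun z hz => ?_, ?_⟩
  · have h1 := W.cor_comp (pow_cor W Φ.alg m) (W.cor_comp hT1c (W.cor_comp hQ
      (W.cor_comp hQ (W.cor_comp (W.cor_pull ι) hEc))))
    have e : (m : ℤ) + (0 + (0 + (0 + (0 + -(m : ℤ))))) = 0 := by ring
    rwa [e] at h1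
  · have h1 : E z = 0 := by rw [hEapp, hz, mul_zero, map_zero]
    simp only [LinearMap.comp_apply, h1, map_zero]
  · obtain ⟨hzG, hz0⟩ := Φ.mem_P.1 hz
    obtain ⟨u, hu, hux⟩ := Φ.mem_G.1 hzG
    have h1 : E ((W.pull ι h) ^ m * z) = θ (h ^ j * W.push ι z) := by
      rw [← hux, ← Φ.pull_pow, hEpull, W.push_pull, Φ.hηh, ← mul_assoc, ← pow_add,
        Nat.sub_add_cancel hm]
    change W.pull ι (h ^ m * T1 (Q (Q (W.pull ι (E ((W.pull ι h) ^ m * z)))))) = _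
    rw [h1, hQ2 z hz, Φ.pull_pow]
    change (W.pull ι h) ^ m * W.pull ι (θ (h ^ j * W.push ι (Q z))) = _
    rw [hQ1 z hz]
  · intro c' j' m' hcj' hm' hne z hz
    obtain ⟨hzG, hz0⟩ := Φ.mem_P.1 hz
    obtain ⟨u, hu, hux⟩ := Φ.mem_G.1 hzG
    have hEz : E ((W.pull ι h) ^ m' * z) =
        θ (h ^ (j - m) * (h ^ m' * (W.push ι 1 * u))) := by
      rw [← hux, ← Φ.pull_pow, hEpull, Φ.hηh]
    have h0 : W.pull ι (E ((W.pull ι h) ^ m' * z)) = 0 := by
      by_cases h1 : c' + 2 * m' = c + 2 * m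
      · rcases lt_trichotomy c' c with h2 | h2 | h2
        · -- `m < m'`
          have e : h ^ (j - m) * (h ^ m' * (W.push ι 1 * u)) =
              h ^ (j + 1) * (h ^ (m' - m - 1) * (W.push ι 1 * u)) := by
            rw [← mul_assoc (h ^ (j - m)), ← mul_assoc (h ^ (j + 1)), ← pow_add, ← pow_add]
            congr 2
            omega
          rw [hEz, e, hθ1, ← Φ.hηh, Φ.hηη]
          have h3 := SetLike.mul_mem_graded Φ.eta_gr hu
          have h4 := W.pow_gr Φ.h_gr (m' - m - 1) h3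
          rwa [show 2 * 1 + c' + 2 * (m' - m - 1) = c by omega] at h4
        · exact absurd hne (by omega)
        · -- `m' < m`
          have e : h ^ (j - m) * W.push ι ((W.pull ι h) ^ m' * z) = 0 := by
            rw [← hux, ← Φ.pull_pow, W.push_pull, Φ.hηh, ← mul_assoc, ← pow_add, ← Φ.hηh,
              ← W.push_pull, Φ.pull_pow, hux,
              show j - m + m' = (j - m + m' - (j' + 1)) + (j' + 1) by omega, pow_add, mul_assoc,
              hz0, mul_zero, map_zero]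
          rw [hEapp, e, map_zero, map_zero]
      · rw [hEz, hθ3 _ ?_ _ (W.pow_gr Φ.h_gr (j - m) (W.pow_gr Φ.h_gr m'
          (SetLike.mul_mem_graded Φ.eta_gr hu))), map_zero]
        omega
    change h ^ m * T1 (Q (Q (W.pull ι (E ((W.pull ι h) ^ m' * z))))) = 0
    rw [h0, map_zero, map_zero, map_zero, mul_zero]

/-- **The algebraic splitting.** There is an algebraic correspondence `s` of degree zero from `Y`
to `X` which is a section of the restriction `H(X) ⟶ H(Y)` on its image, and vanishes on the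
orthogonal complement of this image. -/
theorem exists_split (hX : W.Lefschetz X h) :
    ∃ s ∈ W.Cor X Y 0, (∀ w, W.pull ι (s (W.pull ι w)) = W.pull ι w) ∧
      ∀ z, Perp W ι z → s z = 0 := by
  have h1 : ∀ c m : ℕ, ∃ S : W.H Y →ₗ[K] W.H X, c + m ≤ W.dim Y →
      S ∈ W.Cor X Y 0 ∧ (∀ z, W.push ι z = 0 → S z = 0) ∧
      (∀ z ∈ Φ.P c (W.dim Y - c), W.pull ι (S ((W.pull ι h) ^ m * z)) =
        (W.pull ι h) ^ m * z) ∧
      ∀ c' j' m', c' + j' = W.dim Y → m' ≤ j' → (c' ≠ c ∨ m' ≠ m) → ∀ z ∈ Φ.P c' j',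
        S ((W.pull ι h) ^ m' * z) = 0 := by
    intro c m
    by_cases hc : c + m ≤ W.dim Y
    · obtain ⟨S, hS⟩ := Φ.exists_S hX (c := c) (j := W.dim Y - c) (m := m) (by omega) (by omega)
      exact ⟨S, fun _ => hS⟩
    · exact ⟨0, fun h => absurd h hc⟩
  choose S hS using h1
  set s : W.H Y →ₗ[K] W.H X := ∑ c ∈ Finset.range (W.dim Y + 1),
    ∑ m ∈ Finset.range (W.dim Y - c + 1), S c m with hs
  have hmem : ∀ {c m : ℕ}, c ∈ Finset.range (W.dim Y + 1) →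
      m ∈ Finset.range (W.dim Y - c + 1) → c + m ≤ W.dim Y := by
    intro c m hc hm
    rw [Finset.mem_range] at hc hm
    omega
  have hprim : ∀ c j m, c + j = W.dim Y → m ≤ j → ∀ z ∈ Φ.P c j,
      W.pull ι (s ((W.pull ι h) ^ m * z)) = (W.pull ι h) ^ m * z := by
    intro c j m hcj hm z hz
    have hc : c ∈ Finset.range (W.dim Y + 1) := Finset.mem_range.2 (by omega)
    have hm' : m ∈ Finset.range (W.dim Y - c + 1) := Finset.mem_range.2 (by omega)
    have e : s ((W.pull ι h) ^ m * z) = S c m ((W.pull ι h) ^ m * z) := by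
      rw [hs, LinearMap.sum_apply, Finset.sum_eq_single_of_mem c hc, LinearMap.sum_apply,
        Finset.sum_eq_single_of_mem m hm']
      · intro m' hm'' hne
        exact (hS c m' (hmem hc hm'')).2.2.2 c j m hcj hm (Or.inr hne.symm) z hz
      · intro c' hc' hne
        rw [LinearMap.sum_apply]
        refine Finset.sum_eq_zero fun m' hm'' => ?_
        exact (hS c' m' (hmem hc' hm'')).2.2.2 c j m hcj hm (Or.inl hne.symm) z hz
    rw [e]
    refine (hS c m (hmem hc hm')).2.2.1 z ?_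
    rwa [show W.dim Y - c = j by omega]
  -- low degrees
  have hlow : ∀ c j, c + j = W.dim Y → ∀ m ≤ j, ∀ x ∈ Φ.G c,
      W.pull ι (s ((W.pull ι h) ^ m * x)) = (W.pull ι h) ^ m * x := by
    intro c
    induction c using Nat.strong_induction_on with
    | _ c ih =>
      intro j hcj m hm x hx
      obtain ⟨x', hx', hx'0, hd⟩ := Φ.prim_G hcj hx
      rcases hd with ⟨hd, -⟩ | ⟨c', hc', y, hy, hd, -⟩
      · rw [hd]
        exact hprim c j m hcj hm _ (Φ.mem_P.2 ⟨hx', hx'0⟩)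
      · have e : (W.pull ι h) ^ m * x =
            (W.pull ι h) ^ m * x' + (W.pull ι h) ^ (m + 1) * y := by
          rw [hd, mul_add, ← mul_assoc, ← pow_succ]
        rw [e, map_add, map_add, hprim c j m hcj hm _ (Φ.mem_P.2 ⟨hx', hx'0⟩),
          ih c' (by omega) (j + 2) (by omega) (m + 1) (by omega) y hy]
  have hall : ∀ b, ∀ x ∈ Φ.G b, W.pull ι (s x) = x := by
    intro b x hx
    by_cases h1 : b ≤ W.dim Y
    · have h2 := hlow b (W.dim Y - b) (by omega) 0 (Nat.zero_le _) x hx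
      rwa [pow_zero, one_mul] at h2
    · by_cases h3 : b ≤ 2 * W.dim Y
      · obtain ⟨a, j, haj, rfl⟩ : ∃ a j, a + j = W.dim Y ∧ b = a + 2 * j :=
          ⟨2 * W.dim Y - b, b - W.dim Y, by omega, by omega⟩
        obtain ⟨y, hy, hyx⟩ := Φ.surj_G haj hx
        rw [← hyx]
        exact hlow a j haj j le_rfl y hy
      · rw [W.gr_top hx.2 (by omega), map_zero, map_zero]
  refine ⟨s, AddSubgroup.sum_mem _ fun c hc => AddSubgroup.sum_mem _ fun m hm =>
    (hS c m (hmem hc hm)).1, fun w => ?_, fun z hz => ?_⟩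
  · refine W.ind (P := fun w => W.pull ι (s (W.pull ι w)) = W.pull ι w) w (by simp)
      (fun b w hw => hall b _ (Φ.mem_G.2 ⟨w, hw, rfl⟩))
      (fun r s hr hs => by simp only [map_add, hr, hs])
  · rw [hs, LinearMap.sum_apply]
    refine Finset.sum_eq_zero fun c hc => ?_
    rw [LinearMap.sum_apply]
    exact Finset.sum_eq_zero fun m hm => (hS c m (hmem hc hm)).2.1 z hz.push

/-- **The variational Tate conjecture for a fibration** over a curve: algebraic classes in the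
image of the restriction are restrictions of algebraic classes. -/
theorem varTate (hX : W.Lefschetz X h) {c : ℕ} {w : W.H X}
    (hw : W.pull ι w ∈ W.Alg Y c) : ∃ w' ∈ W.Alg X c, W.pull ι w' = W.pull ι w := by
  obtain ⟨s, hs, hs1, -⟩ := Φ.exists_split hX
  exact ⟨s (W.pull ι w), cor_alg W hs hw, hs1 w⟩

end Fib

end Pool.Agent.Lib.MP_4ca46c_ag.Vtc
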