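import Mathlib
import Pool.Agent.Lib.MP_4ca46c_ag.Std.Bridge3
import Pool.Agent.Lib.MP_4ca46c_ag.Sign.Trans
import Pool.Agent.Lib.MP_4ca46c_ag.Vtc.Core3

/-!
# The standard conjectures for a projective variety, in terms of the Weil cohomology theory on the
category of varieties
-/

namespace Pool.Agent.Lib.MP_4ca46c_ag.Vtc

open CategoryTheory Limits AlgebraicGeometry MonoidalCategory CartesianMonoidalCategory
open Pool.Agent.Lib.MP_4ca46c_ag.Sign Pool.Agent.Lib.MP_4ca46c_ag.Hyp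
open Pool.Agent.Lib.MP_4ca46c_ag.Std Pool.Agent.Lib.MP_4ca46c_ag.Geo
open Pool.Agent.Lib.MP_4ca46c_ag.Geo.WeilCohomology

/-- `Λ` gives the inverses of the Lefschetz operators. -/
theorem lef_of_lam {K : Type} [Field K] [CharZero K] {𝒱 : Type*} [Category 𝒱]
    [CartesianMonoidalCategory 𝒱] {W : WeilCohomology K 𝒱} {X : 𝒱} {h : W.H X}
    (hh : h ∈ W.Alg X 1) (hard : Hard W X h) {Lam : W.E X} (hLam : Lam ∈ W.Cor X X (-1))
    (hI : IsLam (W.dim X) (pr W X) (LinearMap.mulLeft K h : W.E X) Lam) : W.Lefschetz X h := by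
  have hL := lefMod hh hard
  rw [W.lefschetz_iff]
  intro i j hij
  refine ⟨Lam ^ j, bc_pow_mem (pr := pr W X) (A := fun r => W.Cor X X r) ratAlg hLam j,
    fun x hx => ?_⟩
  have h1 := bc_inv tPrim hL hI i (by omega) x (mem_iff_pr.1 hx) j (by omega)
  have e : W.dim X - i = j := by omega
  rw [e, Nat.sub_self, pow_zero, Module.End.one_apply, LinearMap.pow_mulLeft] at h1
  exact h1

variable {k₀ K : Type} [Field k₀] [Field K] {D : CohData k₀ K}

/-- The variety `V` as an object of the category of varieties. -/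
noncomputable abbrev vr (V : PrVar k₀) : Var k₀ V.k := ⟨V.X, V.str, V.n, V.isVar⟩

theorem char_zero (h : D.IsTheory) (h' : IsStandard D) : CharZero K :=
  charZero_of_extra (D.weil h) (bridge_extra h h')

section

variable (h : D.IsTheory) (h' : IsStandard D) (V : PrVar k₀)

include h in
theorem h_mem : D.Codim 1 (V.h D) := V.toProj.h_mem (D.weil h) tPS tHyp

/-- The polarised variety. -/
noncomputable abbrev pl : PVar (D.weil h) :=
  pol h V.k V.toProj (h_mem h V)
    (fun j hj u hu h0 => (h'.hardLefschetz V j hj).1 u hu h0)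
    (fun j hj v hv => (h'.hardLefschetz V j hj).2 v hv)

theorem alg_iff_pl {r : ℤ} {φ : D.H V.X →ₗ[K] D.H V.X} : V.Algebraic D r φ ↔
    (pl h h' V).Algebraic r φ := by
  have hz : ∀ (X : Sch k₀) (p : ℤ) (a : D.CH X), CodimZ D p a ↔ a ∈ (D.chow h).codimZ X p := by
    intro X p a
    rw [CodimZ, ChowTheory.codimZ]
    by_cases hp : 0 ≤ p
    · rw [if_pos hp]
      exact ⟨fun h => h.elim (fun h => h.2) fun h => absurd h.1 (by omega),
        fun h => Or.inl ⟨hp, h⟩⟩
    · rw [if_neg hp]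
      exact ⟨fun h => h.elim (fun h => absurd h.1 hp) fun h => h.2,
        fun h => Or.inr ⟨by omega, h⟩⟩
  constructor
  · rintro ⟨a, ha, h2⟩
    exact ⟨a, (hz _ _ _).1 ha, h2⟩
  · rintro ⟨a, ha, h2⟩
    exact ⟨a, (hz _ _ _).2 ha, h2⟩

variable [CharZero K]

theorem h_alg : D.cls (V.h D) ∈ (weil (D.weil h) V.k).Alg (vr V) 1 := ⟨V.h D, h_mem h V, rfl⟩

include h' in
theorem hard : Hard (weil (D.weil h) V.k) (vr V) (D.cls (V.h D)) := by
  have hg : D.cls (V.h D) ∈ (weil (D.weil h) V.k).gr (vr V) 2 :=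
    (weil (D.weil h) V.k).alg_gr (h_alg h V)
  intro i j hij
  have hij' : i + j = V.n := hij
  have h1 := h'.hardLefschetz V j (by omega)
  have e1 : V.n - j = i := by omega
  have e2 : V.n + j = i + 2 * j := by omega
  rw [e1, e2] at h1
  refine ⟨fun x hx => (weil (D.weil h) V.k).pow_gr hg j hx, fun x hx y hy hxy => ?_,
    fun v hv => ?_⟩
  · have h2 : ∀ x y : D.H V.X, D.cls (V.h D) ^ j * x = D.cls (V.h D) ^ j * y →
        V.lef D j (x - y) = 0 := by
      intro x y hxy
      change D.cls (V.h D) ^ j * (x - y) = 0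
      rw [mul_sub, hxy, sub_self]
    exact sub_eq_zero.1 (h1.1 _ (Submodule.sub_mem _ hx hy) (h2 x y hxy))
  · obtain ⟨u, hu, huv⟩ := h1.2 v hv
    exact ⟨u, hu, huv⟩

include h' in
theorem alg_iff {r : ℤ} {φ : D.H V.X →ₗ[K] D.H V.X} : V.Algebraic D r φ ↔
    (φ : Module.End K (D.H V.X)) ∈ (weil (D.weil h) V.k).Cor (vr V) (vr V) r :=
  (alg_iff_pl h h' V).trans ((tTrans k₀ K (D.weil h) (pl h h' V)).1 r φ)

include h' in
theorem kun_iff : V.KunnethConj D ↔ (weil (D.weil h) V.k).Kunneth (vr V) := by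
  refine (kunnethConj_iff h V.k V.toProj (h_mem h V) _ _).trans
    (((tTrans k₀ K (D.weil h) (pl h h' V)).2.1).trans ?_)
  rw [Geo.WeilCohomology.kunneth_iff]
  constructor
  · intro H i
    have h2 := H (i : ℤ)
    rw [PVar.proj, if_pos (Int.natCast_nonneg i), Int.toNat_natCast] at h2
    exact h2
  · intro H i
    rw [PVar.proj]
    split_ifs with hi
    · exact H _
    · exact AddSubgroup.zero_mem _

include h' in
theorem lef_iff : V.LefschetzConj D ↔
    (weil (D.weil h) V.k).Lefschetz (vr V) (D.cls (V.h D)) := by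
  refine (lefschetzConj_iff h V.k V.toProj (h_mem h V) _ _).trans
    (((tTrans k₀ K (D.weil h) (pl h h' V)).2.2.2.2).trans ?_)
  have hh := h_alg h V
  have hL := lefMod hh (hard h h' V)
  constructor
  · rintro ⟨Lam, hLam, hI⟩
    exact lef_of_lam hh (hard h h' V) hLam hI
  · intro H
    obtain ⟨Lam, h1, h2⟩ := exists_lambda hh (hard h h' V) (Lefschetz.kunneth hh (hard h h' V) H) H
    exact ⟨Lam, h1, h2⟩

end

end Pool.Agent.Lib.MP_4ca46c_ag.Vtc
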