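import Mathlib
import Pool.Agent.Lib.MP_4ca46c_ag.Vtc.Weil
import Pool.Agent.Lib.MP_4ca46c_ag.Vtc.St

/-!
# The variational Tate conjecture for a fibration, from the Lefschetz standard conjecture
-/

namespace Pool.Agent.Lib.MP_4ca46c_ag.Vtc

open CategoryTheory Limits AlgebraicGeometry MonoidalCategory CartesianMonoidalCategory
open Pool.Agent.Lib.MP_4ca46c_ag.Sign Pool.Agent.Lib.MP_4ca46c_ag.Hyp
open Pool.Agent.Lib.MP_4ca46c_ag.Std Pool.Agent.Lib.MP_4ca46c_ag.Geo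
open Pool.Agent.Lib.MP_4ca46c_ag.Geo.WeilCohomology

variable {k₀ K : Type} [Field k₀] [Field K] {D : CohData k₀ K}

theorem isVar_PSo (k₀ k : Type) [Field k₀] [Field k] [Algebra k₀ k] [IsAlgClosed k] (κ : Type)
    [Fintype κ] [Nonempty κ] : IsVar (PSo.str k₀ k κ) (Fintype.card κ - 1) :=
  tPS k₀ k κ _ (Nat.sub_add_cancel Fintype.card_pos).symm

namespace Fibration

variable (Φ : Fibration k₀)

theorem isClosed_b : IsClosedImmersion Φ.b.left := by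
  have : Subsingleton (pt k₀ Φ.W.k).left :=
    inferInstanceAs (Subsingleton (Spec (CommRingCat.of Φ.W.k)))
  exact isClosedImmersion_of_comp_eq_id Φ.c.left Φ.b.left
    (by rw [← Over.comp_left, Φ.b_str, Over.id_left])

theorem isClosed_ι : IsClosedImmersion Φ.ι.left :=
  MorphismProperty.of_isPullback (P := @IsClosedImmersion) (Φ.isFibre.map (Over.forget _)).flip
    Φ.isClosed_b

/-- The fibre `Y`, as a projective variety. -/
noncomputable def fibre : PrVar k₀ where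
  k := Φ.W.k
  X := Φ.Y
  str := Φ.y
  n := Φ.m
  isVar := Φ.isVar
  κ := Φ.W.κ
  i := Φ.W.i
  emb := Φ.ι ≫ Φ.W.emb
  isClosed := by
    have h1 := Φ.isClosed_ι
    have h2 := Φ.W.isClosed
    rw [Over.comp_left]
    infer_instance
  emb_str := by
    rw [Category.assoc, Φ.W.emb_str, ← Φ.f_str, ← Category.assoc, Φ.isFibre.w, Category.assoc,
      Φ.b_str, Category.comp_id]

theorem ι_str : Φ.ι ≫ Φ.W.str = Φ.y := by
  rw [← Φ.f_str, ← Category.assoc, Φ.isFibre.w, Category.assoc, Φ.b_str, Category.comp_id]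

/-- The inclusion of the fibre as a morphism in the category of varieties. -/
noncomputable def ιV : (⟨Φ.Y, Φ.y, Φ.m, Φ.isVar⟩ : Var k₀ Φ.W.k) ⟶ vr Φ.W := ⟨Φ.ι, Φ.ι_str⟩

/-- The map to the curve as a morphism in the category of varieties. -/
noncomputable def fV : vr Φ.W ⟶ (⟨Φ.C, Φ.c, 1, Φ.isCurve⟩ : Var k₀ Φ.W.k) := ⟨Φ.f, Φ.f_str⟩

/-- The point `b` as a morphism in the category of varieties. -/
noncomputable def bV : (⟨pt k₀ Φ.W.k, 𝟙 _, 0, Var.isVar_pt⟩ : Var k₀ Φ.W.k) ⟶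
    (⟨Φ.C, Φ.c, 1, Φ.isCurve⟩ : Var k₀ Φ.W.k) := ⟨Φ.b, Φ.b_str⟩

variable (h : D.IsTheory)

include h in
theorem h_fibre : D.cls (Φ.fibre.h D) = D.pbH Φ.ι (D.cls (Φ.W.h D)) := by
  have h1 : Sm Φ.Y := Φ.isVar.sm
  have h2 : Sm Φ.W.X := Φ.W.isVar.sm
  have h3 : Sm (PSo k₀ Φ.W.k Φ.W.κ) := (isVar_PSo k₀ Φ.W.k Φ.W.κ).sm
  have h4 : Φ.fibre.h D = D.pb Φ.ι (Φ.W.h D) :=
    h.chow.pullFunctor.2 _ _ _ Φ.ι Φ.W.emb h1 h2 h3 _
  rw [h4]
  exact h.weil.clPull _ _ _ Φ.isVar.isWeil Φ.W.isVar.isWeil _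

variable [CharZero K]

include h in
theorem η_eq : Φ.η D = (weil (D.weil h) Φ.W.k).push Φ.ιV 1 := by
  refine ((weil (D.weil h) Φ.W.k).push_eq Φ.ιV 1 _ fun y => ?_).symm
  have h1 := (D.weil h).cl_push Φ.y Φ.W.str Φ.ι Φ.ι_str Φ.m Φ.W.n Φ.isVar Φ.W.isVar 1 y
  rw [map_one ((D.weil h).cl Φ.Y)] at h1
  exact h1

variable (h' : IsStandard D)

omit [CharZero K] in
include h h' in
/-- the class of the fibre is the pull-back of the class of a point -/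
theorem η_eq' : Φ.η D = D.pbH Φ.f (D.cls (D.pf Φ.b (D.fund (pt k₀ Φ.W.k)))) := by
  have hb : IsProper Φ.b.left := by
    have := Φ.isClosed_b
    infer_instance
  have h1 := h'.transversal Φ.W.k (pt k₀ Φ.W.k) Φ.C Φ.Y Φ.W.X Φ.c Φ.b Φ.ι Φ.y Φ.f
    Φ.isFibre.flip Φ.isCurve.isSm (by rw [Φ.b_str]; exact Var.isVar_pt.isSm)
    (by rw [Φ.f_str]; exact Φ.W.isVar.isSm) (by rw [Φ.f_str, Φ.ι_str]; exact Φ.isVar.isSm)
    hb 1 0 Φ.W.n Φ.m Φ.isCurve.smooth (by rw [Φ.b_str]; exact Var.isVar_pt.smooth)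
    (by rw [Φ.f_str]; exact Φ.W.isVar.smooth) (by rw [Φ.f_str, Φ.ι_str]; exact Φ.isVar.smooth)
    (by rw [Φ.dim]; ring) 1
  have h2 : D.pb Φ.y (1 : D.CH (pt k₀ Φ.W.k)) = 1 := map_one _
  rw [h2] at h1
  have h3 := h.weil.clPull _ _ Φ.f Φ.W.isVar.isWeil Φ.isCurve.isWeil
    (D.pf Φ.b (D.fund (pt k₀ Φ.W.k)))
  rw [← h3]
  exact congrArg D.cls h1.symm

include h h' in
/-- the square of the class of the fibre is zero -/
theorem η_sq : (weil (D.weil h) Φ.W.k).push Φ.ιV 1 * (weil (D.weil h) Φ.W.k).push Φ.ιV 1 = 0 := by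
  rw [← Φ.η_eq h, Φ.η_eq' h h']
  have h1 : D.cls (D.pf Φ.b (D.fund (pt k₀ Φ.W.k))) ∈
      (weil (D.weil h) Φ.W.k).Alg (⟨Φ.C, Φ.c, 1, Φ.isCurve⟩ : Var k₀ Φ.W.k) 1 := by
    have h2 := (weil (D.weil h) Φ.W.k).push_alg Φ.bV ((weil (D.weil h) Φ.W.k).alg_one _)
      (e := 1) (by rfl)
    have h3 : (weil (D.weil h) Φ.W.k).push Φ.bV 1 =
        D.cls (D.pf Φ.b (D.fund (pt k₀ Φ.W.k))) := by
      refine (weil (D.weil h) Φ.W.k).push_eq Φ.bV 1 _ fun y => ?_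
      have h4 := (D.weil h).cl_push (𝟙 _) Φ.c Φ.b Φ.b_str 0 1 Var.isVar_pt Φ.isCurve 1 y
      rw [map_one ((D.weil h).cl (pt k₀ Φ.W.k))] at h4
      exact h4
    rwa [h3] at h2
  have h2 := (weil (D.weil h) Φ.W.k).alg_gr h1
  have h3 := (weil (D.weil h) Φ.W.k).gr_top (SetLike.mul_mem_graded h2 h2)
    (by change 2 * 1 < _; norm_num)
  have h4 := (map_mul ((weil (D.weil h) Φ.W.k).pull Φ.fV) _ _).symm.trans
    ((congrArg _ h3).trans (map_zero _))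
  exact h4

include h h' in
theorem fib (hk : Φ.Kernel D) (hr : Φ.RelLefschetz D) :
    Fib (weil (D.weil h) Φ.W.k) Φ.ιV (D.cls (Φ.W.h D)) where
  dim := Φ.dim
  alg := h_alg h Φ.W
  hardX := hard h h' Φ.W
  hardY := by
    have h1 := hard h h' Φ.fibre
    rw [Φ.h_fibre h] at h1
    exact h1
  sq := Φ.η_sq h h'
  ker w hw := hk w (by rw [Φ.η_eq h]; exact hw)
  rhl i j hij v hv hv0 := by
    have hij' : i + j = Φ.W.n := hij
    have h1 := hr j (by omega) v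
    have e1 : Φ.W.n - j = i := by omega
    have e2 : Φ.W.n + j = i + 2 * j := by omega
    rw [e1, e2, Φ.η_eq h] at h1
    obtain ⟨u, g, hu, hu0, hv⟩ := h1 hv hv0
    exact ⟨u, hu, g, hu0, hv⟩

include h h' in
/-- **The variational Tate conjecture and the algebraic splitting**, for a fibration, from the
Lefschetz standard conjecture for the total space. -/
theorem splits (hk : Φ.Kernel D) (hr : Φ.RelLefschetz D) (hW : Φ.W.LefschetzConj D) :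
    Φ.Splits D ∧ Φ.VarTate D := by
  have hF := Φ.fib h h' hk hr
  have hX := (lef_iff h h' Φ.W).1 hW
  refine ⟨?_, fun j a ha hw => ?_⟩
  · obtain ⟨s, hs, h1, h2⟩ := hF.exists_split hX
    obtain ⟨u, ⟨a, ha, rfl⟩, rfl⟩ := (weil (D.weil h) Φ.W.k).mem_cor_zero.1 hs
    exact ⟨a, _, ha, fun v w => (weil (D.weil h) Φ.W.k).op_spec (X := vr Φ.W)
      (Y := ⟨Φ.Y, Φ.y, Φ.m, Φ.isVar⟩) (D.cls a) v w, h1, h2⟩
  · obtain ⟨w, hw⟩ := hw
    obtain ⟨w', ⟨a', ha', rfl⟩, h2⟩ := hF.varTate hX (c := j) (w := w)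
      ⟨a, ha, hw⟩
    refine ⟨a', ha', ?_⟩
    have h3 := h.weil.clPull _ _ Φ.ι Φ.isVar.isWeil Φ.W.isVar.isWeil a'
    rw [h3]
    exact hw.trans h2.symm

end Fibration

end Pool.Agent.Lib.MP_4ca46c_ag.Vtc
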