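import Mathlib
import Pool.Agent.Lib.MP_4ca46c_ag.Vtc.Weil

/-!
# Operators represented by classes on the square, and transport
-/

namespace Pool.Agent.Lib.MP_4ca46c_ag.Vtc

open CategoryTheory Limits AlgebraicGeometry MonoidalCategory CartesianMonoidalCategory
open Pool.Agent.Lib.MP_4ca46c_ag.Sign Pool.Agent.Lib.MP_4ca46c_ag.Hyp
open Pool.Agent.Lib.MP_4ca46c_ag.Std Pool.Agent.Lib.MP_4ca46c_ag.Geo
open Pool.Agent.Lib.MP_4ca46c_ag.Geo.WeilCohomology

variable {k₀ K : Type} [Field k₀] [Field K]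

section rep

variable (D : CohData k₀ K) (V : PrVar k₀)

/-- The class `u` on `V × V` represents the operator `f` on `H(V)`. -/
def Rep (u : D.H V.sq) (f : D.H V.X →ₗ[K] D.H V.X) : Prop :=
  ∀ v w, D.trace (D.cup (f v) w) = D.trace (D.cup (D.cup u (D.pbH V.p₂ v)) (D.pbH V.p₁ w))

/-- The inverse of the Lefschetz operator `h^j` on `H^i`, extended by zero. -/
def IsInv (i j : ℕ) (θ : D.H V.X →ₗ[K] D.H V.X) : Prop :=
  (∀ x, D.Deg i x → θ (V.lef D j x) = x) ∧ ∀ l, l ≠ i + 2 * j → ∀ x, D.Deg l x → θ x = 0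

/-- The projector onto `H^i`. -/
def IsPr (i : ℕ) (π : D.H V.X →ₗ[K] D.H V.X) : Prop :=
  (∀ x, D.Deg i x → π x = x) ∧ ∀ l, l ≠ i → ∀ x, D.Deg l x → π x = 0

end rep

section

variable {D : CohData k₀ K} (h : D.IsTheory) [CharZero K] (V : PrVar k₀)

include h

theorem rep_iff {u : D.H V.sq} {f : D.H V.X →ₗ[K] D.H V.X} : Rep D V u f ↔
    f = (weil (D.weil h) V.k).op (X := vr V) (Y := vr V) u :=
  ((weil (D.weil h) V.k).eq_op_iff (X := vr V) (Y := vr V) (u := u) (φ := f)).symm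

theorem rep_unique {u u' : D.H V.sq} {f : D.H V.X →ₗ[K] D.H V.X} (hu : Rep D V u f)
    (hu' : Rep D V u' f) : u = u' :=
  (weil (D.weil h) V.k).op_inj (X := vr V) (Y := vr V)
    (((rep_iff h V).1 hu).symm.trans ((rep_iff h V).1 hu'))

theorem rep_exists (f : D.H V.X →ₗ[K] D.H V.X) : ∃ u, Rep D V u f := by
  let W := weil (D.weil h) V.k
  let F : W.H (vr V ⊗ vr V) →ₗ[K] (W.H (vr V) →ₗ[K] W.H (vr V)) :=
    { toFun := fun u => W.op u
      map_add' := fun u v => W.op_add u v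
      map_smul' := fun a u => W.op_smul a u }
  have hinj : Function.Injective F := fun u v huv => W.op_inj huv
  have e := (W.kun (vr V) (vr V)).finrank_eq
  have hfr : Module.finrank K (W.H (vr V ⊗ vr V)) =
      Module.finrank K (W.H (vr V) →ₗ[K] W.H (vr V)) := by
    rw [← e, Module.finrank_tensorProduct, Module.finrank_linearMap]
  obtain ⟨u, hu⟩ := (LinearMap.injective_iff_surjective_of_finrank_eq_finrank hfr).1 hinj f
  exact ⟨u, (rep_iff h V).2 hu.symm⟩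

/-- linear maps on `H(V)` are determined on homogeneous elements -/
theorem hom_ext_deg {f g : D.H V.X →ₗ[K] D.H V.X}
    (H : ∀ i x, D.Deg i x → f x = g x) : f = g :=
  (weil (D.weil h) V.k).hom_ext (X := vr V) H

theorem isPr_iff {i : ℕ} {π : D.H V.X →ₗ[K] D.H V.X} : IsPr D V i π ↔
    π = (weil (D.weil h) V.k).pi (vr V) i := by
  have h1 : ∀ x, D.Deg i x → (weil (D.weil h) V.k).pi (vr V) i x = x :=
    fun x hx => (weil (D.weil h) V.k).pi_same (X := vr V) hx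
  have h2 : ∀ l, l ≠ i → ∀ x, D.Deg l x → (weil (D.weil h) V.k).pi (vr V) i x = 0 :=
    fun l hl x hx => (weil (D.weil h) V.k).pi_ne (X := vr V) hx hl
  constructor
  · intro H
    refine hom_ext_deg h V fun l x hx => ?_
    by_cases hl : l = i
    · subst hl
      exact (H.1 x hx).trans (h1 x hx).symm
    · exact (H.2 l hl x hx).trans (h2 l hl x hx).symm
  · rintro rfl
    exact ⟨h1, h2⟩

theorem exists_pr (i : ℕ) : ∃ π, IsPr D V i π := ⟨_, (isPr_iff h V).2 rfl⟩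

theorem pr_unique {i : ℕ} {π π' : D.H V.X →ₗ[K] D.H V.X} (h1 : IsPr D V i π)
    (h2 : IsPr D V i π') : π = π' := ((isPr_iff h V).1 h1).trans ((isPr_iff h V).1 h2).symm

variable (h' : IsStandard D)

include h'

theorem kun_iff' : V.KunnethConj D ↔ ∀ i π, IsPr D V i π → V.Algebraic D 0 π := by
  rw [kun_iff h h', Geo.WeilCohomology.kunneth_iff]
  constructor
  · intro H i π hπ
    rw [alg_iff h h', (isPr_iff h V).1 hπ]
    exact H i
  · intro H i
    exact (alg_iff h h' V).1 (H i _ ((isPr_iff h V).2 rfl))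

theorem inv_unique {i j : ℕ} (hij : i + j = V.n) {θ θ' : D.H V.X →ₗ[K] D.H V.X}
    (h1 : IsInv D V i j θ) (h2 : IsInv D V i j θ') : θ = θ' := by
  refine hom_ext_deg h V fun l x hx => ?_
  by_cases hl : l = i + 2 * j
  · subst hl
    obtain ⟨y, hy, hyx⟩ := (hard h h' V i j hij).2.2 hx
    have hyx' : V.lef D j y = x := hyx
    rw [← hyx', h1.1 y hy, h2.1 y hy]
  · rw [h1.2 l hl x hx, h2.2 l hl x hx]

theorem exists_inv {i j : ℕ} (hij : i + j = V.n) : ∃ θ, IsInv D V i j θ := by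
  let W := weil (D.weil h) V.k
  obtain ⟨h1, h2, h3⟩ := hard h h' V i j hij
  have hfr := fun x (hx : x ∈ W.gr (vr V) (i + 2 * j)) => h3 hx
  let f : W.gr (vr V) i →ₗ[K] W.gr (vr V) (i + 2 * j) :=
    ((LinearMap.mulLeft K ((D.cls (V.h D) : W.H (vr V)) ^ j)).comp
      (W.gr (vr V) i).subtype).codRestrict _ fun x => h1 x.2
  have hf : Function.Bijective f := by
    constructor
    · intro x y hxy
      exact Subtype.ext (h2 x.2 y.2 (congrArg Subtype.val hxy))
    · intro y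
      obtain ⟨x, hx, hxy⟩ := h3 y.2
      exact ⟨⟨x, hx⟩, Subtype.ext hxy⟩
  let g : W.gr (vr V) (i + 2 * j) →ₗ[K] W.H (vr V) :=
    (W.gr (vr V) i).subtype ∘ₗ (LinearEquiv.ofBijective f hf).symm.toLinearMap
  let θ : W.H (vr V) →ₗ[K] W.H (vr V) :=
    g ∘ₗ (W.pi (vr V) (i + 2 * j)).codRestrict _ (W.pi_mem _)
  refine ⟨θ, fun x hx => ?_, fun l hl x hx => ?_⟩
  · have h5 : V.lef D j x ∈ W.gr (vr V) (i + 2 * j) := h1 hx
    have h4 : (W.pi (vr V) (i + 2 * j)).codRestrict _ (W.pi_mem _) (V.lef D j x) =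
        f ⟨x, hx⟩ := Subtype.ext (W.pi_same h5)
    change g ((W.pi (vr V) (i + 2 * j)).codRestrict _ (W.pi_mem _) (V.lef D j x)) = x
    rw [h4]
    change (((LinearEquiv.ofBijective f hf).symm (f ⟨x, hx⟩) : W.gr (vr V) i) : W.H (vr V)) = x
    have h6 : (LinearEquiv.ofBijective f hf).symm (f ⟨x, hx⟩) = ⟨x, hx⟩ :=
      (LinearEquiv.ofBijective f hf).symm_apply_apply ⟨x, hx⟩
    rw [h6]
  · have h4 : (W.pi (vr V) (i + 2 * j)).codRestrict _ (W.pi_mem _) x = 0 :=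
      Subtype.ext (W.pi_ne (X := vr V) hx hl)
    change g ((W.pi (vr V) (i + 2 * j)).codRestrict _ (W.pi_mem _) x) = 0
    rw [h4, map_zero]

theorem lef_iff' : V.LefschetzConj D ↔
    ∀ i j θ, i + j = V.n → IsInv D V i j θ → V.Algebraic D (-(j : ℤ)) θ := by
  rw [lef_iff h h']
  constructor
  · intro H i j θ hij hθ
    rw [alg_iff h h']
    have hC := (weil (D.weil h) V.k).kunneth_iff.1
      (Lefschetz.kunneth (h_alg h V) (hard h h' V) H) (i + 2 * j)
    obtain ⟨f, hf, hf1⟩ := (weil (D.weil h) V.k).lefschetz_iff.1 H i j hij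
    have h1 := (weil (D.weil h) V.k).cor_comp hf hC
    rw [add_zero] at h1
    have h2 : θ = f ∘ₗ (weil (D.weil h) V.k).pi (vr V) (i + 2 * j) := by
      refine inv_unique h V h' hij hθ ⟨fun x hx => ?_, fun l hl x hx => ?_⟩
      · have h5 : V.lef D j x ∈ (weil (D.weil h) V.k).gr (vr V) (i + 2 * j) :=
          (hard h h' V i j hij).1 hx
        exact (congrArg f ((weil (D.weil h) V.k).pi_same h5)).trans (hf1 x hx)
      · exact (congrArg f ((weil (D.weil h) V.k).pi_ne (X := vr V) hx hl)).trans (map_zero f)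
    rw [h2]
    exact h1
  · intro H
    refine (weil (D.weil h) V.k).lefschetz_iff.2 fun i j hij => ?_
    obtain ⟨θ, hθ⟩ := exists_inv h V h' hij
    exact ⟨θ, (alg_iff h h' V).1 (H i j θ hij hθ), fun x hx => hθ.1 x hx⟩

end

/-- Compatible isomorphisms of the cohomology of `V₁`, `V₂` and of their squares. -/
structure Transp (D : CohData k₀ K) (V₁ V₂ : PrVar k₀) (α : D.H V₁.X ≃ₐ[K] D.H V₂.X)
    (β : D.H V₁.sq ≃ₐ[K] D.H V₂.sq) : Prop where
  n : V₁.n = V₂.n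
  deg : ∀ i u, D.Deg i u → D.Deg i (α u)
  tr : ∀ u, D.trace (α u) = D.trace u
  trsq : ∀ u, D.trace (β u) = D.trace u
  fst : ∀ u, β (D.pbH V₁.p₁ u) = D.pbH V₂.p₁ (α u)
  snd : ∀ u, β (D.pbH V₁.p₂ u) = D.pbH V₂.p₂ (α u)
  h : α (D.cls (V₁.h D)) = D.cls (V₂.h D)

namespace Transp

variable {D : CohData k₀ K} {V₁ V₂ V₃ : PrVar k₀} {α : D.H V₁.X ≃ₐ[K] D.H V₂.X}
  {β : D.H V₁.sq ≃ₐ[K] D.H V₂.sq} (t : Transp D V₁ V₂ α β)

include t

theorem lef (j : ℕ) (u : D.H V₁.X) : α (V₁.lef D j u) = V₂.lef D j (α u) := by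
  rw [PrVar.lef, PrVar.lef, map_mul, map_pow, t.h]

/-- the inverse isomorphism preserves the degree -/
theorem deg_symm (h : D.IsTheory) [CharZero K] {i : ℕ} {u : D.H V₂.X} (hu : D.Deg i u) :
    D.Deg i (α.symm u) := by
  let W₁ := weil (D.weil h) V₁.k
  let W₂ := weil (D.weil h) V₂.k
  have h1 : ∀ x : D.H V₁.X, α (W₁.pi (vr V₁) i x) = W₂.pi (vr V₂) i (α x) := by
    intro x
    refine W₁.ind (X := vr V₁) (P := fun x => α (W₁.pi (vr V₁) i x) = W₂.pi (vr V₂) i (α x)) x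
      ?_ (fun j x hx => ?_) (fun r s hr hs => ?_)
    · exact (congrArg α (map_zero _)).trans ((map_zero α).trans
        ((congrArg _ (map_zero α)).trans (map_zero _)).symm)
    · have h2 : α x ∈ W₂.gr (vr V₂) j := t.deg j x hx
      by_cases hj : j = i
      · subst hj
        exact (congrArg α (W₁.pi_same hx)).trans (W₂.pi_same h2).symm
      · exact (congrArg α (W₁.pi_ne hx hj)).trans ((map_zero α).trans (W₂.pi_ne h2 hj).symm)
    · exact (congrArg α (map_add _ _ _)).trans ((map_add α _ _).trans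
        ((congrArg₂ (· + ·) hr hs).trans
        ((congrArg _ (map_add α _ _)).trans (map_add _ _ _)).symm))
  have h2 : α (W₁.pi (vr V₁) i (α.symm u)) = α (α.symm u) := by
    rw [h1, AlgEquiv.apply_symm_apply]
    exact W₂.pi_same (X := vr V₂) hu
  have h3 := α.injective h2
  rw [← h3]
  exact W₁.pi_mem (X := vr V₁) i (α.symm u)

theorem symm (h : D.IsTheory) [CharZero K] : Transp D V₂ V₁ α.symm β.symm where
  n := t.n.symm
  deg _ _ hu := t.deg_symm h hu
  tr u := by rw [← t.tr, AlgEquiv.apply_symm_apply]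
  trsq u := by rw [← t.trsq, AlgEquiv.apply_symm_apply]
  fst u := by rw [AlgEquiv.symm_apply_eq, t.fst, AlgEquiv.apply_symm_apply]
  snd u := by rw [AlgEquiv.symm_apply_eq, t.snd, AlgEquiv.apply_symm_apply]
  h := by rw [AlgEquiv.symm_apply_eq, t.h]

theorem trans {α' : D.H V₂.X ≃ₐ[K] D.H V₃.X} {β' : D.H V₂.sq ≃ₐ[K] D.H V₃.sq}
    (t' : Transp D V₂ V₃ α' β') : Transp D V₁ V₃ (α.trans α') (β.trans β') where
  n := t.n.trans t'.n
  deg i u hu := t'.deg i _ (t.deg i u hu)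
  tr u := (t'.tr _).trans (t.tr u)
  trsq u := (t'.trsq _).trans (t.trsq u)
  fst u := (congrArg β' (t.fst u)).trans (t'.fst _)
  snd u := (congrArg β' (t.snd u)).trans (t'.snd _)
  h := (congrArg α' t.h).trans t'.h

/-- transport of operators -/
theorem rep {u : D.H V₁.sq} {f : D.H V₁.X →ₗ[K] D.H V₁.X} (hu : Rep D V₁ u f) :
    Rep D V₂ (β u) (α.toLinearEquiv.conj f) := by
  intro v w
  have h1 := hu (α.symm v) (α.symm w)
  have e1 : D.cup (α.toLinearEquiv.conj f v) w = α (D.cup (f (α.symm v)) (α.symm w)) := by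
    change _ = α (f (α.symm v) * α.symm w)
    rw [map_mul, AlgEquiv.apply_symm_apply]
    rfl
  have e2 : D.cup (D.cup (β u) (D.pbH V₂.p₂ v)) (D.pbH V₂.p₁ w) =
      β (D.cup (D.cup u (D.pbH V₁.p₂ (α.symm v))) (D.pbH V₁.p₁ (α.symm w))) := by
    change _ = β (u * D.pbH V₁.p₂ (α.symm v) * D.pbH V₁.p₁ (α.symm w))
    rw [map_mul, map_mul, t.fst, t.snd, AlgEquiv.apply_symm_apply, AlgEquiv.apply_symm_apply]
    rfl
  rw [e1, e2, t.tr, t.trsq, h1]

theorem inv (h : D.IsTheory) [CharZero K] {i j : ℕ} {θ : D.H V₁.X →ₗ[K] D.H V₁.X}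
    (hθ : IsInv D V₁ i j θ) : IsInv D V₂ i j (α.toLinearEquiv.conj θ) := by
  refine ⟨fun x hx => ?_, fun l hl x hx => ?_⟩
  · change α (θ (α.symm (V₂.lef D j x))) = x
    have h1 : α.symm (V₂.lef D j x) = V₁.lef D j (α.symm x) := by
      rw [AlgEquiv.symm_apply_eq, t.lef, AlgEquiv.apply_symm_apply]
    rw [h1, hθ.1 _ (t.deg_symm h hx), AlgEquiv.apply_symm_apply]
  · change α (θ (α.symm x)) = 0
    rw [hθ.2 l hl _ (t.deg_symm h hx), map_zero]

theorem pr (h : D.IsTheory) [CharZero K] {i : ℕ} {π : D.H V₁.X →ₗ[K] D.H V₁.X}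
    (hπ : IsPr D V₁ i π) : IsPr D V₂ i (α.toLinearEquiv.conj π) := by
  refine ⟨fun x hx => ?_, fun l hl x hx => ?_⟩
  · change α (π (α.symm x)) = x
    rw [hπ.1 _ (t.deg_symm h hx), AlgEquiv.apply_symm_apply]
  · change α (π (α.symm x)) = 0
    rw [hπ.2 l hl _ (t.deg_symm h hx), map_zero]

end Transp

end Pool.Agent.Lib.MP_4ca46c_ag.Vtc
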