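import Mathlib
import Pool.Agent.Lib.MP_4ca46c_ag.Vtc.Rep
import Pool.Agent.Lib.MP_4ca46c_ag.Vtc.FibD

/-!
# Models: the special and the generic fibre, the fibration
-/

namespace Pool.Agent.Lib.MP_4ca46c_ag.Vtc

open CategoryTheory Limits AlgebraicGeometry
open Pool.Agent.Lib.MP_4ca46c_ag.Sign Pool.Agent.Lib.MP_4ca46c_ag.Hyp
open Pool.Agent.Lib.MP_4ca46c_ag.Std

section cat

universe v u

variable {C : Type u} [Category.{v} C] [HasPullbacks C] {X S T A : C} {g : X ⟶ S} {t : T ⟶ S}
  {a : A ⟶ X} {x : A ⟶ T}

/-- the map of the squares -/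
noncomputable def sqMap (hA : IsPullback a x g t) : pullback x x ⟶ pullback g g :=
  pullback.lift (pullback.fst x x ≫ a) (pullback.snd x x ≫ a) (by
    rw [Category.assoc, Category.assoc, hA.w, ← Category.assoc, ← Category.assoc,
      pullback.condition])

theorem sqMap_fst (hA : IsPullback a x g t) :
    sqMap hA ≫ pullback.fst g g = pullback.fst x x ≫ a := pullback.lift_fst _ _ _

theorem sqMap_snd (hA : IsPullback a x g t) :
    sqMap hA ≫ pullback.snd g g = pullback.snd x x ≫ a := pullback.lift_snd _ _ _

theorem sqMap_isPullback (hA : IsPullback a x g t) :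
    IsPullback (sqMap hA) (pullback.fst x x ≫ x) (pullback.fst g g ≫ g) t := by
  have hw : pullback.fst x x ≫ x = pullback.snd x x ≫ x := pullback.condition
  refine ⟨⟨?_⟩, ⟨PullbackCone.IsLimit.mk _ (fun s => ?_) ?_ ?_ ?_⟩⟩
  · rw [← Category.assoc, sqMap_fst, Category.assoc, hA.w, Category.assoc]
  · refine pullback.lift
      (hA.lift (s.fst ≫ pullback.fst g g) s.snd ?_)
      (hA.lift (s.fst ≫ pullback.snd g g) s.snd ?_) ?_
    · rw [Category.assoc]; exact s.condition
    · rw [Category.assoc, ← pullback.condition]; exact s.condition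
    · rw [hA.lift_snd, hA.lift_snd]
  · intro s
    apply pullback.hom_ext
    · rw [Category.assoc, sqMap_fst, ← Category.assoc, pullback.lift_fst, hA.lift_fst]
    · rw [Category.assoc, sqMap_snd, ← Category.assoc, pullback.lift_snd, hA.lift_fst]
  · intro s
    rw [← Category.assoc, pullback.lift_fst, hA.lift_snd]
  · intro s m hm1 hm2
    apply pullback.hom_ext
    · rw [pullback.lift_fst]
      apply hA.hom_ext
      · rw [hA.lift_fst, Category.assoc, ← hm1, Category.assoc, sqMap_fst]
      · rw [hA.lift_snd, ← hm2, Category.assoc]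
    · rw [pullback.lift_snd]
      apply hA.hom_ext
      · rw [hA.lift_fst, Category.assoc, ← hm1, Category.assoc, sqMap_snd]
      · rw [hA.lift_snd, ← hm2, hw, Category.assoc]

/-- the square of the fibre is the fibre of the square -/
noncomputable def sqIso (g : X ⟶ S) (t : T ⟶ S) :
    pullback (pullback.snd g t) (pullback.snd g t) ≅ pullback (pullback.fst g g ≫ g) t :=
  (sqMap_isPullback (IsPullback.of_hasPullback g t)).isoPullback

theorem sqIso_hom_fst (g : X ⟶ S) (t : T ⟶ S) : (sqIso g t).hom ≫ pullback.fst _ _ =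
    sqMap (IsPullback.of_hasPullback g t) := IsPullback.isoPullback_hom_fst _

theorem sqIso_hom_snd (g : X ⟶ S) (t : T ⟶ S) : (sqIso g t).hom ≫ pullback.snd _ _ =
    pullback.fst _ _ ≫ pullback.snd g t := IsPullback.isoPullback_hom_snd _

end cat

variable {k₀ K : Type} [Field k₀] [Field K] {D : CohData k₀ K}

/-- projection of the square of a family -/
theorem sqIso_p₁ {X S T : Sch k₀} (g : X ⟶ S) (t : T ⟶ S) :
    (sqIso g t).hom ≫ fibm (g := pullback.fst g g ≫ g) (g' := g) (pullback.fst g g) rfl t =
      pullback.fst _ _ := by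
  apply pullback.hom_ext
  · rw [Category.assoc, pullback.lift_fst, ← Category.assoc, sqIso_hom_fst, sqMap_fst]
  · rw [Category.assoc, pullback.lift_snd, sqIso_hom_snd]

theorem sqIso_p₂ {X S T : Sch k₀} (g : X ⟶ S) (t : T ⟶ S) :
    (sqIso g t).hom ≫ fibm (g := pullback.fst g g ≫ g) (g' := g) (pullback.snd g g)
      pullback.condition.symm t = pullback.snd _ _ := by
  apply pullback.hom_ext
  · rw [Category.assoc, pullback.lift_fst, ← Category.assoc, sqIso_hom_fst, sqMap_snd]
  · rw [Category.assoc, pullback.lift_snd, sqIso_hom_snd, pullback.condition]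

namespace IsFam

variable {X S : Sch k₀} {g : X ⟶ S} {n : ℕ} (h : IsFam g n)

include h

theorem isVar_of {k : Type} [Field k] [Algebra k₀ k] {t : pt k₀ k ⟶ S} {A : Sch k₀} {a : A ⟶ X}
    {x : A ⟶ pt k₀ k} (hA : IsPullback a x g t) : IsVar x n := by
  have h1 := hA.map (Over.forget _)
  have := smoothOfRelativeDimension_isStableUnderBaseChange n
  exact ⟨MorphismProperty.of_isPullback (P := @SmoothOfRelativeDimension n) h1 h.smooth,
    MorphismProperty.of_isPullback (P := @IsProper) h1 h.proper,
    MorphismProperty.of_isPullback (P := @GeometricallyConnected) h1 h.connected⟩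

theorem fibre {k : Type} [Field k] [Algebra k₀ k] (t : pt k₀ k ⟶ S) : IsVar (fibπ g t) n :=
  h.isVar_of (IsPullback.of_hasPullback g t)

theorem sq : IsFam (pullback.fst g g ≫ g) (n + n) := by
  have hP : IsPullback (pullback.fst g g).left (pullback.snd g g).left g.left g.left :=
    (IsPullback.of_hasPullback g g).map (Over.forget _)
  have h1 := h.smooth
  have h3 := h.proper
  have := smoothOfRelativeDimension_isStableUnderBaseChange n
  have h5 : SmoothOfRelativeDimension n (pullback.fst g g).left :=
    MorphismProperty.of_isPullback (P := @SmoothOfRelativeDimension n) hP.flip h1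
  have h6 : IsProper (pullback.fst g g).left :=
    MorphismProperty.of_isPullback (P := @IsProper) hP.flip h3
  have h7 := h.connected
  have h9 : GeometricallyConnected (pullback.fst g g).left :=
    MorphismProperty.of_isPullback (P := @GeometricallyConnected) hP.flip h7
  have h10 := h1.smooth
  have h11 := h5.smooth
  refine ⟨?_, ?_, ?_⟩
  · rw [Over.comp_left]
    infer_instance
  · rw [Over.comp_left]
    infer_instance
  · rw [Over.comp_left]
    exact GeometricallyConnected.comp _ _

end IsFam

namespace Model

variable {Φ : Fibration k₀} {V : PrVar k₀} (M : Model Φ V)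

/-- The special fibre. -/
noncomputable def special : PrVar k₀ where
  k := Φ.W.k
  X := pullback M.g M.b
  str := pullback.snd M.g M.b
  n := V.n
  isVar := M.isFam.fibre M.b
  κ := V.κ
  i := V.i
  emb := pullback.fst M.g M.b ≫ M.toP
  isClosed := M.closed
  emb_str := by
    have h1 : M.b ≫ M.j ≫ Φ.c = 𝟙 _ := by rw [← Category.assoc, M.b_j, Φ.b_str]
    rw [Category.assoc, M.toP_str, ← Category.assoc, pullback.condition, Category.assoc, h1,
      Category.comp_id]

/-- The isomorphism of `V` with the generic fibre. -/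
noncomputable def iso : V.X ≅ pullback M.g M.e := M.isFibre.isoPullback

/-- The generic fibre. -/
noncomputable def generic' : PrVar k₀ where
  k := V.k
  X := pullback M.g M.e
  str := pullback.snd M.g M.e
  n := V.n
  isVar := M.isFam.fibre M.e
  κ := V.κ
  i := V.i
  emb := M.iso.inv ≫ V.emb
  isClosed := by
    have := V.isClosed
    rw [Over.comp_left]
    infer_instance
  emb_str := by
    rw [Category.assoc, V.emb_str]
    exact IsPullback.isoPullback_inv_snd _

end Model

end Pool.Agent.Lib.MP_4ca46c_ag.Vtc
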