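import Mathlib
import Pool.Agent.Lib.MP_4ca46c_ag.Vtc.ModelD
import Pool.Agent.Lib.MP_4ca46c_ag.Vtc.FibD
import Pool.Agent.Lib.MP_4ca46c_ag.Vtc.Rep
import Pool.Agent.Lib.MP_4ca46c_ag.Vtc.BC

/-!
# Transport by specialization and by conjugation
-/

namespace Pool.Agent.Lib.MP_4ca46c_ag.Vtc

open CategoryTheory Limits AlgebraicGeometry
open Pool.Agent.Lib.MP_4ca46c_ag.Sign Pool.Agent.Lib.MP_4ca46c_ag.Hyp
open Pool.Agent.Lib.MP_4ca46c_ag.Std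

variable {k₀ K : Type} [Field k₀] [Field K] {D : CohData k₀ K} (h : D.IsTheory)

include h in
theorem pbH_comp {X Y Z : Sch k₀} (f : X ⟶ Y) (g : Y ⟶ Z) (hX : IsWeil X) (hY : IsWeil Y)
    (hZ : IsWeil Z) (u : D.H Z) : D.pbH f (D.pbH g u) = D.pbH (f ≫ g) u :=
  (h.weil.pullHFunctor.2 _ _ _ f g hX hY hZ u).symm

/-- The isomorphism of the cohomology rings given by an isomorphism. -/
noncomputable def isoH {X Y : Sch k₀} (i : X ≅ Y) (hX : IsWeil X) (hY : IsWeil Y) :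
    D.H Y ≃ₐ[K] D.H X :=
  AlgEquiv.ofAlgHom (D.pullH i.hom) (D.pullH i.inv)
    (AlgHom.ext fun u => by
      have h1 := pbH_comp h i.hom i.inv hX hY hX u
      rw [i.hom_inv_id] at h1
      exact h1.trans (h.weil.pullHFunctor.1 _ hX u))
    (AlgHom.ext fun u => by
      have h1 := pbH_comp h i.inv i.hom hY hX hY u
      rw [i.inv_hom_id] at h1
      exact h1.trans (h.weil.pullHFunctor.1 _ hY u))

theorem isoH_apply {X Y : Sch k₀} (i : X ≅ Y) (hX : IsWeil X) (hY : IsWeil Y) (u : D.H Y) :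
    isoH h i hX hY u = D.pbH i.hom u := rfl

include h in
/-- The class of a hyperplane section. -/
theorem cls_h (V : PrVar k₀) : D.cls (V.h D) = D.pbH V.emb (D.cls (hyperplane D V.k V.i)) :=
  h.weil.clPull _ _ V.emb V.isVar.isWeil (isVar_PSo k₀ V.k V.κ).isWeil _

include h in
/-- The class of a hyperplane section, as a pull-back from the projective space over `k₀`. -/
theorem cls_h₀ [IsAlgClosed k₀] (V : PrVar k₀) : D.cls (V.h D) =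
    D.pbH (V.emb ≫ toPS V.k V.κ) (D.cls (hyperplane D k₀ V.i)) := by
  have w2 : IsWeil (PSo k₀ V.k V.κ) := (isVar_PSo k₀ V.k V.κ).isWeil
  have w3 : IsWeil (PSo k₀ k₀ V.κ) := (isVar_PSo k₀ k₀ V.κ).isWeil
  have h1 : D.pb (toPS V.k V.κ) (hyperplane D k₀ V.i) = hyperplane D V.k V.i :=
    hyperplane_bc h k₀ V.k V.i
  rw [cls_h h, ← h1, h.weil.clPull _ _ _ w2 w3, pbH_comp h _ _ V.isVar.isWeil w2 w3]

include h in
/-- Transport with an isomorphism for the squares. -/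
theorem transp_of_iso_sq (V₁ V₂ : PrVar k₀) {E₁ E₂ : Sch k₀} (i₁ : V₁.sq ≅ E₁) (i₂ : V₂.sq ≅ E₂)
    (w₁ : IsWeil E₁) (w₂ : IsWeil E₂) (hn : V₁.n = V₂.n)
    (α : D.H V₁.X ≃ₐ[K] D.H V₂.X) (β' : D.H E₁ ≃ₐ[K] D.H E₂)
    (p₁ q₁ : E₁ ⟶ V₁.X) (p₂ q₂ : E₂ ⟶ V₂.X) (hp₁ : i₁.hom ≫ p₁ = V₁.p₁)
    (hq₁ : i₁.hom ≫ q₁ = V₁.p₂) (hp₂ : i₂.hom ≫ p₂ = V₂.p₁) (hq₂ : i₂.hom ≫ q₂ = V₂.p₂)
    (hdeg : ∀ i u, D.Deg i u → D.Deg i (α u)) (htr : ∀ u, D.trace (α u) = D.trace u)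
    (htr' : ∀ u, D.trace (β' u) = D.trace u) (hp : ∀ u, β' (D.pbH p₁ u) = D.pbH p₂ (α u))
    (hq : ∀ u, β' (D.pbH q₁ u) = D.pbH q₂ (α u)) (hh : α (D.cls (V₁.h D)) = D.cls (V₂.h D)) :
    ∃ β, Transp D V₁ V₂ α β ∧ ∀ u, β u = D.pbH i₂.hom (β' (D.pbH i₁.inv u)) := by
  have v₁ : IsWeil V₁.X := V₁.isVar.isWeil
  have v₂ : IsWeil V₂.X := V₂.isVar.isWeil
  have s₁ : IsWeil V₁.sq := (Var.isVar_prod V₁.isVar V₁.isVar).isWeil
  have s₂ : IsWeil V₂.sq := (Var.isVar_prod V₂.isVar V₂.isVar).isWeil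
  refine ⟨((isoH h i₁.symm w₁ s₁).trans β').trans (isoH h i₂ s₂ w₂),
    ⟨hn, hdeg, htr, fun u => ?_, fun u => ?_, fun u => ?_, hh⟩, fun u => rfl⟩
  · change D.trace (D.pbH i₂.hom (β' (D.pbH i₁.inv u))) = D.trace u
    rw [h.weil.traceIso _ _ i₂.hom inferInstance s₂ w₂, htr',
      h.weil.traceIso _ _ i₁.inv inferInstance w₁ s₁]
  · change D.pbH i₂.hom (β' (D.pbH i₁.inv (D.pbH V₁.p₁ u))) = D.pbH V₂.p₁ (α u)
    rw [pbH_comp h _ _ w₁ s₁ v₁, ← hp₁, i₁.inv_hom_id_assoc, hp, pbH_comp h _ _ s₂ w₂ v₂, hp₂]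
  · change D.pbH i₂.hom (β' (D.pbH i₁.inv (D.pbH V₁.p₂ u))) = D.pbH V₂.p₂ (α u)
    rw [pbH_comp h _ _ w₁ s₁ v₁, ← hq₁, i₁.inv_hom_id_assoc, hq, pbH_comp h _ _ s₂ w₂ v₂, hq₂]

include h in
/-- Transport by pull-back. -/
theorem transp_of_pull (V₁ V₂ : PrVar k₀) (hn : V₁.n = V₂.n) (g : V₂.X ⟶ V₁.X)
    (g₂ : V₂.sq ⟶ V₁.sq) (h₁ : g₂ ≫ V₁.p₁ = V₂.p₁ ≫ g) (h₂ : g₂ ≫ V₁.p₂ = V₂.p₂ ≫ g)
    (bg : Function.Bijective (D.pullH g)) (bg₂ : Function.Bijective (D.pullH g₂))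
    (htr : ∀ u, D.trace (D.pbH g u) = D.trace u) (htr' : ∀ u, D.trace (D.pbH g₂ u) = D.trace u)
    (hh : D.pbH g (D.cls (V₁.h D)) = D.cls (V₂.h D)) :
    Transp D V₁ V₂ (AlgEquiv.ofBijective (D.pullH g) bg)
      (AlgEquiv.ofBijective (D.pullH g₂) bg₂) := by
  have v₁ : IsWeil V₁.X := V₁.isVar.isWeil
  have v₂ : IsWeil V₂.X := V₂.isVar.isWeil
  have s₁ : IsWeil V₁.sq := (Var.isVar_prod V₁.isVar V₁.isVar).isWeil
  have s₂ : IsWeil V₂.sq := (Var.isVar_prod V₂.isVar V₂.isVar).isWeil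
  refine ⟨hn, fun i u hu => h.weil.degPull _ _ g v₂ v₁ i u hu, htr, htr', fun u => ?_,
    fun u => ?_, hh⟩
  · change D.pbH g₂ (D.pbH V₁.p₁ u) = D.pbH V₂.p₁ (D.pbH g u)
    rw [pbH_comp h _ _ s₂ s₁ v₁, pbH_comp h _ _ s₂ v₂ v₁, h₁]
  · change D.pbH g₂ (D.pbH V₁.p₂ u) = D.pbH V₂.p₂ (D.pbH g u)
    rw [pbH_comp h _ _ s₂ s₁ v₁, pbH_comp h _ _ s₂ v₂ v₁, h₂]

include h in
/-- Transport by an isomorphism. -/
theorem transp_of_isIso (V₁ V₂ : PrVar k₀) (hn : V₁.n = V₂.n) (g : V₂.X ⟶ V₁.X)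
    (g₂ : V₂.sq ⟶ V₁.sq) (h₁ : g₂ ≫ V₁.p₁ = V₂.p₁ ≫ g) (h₂ : g₂ ≫ V₁.p₂ = V₂.p₂ ≫ g)
    (ig : IsIso g) (ig₂ : IsIso g₂) (hh : D.pbH g (D.cls (V₁.h D)) = D.cls (V₂.h D)) :
    ∃ (α : D.H V₁.X ≃ₐ[K] D.H V₂.X) (β : D.H V₁.sq ≃ₐ[K] D.H V₂.sq), Transp D V₁ V₂ α β ∧
      (∀ u, α u = D.pbH g u) ∧ ∀ u, β u = D.pbH g₂ u := by
  have v₁ : IsWeil V₁.X := V₁.isVar.isWeil
  have v₂ : IsWeil V₂.X := V₂.isVar.isWeil
  have s₁ : IsWeil V₁.sq := (Var.isVar_prod V₁.isVar V₁.isVar).isWeil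
  have s₂ : IsWeil V₂.sq := (Var.isVar_prod V₂.isVar V₂.isVar).isWeil
  refine ⟨_, _, transp_of_pull h V₁ V₂ hn g g₂ h₁ h₂ (isoH h (asIso g) v₂ v₁).bijective
    (isoH h (asIso g₂) s₂ s₁).bijective (fun u => h.weil.traceIso _ _ g ig v₂ v₁ u)
    (fun u => h.weil.traceIso _ _ g₂ ig₂ s₂ s₁ u) hh, fun u => rfl, fun u => rfl⟩

namespace Model

variable {Φ : Fibration k₀} {V : PrVar k₀} (M : Model Φ V)

theorem generic_emb : (M.iso.inv ≫ V.emb) ≫ toPS V.k V.κ =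
    pullback.fst M.g M.e ≫ M.toP ≫ toPS Φ.W.k V.κ := by
  have h1 : M.iso.inv ≫ M.fst = pullback.fst M.g M.e := IsPullback.isoPullback_inv_fst _
  rw [Category.assoc, ← M.fst_toP, ← Category.assoc, h1]

include h in
theorem cls_generic [IsAlgClosed k₀] : D.cls (M.generic'.h D) =
    D.pbH (fibι M.g M.e ≫ M.toP ≫ toPS Φ.W.k V.κ) (D.cls (hyperplane D k₀ V.i)) :=
  (cls_h₀ h M.generic').trans
    (congrArg (fun q => D.pbH q (D.cls (hyperplane D k₀ V.i))) M.generic_emb)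

include h in
theorem cls_special [IsAlgClosed k₀] : D.cls (M.special.h D) =
    D.pbH (fibι M.g M.b ≫ M.toP ≫ toPS Φ.W.k V.κ) (D.cls (hyperplane D k₀ V.i)) :=
  (cls_h₀ h M.special).trans
    (congrArg (fun q => D.pbH q (D.cls (hyperplane D k₀ V.i))) (Category.assoc _ _ _))

include h in
/-- Transport by specialization. -/
theorem spz [IsAlgClosed k₀] {sp} (hs : IsSpec D M.b M.e sp) :
    ∃ (α : D.H M.generic'.X ≃ₐ[K] D.H M.special.X) (β : D.H M.generic'.sq ≃ₐ[K] D.H M.special.sq),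
      Transp D M.generic' M.special α β ∧
      ∀ u, β u = D.pbH (sqIso M.g M.b).hom
        (sp _ (pullback.fst M.g M.g ≫ M.g) (D.pbH (sqIso M.g M.e).inv u)) := by
  have hF := M.isFam
  have hF2 := M.isFam.sq
  obtain ⟨α, hα⟩ := hs.iso M.X M.g _ hF
  obtain ⟨β, hβ⟩ := hs.iso _ (pullback.fst M.g M.g ≫ M.g) _ hF2
  have wE2 : IsWeil (pullback (pullback.fst M.g M.g ≫ M.g) M.e) := (hF2.fibre M.e).isWeil
  have wB2 : IsWeil (pullback (pullback.fst M.g M.g ≫ M.g) M.b) := (hF2.fibre M.b).isWeil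
  have hdeg : ∀ i u, D.Deg i u → D.Deg i (α u) := fun i u hu => by
    rw [← hα]
    exact hs.deg _ _ _ hF i u hu
  have htr : ∀ u, D.trace (α u) = D.trace u := fun u => by
    rw [← hα]
    exact hs.trace _ _ _ hF u
  have htr' : ∀ u, D.trace (β u) = D.trace u := fun u => by
    rw [← hβ]
    exact hs.trace _ _ _ hF2 u
  have hp : ∀ u, β (D.pbH (fibm (g := pullback.fst M.g M.g ≫ M.g) (g' := M.g)
      (pullback.fst M.g M.g) rfl M.e) u) = D.pbH (fibm (g := pullback.fst M.g M.g ≫ M.g)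
      (g' := M.g) (pullback.fst M.g M.g) rfl M.b) (α u) := fun u => by
    rw [← hα, ← hβ]
    exact hs.map _ _ _ _ _ _ _ _ hF2 hF u
  have hq : ∀ u, β (D.pbH (fibm (g := pullback.fst M.g M.g ≫ M.g) (g' := M.g)
      (pullback.snd M.g M.g) pullback.condition.symm M.e) u) =
      D.pbH (fibm (g := pullback.fst M.g M.g ≫ M.g)
      (g' := M.g) (pullback.snd M.g M.g) pullback.condition.symm M.b) (α u) := fun u => by
    rw [← hα, ← hβ]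
    exact hs.map _ _ _ _ _ _ _ _ hF2 hF u
  have hh : α (D.cls (M.generic'.h D)) = D.cls (M.special.h D) := by
    refine (congrArg α (M.cls_generic h)).trans ((hα _).symm.trans ?_)
    exact (hs.const _ M.g _ _ (M.toP ≫ toPS Φ.W.k V.κ) hF (isVar_PSo k₀ k₀ V.κ).isWeil _).trans
      (M.cls_special h).symm
  obtain ⟨γ, h1, h2⟩ := transp_of_iso_sq h M.generic' M.special (sqIso M.g M.e) (sqIso M.g M.b)
    wE2 wB2 rfl α β _ _ _ _ (sqIso_p₁ M.g M.e) (sqIso_p₂ M.g M.e) (sqIso_p₁ M.g M.b)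
    (sqIso_p₂ M.g M.b) hdeg htr htr' hp hq hh
  refine ⟨α, γ, h1, fun u => ?_⟩
  rw [h2, ← hβ]
  rfl

end Model

end Pool.Agent.Lib.MP_4ca46c_ag.Vtc
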