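import Mathlib
import Pool.Agent.Lib.MP_4ca46c_ag.Vtc.Spz

/-!
# The main argument: algebraic classes on the square of the generic fibre
-/

namespace Pool.Agent.Lib.MP_4ca46c_ag.Vtc

open CategoryTheory Limits AlgebraicGeometry
open Pool.Agent.Lib.MP_4ca46c_ag.Sign Pool.Agent.Lib.MP_4ca46c_ag.Hyp
open Pool.Agent.Lib.MP_4ca46c_ag.Std

variable {k₀ K : Type} [Field k₀] [Field K] {D : CohData k₀ K} (h : D.IsTheory)

/-- The conjugation of the fibre. -/
noncomputable def cj {X S P : Sch k₀} (g : X ⟶ S) (e : P ⟶ S) (σ : P ⟶ P) (hσ : σ ≫ e = e) :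
    pullback g e ⟶ pullback g e :=
  pullback.lift (pullback.fst g e) (pullback.snd g e ≫ σ)
    (by rw [Category.assoc, hσ, pullback.condition])

theorem cj_fst {X S P : Sch k₀} (g : X ⟶ S) (e : P ⟶ S) (σ : P ⟶ P) (hσ : σ ≫ e = e) :
    cj g e σ hσ ≫ pullback.fst g e = pullback.fst g e := pullback.lift_fst _ _ _

theorem cj_snd {X S P : Sch k₀} (g : X ⟶ S) (e : P ⟶ S) (σ : P ⟶ P) (hσ : σ ≫ e = e) :
    cj g e σ hσ ≫ pullback.snd g e = pullback.snd g e ≫ σ := pullback.lift_snd _ _ _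

theorem cj_cj {X S P : Sch k₀} (g : X ⟶ S) (e : P ⟶ S) (σ τ : P ⟶ P) (hσ : σ ≫ e = e)
    (hτ : τ ≫ e = e) (hστ : σ ≫ τ = 𝟙 P) : cj g e σ hσ ≫ cj g e τ hτ = 𝟙 _ := by
  apply pullback.hom_ext
  · rw [Category.assoc, cj_fst, cj_fst, Category.id_comp]
  · rw [Category.assoc, cj_snd, ← Category.assoc, cj_snd, Category.assoc, hστ, Category.comp_id,
      Category.id_comp]

theorem fibm_isPullback {X X' S P : Sch k₀} {g : X ⟶ S} {g' : X' ⟶ S} (m : X ⟶ X')
    (hm : m ≫ g' = g) (b : P ⟶ S) :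
    IsPullback (pullback.fst g b) (fibm m hm b) m (pullback.fst g' b) := by
  refine IsPullback.of_bot (v₂₁ := pullback.snd g' b) (v₂₂ := g') (h₃₁ := b) ?_ ?_
    (IsPullback.of_hasPullback g' b)
  · rw [hm, fibm, pullback.lift_snd]
    exact IsPullback.of_hasPullback g b
  · rw [fibm, pullback.lift_fst]

include h in
/-- A surjective morphism of varieties of the same dimension has nonzero degree. -/
theorem exists_degree (hF : PushFund D) (k : Type) [Field k] [Algebra k₀ k] [IsAlgClosed k]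
    (X Y : Sch k₀) (x : X ⟶ pt k₀ k) (y : Y ⟶ pt k₀ k) (f : X ⟶ Y) (n : ℕ) (hf : f ≫ y = x)
    (hx : IsVar x n) (hy : IsVar y n) (hs : Surjective f.left) (hp : IsProper f.left) :
    ∃ a : D.CH X, D.Codim 0 a ∧ D.pf f a = D.fund Y := by
  subst hf
  have h1 := hF k X Y y f n hx hy hs
  have h2 := h.chow.codimPush k X Y _ y f rfl hx.isSm hy.isSm hp n n hx.smooth hy.smooth 0 0 rfl
    (D.fund X) (h.chow.codimMul.1 X)
  obtain ⟨q, hq⟩ := h.chow.codimZero Y hy.sm hy.connectedSpace _ h2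
  have hq0 : q ≠ 0 := by
    rintro rfl
    rw [zero_smul] at hq
    exact h1 hq
  refine ⟨q⁻¹ • D.fund X, Submodule.smul_mem _ _ (h.chow.codimMul.1 X), ?_⟩
  have h3 : D.pf f (q⁻¹ • D.fund X) = q⁻¹ • D.pf f (D.fund X) := map_smul (D.push f) _ _
  rw [h3, hq, smul_smul, inv_mul_cancel₀ hq0, one_smul]

include h in
/-- The variational Tate conjecture for another fibre product. -/
theorem Fibration.VarTate.of_isPullback {Φ : Fibration k₀} (hV : Φ.VarTate D) {Y : Sch k₀}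
    {ι : Y ⟶ Φ.W.X} {y : Y ⟶ pt k₀ Φ.W.k} (hP : IsPullback ι y Φ.f Φ.b) (p : ℕ) (a : D.CH Y)
    (ha : D.Codim p a) (w : D.H Φ.W.X) (hw : D.cls a = D.pbH ι w) :
    ∃ a' : D.CH Φ.W.X, D.Codim p a' ∧ D.cls a = D.cls (D.pb ι a') := by
  let i : Y ≅ Φ.Y := IsPullback.isoIsPullback _ _ hP Φ.isFibre
  have hi : i.hom ≫ Φ.ι = ι := IsPullback.isoIsPullback_hom_fst _ _ _ _
  have hi' : i.inv ≫ ι = Φ.ι := by rw [← hi, i.inv_hom_id_assoc]
  have hiy : i.hom ≫ Φ.y = y := IsPullback.isoIsPullback_hom_snd _ _ _ _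
  have vY : IsVar y Φ.m := by
    have h1 : IsPullback i.hom y Φ.y (𝟙 _) :=
      IsPullback.of_horiz_isIso ⟨by rw [hiy, Category.comp_id]⟩
    exact genclass_var h1 Φ.isVar
  have wY : IsWeil Y := vY.isWeil
  have wF : IsWeil Φ.Y := Φ.isVar.isWeil
  have wW : IsWeil Φ.W.X := Φ.W.isVar.isWeil
  obtain ⟨a', ha', h1⟩ := hV p (D.pb i.inv a) (h.chow.codimPull _ _ _ Φ.isVar.sm vY.sm _ _ ha)
    ⟨w, by rw [h.weil.clPull _ _ _ wF wY, hw, pbH_comp h _ _ wF wY wW, hi']⟩
  refine ⟨a', ha', ?_⟩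
  have h2 : D.pbH i.hom (D.cls (D.pb i.inv a)) = D.cls a := by
    rw [h.weil.clPull _ _ _ wF wY, pbH_comp h _ _ wY wF wY, i.hom_inv_id,
      h.weil.pullHFunctor.1 _ wY]
  rw [← h2, h1, h.weil.clPull _ _ _ wF wW, pbH_comp h _ _ wY wF wW, hi,
    h.weil.clPull _ _ _ wY wW]

namespace Model

variable {Φ : Fibration k₀} {V : PrVar k₀} (M : Model Φ V)

include h in
/-- **The main argument.** A class on the square of the generic fibre which is invariant under
conjugation and specializes to an algebraic class is algebraic. -/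
theorem core (hF : HasFamilies D) (hV : Φ.VarTate D) {sp}
    (hs : IsSpec D M.b M.e sp) (u : D.H (pullback (pullback.fst M.g M.g ≫ M.g) M.e))
    (hu : ∀ (σ : V.k →ₐ[k₀] V.k) (hσ : ptMap k₀ σ ≫ M.e = M.e), IsIso (ptMap k₀ σ) →
      D.pbH (cj (pullback.fst M.g M.g ≫ M.g) M.e _ hσ) u = u)
    (p : ℕ) (a : D.CH (pullback (pullback.fst M.g M.g ≫ M.g) M.b)) (ha : D.Codim p a)
    (hsp : sp _ (pullback.fst M.g M.g ≫ M.g) u = D.cls a) :
    ∃ a' : D.CH (pullback (pullback.fst M.g M.g ≫ M.g) M.e), D.Codim p a' ∧ D.cls a' = u := by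
  have hF2 := M.isFam.sq
  have hFY := M.isFamY
  have vE := hF2.fibre M.e
  have vB := hF2.fibre M.b
  have vYe := hFY.fibre M.e
  have vYb := hFY.fibre M.b
  have wE : IsWeil (pullback (pullback.fst M.g M.g ≫ M.g) M.e) := vE.isWeil
  have wB : IsWeil (pullback (pullback.fst M.g M.g ≫ M.g) M.b) := vB.isWeil
  have wYe : IsWeil (pullback M.h M.e) := vYe.isWeil
  have wYb : IsWeil (pullback M.h M.b) := vYb.isWeil
  have wW : IsWeil Φ.W.X := Φ.W.isVar.isWeil
  have hj : Mono M.j := M.mono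
  have hq : Mono M.q := ⟨fun a b hab => M.isPullback.hom_ext hab (by
    rw [← cancel_mono M.j, Category.assoc, Category.assoc, ← M.isPullback.w, ← Category.assoc,
      ← Category.assoc, hab])⟩
  set φe := fibm (g := M.h) (g' := pullback.fst M.g M.g ≫ M.g) M.φ M.φ_str M.e with hφe
  set φb := fibm (g := M.h) (g' := pullback.fst M.g M.g ≫ M.g) M.φ M.φ_str M.b with hφb
  have he1 : φe ≫ pullback.fst _ _ = pullback.fst _ _ ≫ M.φ := pullback.lift_fst _ _ _
  have he2 : φe ≫ pullback.snd _ _ = pullback.snd _ _ := pullback.lift_snd _ _ _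
  -- the invariant class is the restriction of a class of `W`
  have hinv : ∀ (σ : V.k →ₐ[k₀] V.k) (s : pullback M.h M.e ⟶ pullback M.h M.e),
      IsIso (ptMap k₀ σ) → ptMap k₀ σ ≫ M.e ≫ M.j = M.e ≫ M.j →
      s ≫ pullback.fst M.h M.e ≫ M.q = pullback.fst M.h M.e ≫ M.q →
      s ≫ pullback.snd M.h M.e = pullback.snd M.h M.e ≫ ptMap k₀ σ →
      D.pbH s (D.pbH φe u) = D.pbH φe u := by
    intro σ s hiso h1 h2 h3
    have hσ : ptMap k₀ σ ≫ M.e = M.e := by
      rw [← cancel_mono M.j, Category.assoc]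
      exact h1
    have hs1 : s ≫ pullback.fst M.h M.e = pullback.fst M.h M.e := by
      rw [← cancel_mono M.q, Category.assoc]
      exact h2
    have h4 : s ≫ φe = φe ≫ cj (pullback.fst M.g M.g ≫ M.g) M.e _ hσ := by
      apply pullback.hom_ext
      · rw [Category.assoc, he1, ← Category.assoc, hs1, Category.assoc, cj_fst, he1]
      · rw [Category.assoc, he2, h3, Category.assoc, cj_snd, ← Category.assoc, he2]
    rw [pbH_comp h _ _ wYe wYe wE, h4, ← pbH_comp h _ _ wYe wE wE, hu σ hσ hiso]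
  obtain ⟨w, hw⟩ := hF.fixedPart Φ V.k (M.e ≫ M.j) (pullback M.h M.e)
    (pullback.snd M.h M.e) (pullback.fst M.h M.e ≫ M.q) M.generic
    (IsPullback.paste_horiz (IsPullback.of_hasPullback M.h M.e) M.isPullback) vYe
    (D.pbH φe u) hinv
  -- specialization, and the variational Tate conjecture
  have c1 := hs.const M.Y M.h _ Φ.W.X M.q hFY wW
  have c2 : sp M.Y M.h (D.pbH φe u) =
      D.pbH φb (sp _ (pullback.fst M.g M.g ≫ M.g) u) :=
    hs.map M.Y _ M.h (pullback.fst M.g M.g ≫ M.g) _ _ M.φ M.φ_str hFY hF2 u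
  have c3 : D.cls (D.pb φb a) = D.pbH φb (D.cls a) := h.weil.clPull _ _ φb wYb wB a
  have c4 : D.cls (D.pb φb a) = D.pbH (pullback.fst M.h M.b ≫ M.q) w := by
    rw [c3, ← hsp, ← c2, ← hw]
    exact c1 w
  have hPb : IsPullback (pullback.fst M.h M.b ≫ M.q) (pullback.snd M.h M.b) Φ.f Φ.b := by
    rw [← M.b_j]
    exact IsPullback.paste_horiz (IsPullback.of_hasPullback M.h M.b) M.isPullback
  obtain ⟨a', ha', h5⟩ := hV.of_isPullback h hPb p (D.pb φb a)
    (h.chow.codimPull _ _ φb vYb.sm vB.sm p a ha) w c4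
  obtain ⟨α, hα⟩ := hs.iso M.Y M.h _ hFY
  have h6 : D.pbH (pullback.fst M.h M.e ≫ M.q) (D.cls a') = D.pbH φe u := by
    apply α.injective
    rw [← hα, ← hα]
    refine (c1 (D.cls a')).trans ?_
    rw [c2, hsp, ← c3, h5]
    exact (h.weil.clPull _ _ (pullback.fst M.h M.b ≫ M.q) wYb wW a').symm
  -- push-forward
  have hsur : Surjective φe.left := MorphismProperty.of_isPullback (P := @Surjective)
    ((fibm_isPullback M.φ M.φ_str M.e).map (Over.forget _)) M.surjective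
  have hpr : IsProper φe.left := by
    have h7 : IsProper (φe ≫ pullback.snd (pullback.fst M.g M.g ≫ M.g) M.e).left := by
      rw [he2]
      exact vYe.proper
    have h8 := vE.proper
    rw [Over.comp_left] at h7
    exact IsProper.of_comp φe.left (pullback.snd (pullback.fst M.g M.g ≫ M.g) M.e).left
  have vE' : IsVar (pullback.snd (pullback.fst M.g M.g ≫ M.g) M.e) Φ.m := by
    rw [M.dim, two_mul]
    exact vE
  obtain ⟨c, hc, hpf⟩ := exists_degree h hF.pushFund V.k _ _ (pullback.snd M.h M.e)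
    (pullback.snd (pullback.fst M.g M.g ≫ M.g) M.e) φe Φ.m he2 vYe vE' hsur hpr
  refine ⟨D.pf φe (D.mul c (D.pb (pullback.fst M.h M.e ≫ M.q) a')), ?_, ?_⟩
  · refine h.chow.codimPush _ _ _ _ _ φe he2 vYe.isSm vE'.isSm hpr Φ.m Φ.m vYe.smooth
      vE'.smooth (0 + p) p (by omega) _ ?_
    exact h.chow.codimMul.2 _ _ _ _ _ hc
      (h.chow.codimPull _ _ _ vYe.sm Φ.W.isVar.sm p a' ha')
  · refine sub_eq_zero.1 (h.weil.poincare _ wE _ fun v => ?_)
    have e1 := h.weil.clPush _ _ _ (pullback.snd M.h M.e)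
      (pullback.snd (pullback.fst M.g M.g ≫ M.g) M.e) φe he2 Φ.m Φ.m vYe vE'
    have e2 := e1 (D.mul c (D.pb (pullback.fst M.h M.e ≫ M.q) a')) v
    have e3 := e1 c (D.cup u v)
    have e4 : D.cls (D.mul c (D.pb (pullback.fst M.h M.e ≫ M.q) a')) =
        D.cup (D.cls c) (D.pbH φe u) := by
      rw [← h6, ← h.weil.clPull _ _ _ wYe wW]
      exact map_mul (D.cl _) _ _
    have e5 : D.cls (D.fund (pullback (pullback.fst M.g M.g ≫ M.g) M.e)) = D.oneH _ :=
      map_one (D.cl _)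
    rw [hpf, e5] at e3
    have e6 : D.cup (D.oneH _) (D.cup u v) = D.cup u v := one_mul _
    rw [e6] at e3
    have e7 : D.cup (D.cup (D.cls c) (D.pbH φe u)) (D.pbH φe v) =
        D.cup (D.cls c) (D.pbH φe (D.cup u v)) := by
      change _ * _ * _ = _ * D.pullH φe (u * v)
      rw [map_mul, mul_assoc]
      rfl
    rw [e4, e7, ← e3] at e2
    change D.tr _ ((_ - u) * v) = 0
    rw [sub_mul, map_sub, sub_eq_zero]
    exact e2

end Model

end Pool.Agent.Lib.MP_4ca46c_ag.Vtc
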