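import Mathlib
import Pool.Agent.Lib.MP_4ca46c_ag.Vtc.ModCore
import Pool.Agent.Lib.MP_4ca46c_ag.Vtc.BC

/-!
# From the special fibre to the generic fibre, and descent
-/

namespace Pool.Agent.Lib.MP_4ca46c_ag.Vtc

open CategoryTheory Limits AlgebraicGeometry
open Pool.Agent.Lib.MP_4ca46c_ag.Sign Pool.Agent.Lib.MP_4ca46c_ag.Hyp
open Pool.Agent.Lib.MP_4ca46c_ag.Std

variable {k₀ K : Type} [Field k₀] [Field K] {D : CohData k₀ K}

/-- Operators defined in terms of the cohomology ring with trace and the class `h`. -/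
structure Canon (D : CohData k₀ K) (P : ∀ V : PrVar k₀, (D.H V.X →ₗ[K] D.H V.X) → Prop) :
    Prop where
  uniq : ∀ V f f', P V f → P V f' → f = f'
  tr : ∀ (V₁ V₂ : PrVar k₀) (α : D.H V₁.X ≃ₐ[K] D.H V₂.X) (β : D.H V₁.sq ≃ₐ[K] D.H V₂.sq),
    Transp D V₁ V₂ α β → ∀ f, P V₁ f → P V₂ (α.toLinearEquiv.conj f)

theorem canon_pr (h : D.IsTheory) [CharZero K] (i : ℕ) : Canon D (fun V f => IsPr D V i f) where
  uniq V _ _ h1 h2 := pr_unique h V h1 h2
  tr _ _ _ _ t _ h1 := t.pr h h1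

theorem canon_inv (h : D.IsTheory) (h' : IsStandard D) [CharZero K] (i j : ℕ) :
    Canon D (fun V f => i + j = V.n ∧ IsInv D V i j f) where
  uniq V _ _ h1 h2 := inv_unique h V h' h1.1 h1.2 h2.2
  tr _ _ _ _ t _ h1 := ⟨h1.1.trans t.n, t.inv h h1.2⟩

theorem conj_symm_conj {A B : Type} [Ring A] [Ring B] [Algebra K A] [Algebra K B] (α : A ≃ₐ[K] B)
    (f : B →ₗ[K] B) : α.toLinearEquiv.conj (α.symm.toLinearEquiv.conj f) = f := by
  ext x
  change α (α.symm (f (α.symm.symm (α.symm x)))) = f x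
  rw [AlgEquiv.apply_symm_apply, AlgEquiv.symm_symm, AlgEquiv.apply_symm_apply]

section

variable (h : D.IsTheory)

include h in
/-- Transport by pull-back preserves algebraic operators. -/
theorem Transp.algebraic {V₁ V₂ : PrVar k₀} {α : D.H V₁.X ≃ₐ[K] D.H V₂.X}
    {β : D.H V₁.sq ≃ₐ[K] D.H V₂.sq} (t : Transp D V₁ V₂ α β) (g₂ : V₂.sq ⟶ V₁.sq)
    (hβ : ∀ u, β u = D.pbH g₂ u) {r : ℤ} {f : D.H V₁.X →ₗ[K] D.H V₁.X}
    (hf : V₁.Algebraic D r f) : V₂.Algebraic D r (α.toLinearEquiv.conj f) := by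
  have s₁ := Var.isVar_prod V₁.isVar V₁.isVar
  have s₂ := Var.isVar_prod V₂.isVar V₂.isVar
  obtain ⟨a, ha, hr⟩ := hf
  have h1 : Rep D V₂ (β (D.cls a)) (α.toLinearEquiv.conj f) := t.rep hr
  have h2 : β (D.cls a) = D.cls (D.pb g₂ a) := by
    rw [hβ]
    exact (h.weil.clPull _ _ g₂ s₂.isWeil s₁.isWeil a).symm
  rw [h2] at h1
  refine ⟨D.pb g₂ a, ?_, h1⟩
  rcases ha with ⟨h3, h4⟩ | ⟨h3, rfl⟩
  · rw [t.n] at h3 h4
    exact Or.inl ⟨h3, h.chow.codimPull _ _ g₂ s₂.sm s₁.sm _ a h4⟩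
  · rw [t.n] at h3
    exact Or.inr ⟨h3, map_zero (D.pull g₂)⟩

include h in
/-- Transport by pull-back preserves algebraicity of canonical operators. -/
theorem Transp.canon [CharZero K] {P : ∀ V : PrVar k₀, (D.H V.X →ₗ[K] D.H V.X) → Prop}
    (hP : Canon D P) {V₁ V₂ : PrVar k₀} {α : D.H V₁.X ≃ₐ[K] D.H V₂.X}
    {β : D.H V₁.sq ≃ₐ[K] D.H V₂.sq} (t : Transp D V₁ V₂ α β) (g₂ : V₂.sq ⟶ V₁.sq)
    (hβ : ∀ u, β u = D.pbH g₂ u) {r : ℤ} (H : ∀ f, P V₁ f → V₁.Algebraic D r f) :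
    ∀ f, P V₂ f → V₂.Algebraic D r f := by
  intro f hf
  have h1 := t.algebraic h g₂ hβ (H _ (hP.tr _ _ _ _ (t.symm h) f hf))
  rwa [conj_symm_conj] at h1

end

namespace Model

variable (h : D.IsTheory) [IsAlgClosed k₀] {Φ : Fibration k₀} {V : PrVar k₀} (M : Model Φ V)

include h in
/-- Transport by conjugation. -/
theorem transp_conj (τ : pt k₀ V.k ⟶ pt k₀ V.k) [IsIso τ] (hτ : τ ≫ M.e = M.e) :
    ∃ (α : D.H M.generic'.X ≃ₐ[K] D.H M.generic'.X) (β : D.H M.generic'.sq ≃ₐ[K] D.H M.generic'.sq),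
      Transp D M.generic' M.generic' α β ∧
      ∀ u, β u = D.pbH (sqIso M.g M.e).hom (D.pbH (cj (pullback.fst M.g M.g ≫ M.g) M.e _ hτ)
        (D.pbH (sqIso M.g M.e).inv u)) := by
  have hτ' : inv τ ≫ M.e = M.e := by rw [IsIso.inv_comp_eq, hτ]
  let c : pullback M.g M.e ≅ pullback M.g M.e := ⟨cj M.g M.e _ hτ, cj M.g M.e _ hτ',
    cj_cj _ _ _ _ _ _ (IsIso.hom_inv_id τ), cj_cj _ _ _ _ _ _ (IsIso.inv_hom_id τ)⟩
  let c₂ : pullback (pullback.fst M.g M.g ≫ M.g) M.e ≅ pullback (pullback.fst M.g M.g ≫ M.g) M.e :=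
    ⟨cj _ M.e _ hτ, cj _ M.e _ hτ', cj_cj _ _ _ _ _ _ (IsIso.hom_inv_id τ),
      cj_cj _ _ _ _ _ _ (IsIso.inv_hom_id τ)⟩
  have ic : IsIso c.hom := ⟨c.inv, c.hom_inv_id, c.inv_hom_id⟩
  have ic₂ : IsIso c₂.hom := ⟨c₂.inv, c₂.hom_inv_id, c₂.inv_hom_id⟩
  have vE := M.isFam.sq.fibre M.e
  have wE : IsWeil (pullback (pullback.fst M.g M.g ≫ M.g) M.e) := vE.isWeil
  have w : IsWeil (pullback M.g M.e) := M.generic'.isVar.isWeil
  have wP : IsWeil (PSo k₀ k₀ V.κ) := (isVar_PSo k₀ k₀ V.κ).isWeil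
  have k1 : cj (pullback.fst M.g M.g ≫ M.g) M.e _ hτ ≫
      fibm (g' := M.g) (pullback.fst M.g M.g) rfl M.e =
      fibm (g' := M.g) (pullback.fst M.g M.g) rfl M.e ≫ cj M.g M.e _ hτ := by
    apply pullback.hom_ext
    · rw [Category.assoc, pullback.lift_fst, Category.assoc, cj_fst, pullback.lift_fst,
        ← Category.assoc, cj_fst]
    · rw [Category.assoc, pullback.lift_snd, Category.assoc, cj_snd, cj_snd, ← Category.assoc,
        pullback.lift_snd]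
  have k2 : cj (pullback.fst M.g M.g ≫ M.g) M.e _ hτ ≫
      fibm (g' := M.g) (pullback.snd M.g M.g) pullback.condition.symm M.e =
      fibm (g' := M.g) (pullback.snd M.g M.g) pullback.condition.symm M.e ≫
        cj M.g M.e _ hτ := by
    apply pullback.hom_ext
    · rw [Category.assoc, pullback.lift_fst, Category.assoc, cj_fst, pullback.lift_fst,
        ← Category.assoc, cj_fst]
    · rw [Category.assoc, pullback.lift_snd, Category.assoc, cj_snd, cj_snd, ← Category.assoc,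
        pullback.lift_snd]
  obtain ⟨β, h1, h2⟩ := transp_of_iso_sq h M.generic' M.generic' (sqIso M.g M.e) (sqIso M.g M.e)
    wE wE rfl (isoH h c w w) (isoH h c₂ wE wE) _ _ _ _ (sqIso_p₁ M.g M.e) (sqIso_p₂ M.g M.e)
    (sqIso_p₁ M.g M.e) (sqIso_p₂ M.g M.e)
    (fun i u hu => h.weil.degPull _ _ c.hom w w i u hu)
    (fun u => h.weil.traceIso _ _ c.hom ic w w u)
    (fun u => h.weil.traceIso _ _ c₂.hom ic₂ wE wE u)
    (fun u => (pbH_comp h _ _ wE wE w u).trans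
      ((congrArg (fun q => D.pbH q u) k1).trans (pbH_comp h _ _ wE w w u).symm))
    (fun u => (pbH_comp h _ _ wE wE w u).trans
      ((congrArg (fun q => D.pbH q u) k2).trans (pbH_comp h _ _ wE w w u).symm)) (by
      refine (congrArg _ (M.cls_generic h)).trans (Eq.trans ?_ (M.cls_generic h).symm)
      refine (pbH_comp h _ _ w w wP _).trans ?_
      change D.pbH (cj M.g M.e _ hτ ≫ pullback.fst M.g M.e ≫ M.toP ≫ toPS Φ.W.k V.κ) _ = _
      rw [← Category.assoc, cj_fst])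
  exact ⟨_, β, h1, h2⟩

include h in
/-- **Canonical operators.** If a canonical operator is algebraic on the special fibre, then it is
algebraic on the generic fibre. -/
theorem canon_generic (hF : HasFamilies D) [CharZero K] (hV : Φ.VarTate D)
    {P : ∀ V : PrVar k₀, (D.H V.X →ₗ[K] D.H V.X) → Prop} (hP : Canon D P) {r : ℤ}
    (H : ∀ f, P M.special f → M.special.Algebraic D r f) :
    ∀ f, P M.generic' f → M.generic'.Algebraic D r f := by
  intro f hf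
  have hF2 := M.isFam.sq
  have vE := hF2.fibre M.e
  have vB := hF2.fibre M.b
  have wE : IsWeil (pullback (pullback.fst M.g M.g ≫ M.g) M.e) := vE.isWeil
  have wB : IsWeil (pullback (pullback.fst M.g M.g ≫ M.g) M.b) := vB.isWeil
  have s₁ := Var.isVar_prod M.generic'.isVar M.generic'.isVar
  have s₂ := Var.isVar_prod M.special.isVar M.special.isVar
  have s₁w : IsWeil (pullback (pullback.snd M.g M.e) (pullback.snd M.g M.e)) := s₁.isWeil
  have s₂w : IsWeil (pullback (pullback.snd M.g M.b) (pullback.snd M.g M.b)) := s₂.isWeil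
  obtain ⟨sp, hs⟩ := hF.specialization Φ.W.k V.k M.S M.b M.e M.connected
  obtain ⟨α, β, t, hβ⟩ := M.spz h hs
  obtain ⟨u, hu⟩ := rep_exists h M.generic' f
  obtain ⟨a, ha, hrep⟩ := H _ (hP.tr _ _ _ _ t f hf)
  have e1 : β u = D.cls a := rep_unique h M.special (t.rep hu) hrep
  -- invariance
  have hinv : ∀ (σ : V.k →ₐ[k₀] V.k) (hσ : ptMap k₀ σ ≫ M.e = M.e), IsIso (ptMap k₀ σ) →
      D.pbH (cj (pullback.fst M.g M.g ≫ M.g) M.e _ hσ) (D.pbH (sqIso M.g M.e).inv u) =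
        D.pbH (sqIso M.g M.e).inv u := by
    intro σ hσ hiso
    obtain ⟨α', β', t', hβ'⟩ := M.transp_conj (D := D) h (ptMap k₀ σ) hσ
    have h1 := hP.uniq _ _ _ (hP.tr _ _ _ _ t' f hf) hf
    have h2 := t'.rep hu
    rw [h1] at h2
    have h3 := rep_unique h M.generic' h2 hu
    rw [hβ'] at h3
    have h4 : ∀ v, D.pbH (sqIso M.g M.e).inv (D.pbH (sqIso M.g M.e).hom v) = v := fun v =>
      (isoH (D := D) h (sqIso M.g M.e) s₁w wE).symm_apply_apply v
    rw [← h4 (D.pbH (cj (pullback.fst M.g M.g ≫ M.g) M.e _ hσ) (D.pbH (sqIso M.g M.e).inv u)), h3]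
  have e2 : sp _ (pullback.fst M.g M.g ≫ M.g) (D.pbH (sqIso M.g M.e).inv u) =
      D.cls (D.pb (sqIso M.g M.b).inv a) := by
    have h4 : ∀ v, D.pbH (sqIso M.g M.b).inv (D.pbH (sqIso M.g M.b).hom v) = v := fun v =>
      (isoH (D := D) h (sqIso M.g M.b) s₂w wB).symm_apply_apply v
    have h5 := hβ u
    rw [e1] at h5
    rw [← h4 (sp _ _ _), ← h5]
    exact (h.weil.clPull _ _ _ wB s₂w a).symm
  have e3 : ∀ v, D.pbH (sqIso M.g M.e).hom (D.pbH (sqIso M.g M.e).inv v) = v := fun v =>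
    (isoH (D := D) h (sqIso M.g M.e) s₁w wE).apply_symm_apply v
  rcases ha with ⟨h3, h4⟩ | ⟨h3, h4⟩
  · obtain ⟨a', ha', hca⟩ := M.core h hF hV hs (D.pbH (sqIso M.g M.e).inv u) hinv _
      (D.pb (sqIso M.g M.b).inv a) (h.chow.codimPull _ _ _ vB.sm s₂.sm _ a h4) e2
    refine ⟨D.pb (sqIso M.g M.e).hom a', Or.inl ⟨h3,
      h.chow.codimPull _ _ _ s₁.sm vE.sm _ a' ha'⟩, ?_⟩
    have h5 : D.cls (D.pb (sqIso M.g M.e).hom a') = u := by
      rw [h.weil.clPull _ _ _ s₁w wE, hca]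
      exact e3 u
    change Rep D M.generic' _ f
    exact h5 ▸ hu
  · refine ⟨0, Or.inr ⟨h3, rfl⟩, ?_⟩
    have h5 : D.cls (0 : D.CH M.generic'.sq) = u := by
      have h6 : u = 0 := by
        apply β.injective
        rw [e1, h4, map_zero]
        exact map_zero (D.cl _)
      rw [h6]
      exact map_zero (D.cl _)
    change Rep D M.generic' _ f
    exact h5 ▸ hu

end Model

end Pool.Agent.Lib.MP_4ca46c_ag.Vtc
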