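import Mathlib
import Pool.Agent.Lib.MP_4ca46c_ag.Vtc.St

/-!
# Descent
-/

namespace Pool.Agent.Lib.MP_4ca46c_ag.Vtc

open CategoryTheory Limits AlgebraicGeometry
open Pool.Agent.Lib.MP_4ca46c_ag.Sign Pool.Agent.Lib.MP_4ca46c_ag.Hyp
open Pool.Agent.Lib.MP_4ca46c_ag.Std

variable {k₀ : Type} [Field k₀]

/-- `V` is defined over the algebraically closed field `F`: it is the base change of a smooth
projective variety over `F`, with the projective embedding. -/
structure Descent (F : Type) [Field F] [Algebra k₀ F] (V : PrVar k₀) where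
  X : Sch k₀
  str : Mor X (pt k₀ F)
  isVar : IsVar str V.n
  emb : Mor X (PSo k₀ F V.κ)
  isClosed : IsClosedImmersion emb.left
  emb_str : emb ≫ PSo.str k₀ F V.κ = str
  e : Mor (pt k₀ V.k) (pt k₀ F)
  g : Mor V.X X
  isPullback : IsPullback g V.str str e
  g_emb : g ≫ emb ≫ toPS F V.κ = V.emb ≫ toPS V.k V.κ

/-- Every smooth projective variety is defined over an algebraically closed field of finite
transcendence degree over `k₀`. -/
def HasDescent (k₀ : Type) [Field k₀] : Prop := ∀ V : PrVar k₀, ∃ (F : Type) (_ : Field F)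
  (_ : Algebra k₀ F) (_ : IsAlgClosed F), Algebra.trdeg k₀ F < Cardinal.aleph0 ∧
  Nonempty (Descent F V)

end Pool.Agent.Lib.MP_4ca46c_ag.Vtc
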