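import Mathlib
import Pool.Agent.Lib.MP_4ca46c_ag.Vtc.Step
import Pool.Agent.Lib.MP_4ca46c_ag.Vtc.DescSt
import Pool.Agent.Lib.MP_4ca46c_ag.Std.Trdeg

/-!
# The step of the induction, and extension of the base field
-/

namespace Pool.Agent.Lib.MP_4ca46c_ag.Vtc

open CategoryTheory Limits AlgebraicGeometry
open Pool.Agent.Lib.MP_4ca46c_ag.Sign Pool.Agent.Lib.MP_4ca46c_ag.Hyp
open Pool.Agent.Lib.MP_4ca46c_ag.Std

variable {k₀ K : Type} [Field k₀] [Field K] {D : CohData k₀ K} (h : D.IsTheory)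

namespace Model

variable {Φ : Fibration k₀} {V : PrVar k₀} (M : Model Φ V)

include h in
theorem transp_iso : ∃ (α : D.H M.generic'.X ≃ₐ[K] D.H V.X) (β : D.H M.generic'.sq ≃ₐ[K] D.H V.sq)
    (g₂ : V.sq ⟶ M.generic'.sq), Transp D M.generic' V α β ∧ ∀ u, β u = D.pbH g₂ u := by
  have hc : V.str ≫ 𝟙 _ = M.iso.hom ≫ pullback.snd M.g M.e := by
    rw [Category.comp_id]
    exact (IsPullback.isoPullback_hom_snd _).symm
  let g₂ : V.sq ⟶ M.generic'.sq := pullback.map V.str V.str (pullback.snd M.g M.e)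
    (pullback.snd M.g M.e) M.iso.hom M.iso.hom (𝟙 _) hc hc
  have ig₂ : IsIso g₂ := by
    change IsIso (pullback.map V.str V.str (pullback.snd M.g M.e)
      (pullback.snd M.g M.e) M.iso.hom M.iso.hom (𝟙 _) hc hc)
    infer_instance
  have hh : D.pbH M.iso.hom (D.cls (M.generic'.h D)) = D.cls (V.h D) := by
    refine (congrArg _ (cls_h h M.generic')).trans ?_
    refine (pbH_comp h _ _ V.isVar.isWeil M.generic'.isVar.isWeil
      (isVar_PSo k₀ V.k V.κ).isWeil _).trans ?_
    change D.pbH (M.iso.hom ≫ M.iso.inv ≫ V.emb) _ = _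
    rw [Iso.hom_inv_id_assoc]
    exact (cls_h h V).symm
  obtain ⟨α, β, t, -, hβ⟩ := transp_of_isIso h M.generic' V rfl M.iso.hom g₂
    (pullback.lift_fst _ _ _) (pullback.lift_snd _ _ _)
    ⟨M.iso.inv, M.iso.hom_inv_id, M.iso.inv_hom_id⟩ ig₂ hh
  exact ⟨α, β, g₂, t, hβ⟩

variable [IsAlgClosed k₀]

include h M in
/-- **The step.** Canonical operators. -/
theorem canon_step (hF : HasFamilies D) [CharZero K] (hV : Φ.VarTate D)
    {P : ∀ V : PrVar k₀, (D.H V.X →ₗ[K] D.H V.X) → Prop} (hP : Canon D P) {r : ℤ}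
    (H : ∀ f, P M.special f → M.special.Algebraic D r f) :
    ∀ f, P V f → V.Algebraic D r f := by
  obtain ⟨α, β, g₂, t, hβ⟩ := M.transp_iso (D := D) h
  exact t.canon h hP g₂ hβ (M.canon_generic h hF hV hP H)

variable (h' : IsStandard D)

include h h' M in
theorem step_lefschetz (hF : HasFamilies D) [CharZero K] (hV : Φ.VarTate D)
    (hB : M.special.LefschetzConj D) : V.LefschetzConj D := by
  have h1 := (lef_iff' h M.special h').1 hB
  rw [lef_iff' h V h']
  intro i j θ hij hθ
  exact M.canon_step h hF hV (canon_inv h h' i j) (fun f hf => h1 i j f hf.1 hf.2) θ ⟨hij, hθ⟩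

include h h' M in
theorem step_kunneth (hF : HasFamilies D) [CharZero K] (hV : Φ.VarTate D)
    (hC : M.special.KunnethConj D) : V.KunnethConj D := by
  have h1 := (kun_iff' h M.special h').1 hC
  rw [kun_iff' h V h']
  intro i π hπ
  exact M.canon_step h hF hV (canon_pr h i) (fun f hf => h1 i f hf) π hπ

end Model

include h in
theorem Fibration.varTate (h' : IsStandard D) (hF : HasFamilies D) [CharZero K]
    (Φ : Fibration k₀) (hW : Φ.W.LefschetzConj D) : Φ.Splits D ∧ Φ.VarTate D :=
  Φ.splits h h' (hF.kernel _) (hF.relLefschetz _) hW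

section ext

variable {F k : Type} [Field F] [Algebra k₀ F] [IsAlgClosed F] [Field k] [Algebra k₀ k]
  [IsAlgClosed k] {X X' : Sch k₀} {x : X ⟶ pt k₀ F} {x' : X' ⟶ pt k₀ k} {g : X' ⟶ X}
  {e : pt k₀ k ⟶ pt k₀ F} {n : ℕ}

include h in
/-- The cohomology is invariant under extension of algebraically closed fields. -/
theorem ext_bij (hF : HasFamilies D) (hx : IsVar x n) (hg : IsPullback g x' x e) :
    Function.Bijective (D.pullH g) ∧ ∀ u, D.trace (D.pbH g u) = D.trace u := by
  have hconn : ConnectedSpace (pt k₀ F).left :=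
    inferInstanceAs (ConnectedSpace (Spec (CommRingCat.of F)))
  obtain ⟨sp, hs⟩ := hF.specialization F k (pt k₀ F) (𝟙 _) e hconn
  have vb : IsVar (pullback.snd x (𝟙 _)) n := genclass_var (IsPullback.of_hasPullback x (𝟙 _)) hx
  have ve : IsVar (pullback.snd x e) n := genclass_var (IsPullback.of_hasPullback x e) hx
  have vx' : IsVar x' n := genclass_var hg hx
  have hfam : IsFam x n := ⟨hx.smooth, hx.proper, hx.connected⟩
  obtain ⟨α, hα⟩ := hs.iso X x n hfam
  have hconst : ∀ u : D.H X, sp X x (D.pbH (pullback.fst x e) u) =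
      D.pbH (pullback.fst x (𝟙 (pt k₀ F))) u := by
    intro u
    have h1 := hs.const X x n X (𝟙 X) hfam hx.isWeil u
    rwa [Category.comp_id, Category.comp_id] at h1
  have ib : IsIso (pullback.fst x (𝟙 (pt k₀ F))) := inferInstance
  let i : X' ≅ pullback x e := hg.isoPullback
  have hi : i.hom ≫ pullback.fst x e = g := hg.isoPullback_hom_fst
  have b1 : Function.Bijective (D.pullH (pullback.fst x (𝟙 (pt k₀ F)))) :=
    (isoH (D := D) h (asIso (pullback.fst x (𝟙 (pt k₀ F)))) vb.isWeil hx.isWeil).bijective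
  have b2 : Function.Bijective (D.pullH i.hom) :=
    (isoH (D := D) h i vx'.isWeil ve.isWeil).bijective
  have b3 : ∀ u : D.H X, α (D.pullH (pullback.fst x e) u) =
      D.pullH (pullback.fst x (𝟙 (pt k₀ F))) u := fun u => (hα _).symm.trans (hconst u)
  have b4 : Function.Bijective (D.pullH (pullback.fst x e)) := by
    have h1 : (fun u => D.pullH (pullback.fst x e) u) =
        fun u => α.symm (D.pullH (pullback.fst x (𝟙 (pt k₀ F))) u) := by
      funext u
      rw [← b3, AlgEquiv.symm_apply_apply]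
    have h2 := α.symm.bijective.comp b1
    exact (congrArg Function.Bijective h1).mpr h2
  have b5' : ∀ u, D.pbH g u = D.pbH i.hom (D.pbH (pullback.fst x e) u) := by
    intro u
    rw [pbH_comp h i.hom (pullback.fst x e) vx'.isWeil ve.isWeil hx.isWeil u, hi]
  have b5 : (fun u => D.pullH g u) =
      fun u => D.pullH i.hom (D.pullH (pullback.fst x e) u) := funext b5'
  refine ⟨(congrArg Function.Bijective b5).mpr (b2.comp b4), fun u => ?_⟩
  rw [b5' u, h.weil.traceIso _ _ i.hom inferInstance vx'.isWeil ve.isWeil,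
    ← hs.trace X x n hfam, hconst, h.weil.traceIso _ _ _ ib vb.isWeil hx.isWeil]

end ext

namespace Descent

variable {F : Type} [Field F] [Algebra k₀ F] {V : PrVar k₀} (d : Descent F V)

/-- The variety over the smaller field. -/
noncomputable def base [IsAlgClosed F] : PrVar k₀ where
  k := F
  X := d.X
  str := d.str
  n := V.n
  isVar := d.isVar
  κ := V.κ
  i := V.i
  emb := d.emb
  isClosed := d.isClosed
  emb_str := d.emb_str

variable [IsAlgClosed F] [IsAlgClosed k₀]

include h in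
theorem transp (hF : HasFamilies D) :
    ∃ (α : D.H d.base.X ≃ₐ[K] D.H V.X) (β : D.H d.base.sq ≃ₐ[K] D.H V.sq),
      Transp D d.base V α β ∧ ∀ u, β u = D.pbH (sqMap d.isPullback) u := by
  have v1 := Var.isVar_prod d.isVar d.isVar
  obtain ⟨bg, tg⟩ := ext_bij (D := D) h hF d.isVar d.isPullback
  obtain ⟨bg₂, tg₂⟩ := ext_bij (D := D) h hF v1 (sqMap_isPullback d.isPullback)
  have hh : D.pbH d.g (D.cls (d.base.h D)) = D.cls (V.h D) := by
    refine (congrArg _ (cls_h₀ h d.base)).trans ?_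
    refine (pbH_comp h _ _ V.isVar.isWeil d.isVar.isWeil
      (isVar_PSo k₀ k₀ V.κ).isWeil _).trans ?_
    refine Eq.trans ?_ (cls_h₀ h V).symm
    exact congrArg (fun q => D.pbH q (D.cls (hyperplane D k₀ V.i))) d.g_emb
  exact ⟨_, _, transp_of_pull h d.base V rfl d.g (sqMap d.isPullback) (sqMap_fst _)
    (sqMap_snd _) bg bg₂ tg tg₂ hh, fun u => rfl⟩

include h in
theorem canon_desc (hF : HasFamilies D) [CharZero K]
    {P : ∀ V : PrVar k₀, (D.H V.X →ₗ[K] D.H V.X) → Prop} (hP : Canon D P) {r : ℤ}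
    (H : ∀ f, P d.base f → d.base.Algebraic D r f) :
    ∀ f, P V f → V.Algebraic D r f := by
  obtain ⟨α, β, t, hβ⟩ := d.transp (D := D) h hF
  exact t.canon h hP _ hβ H

include h in
theorem desc_lefschetz (h' : IsStandard D) (hF : HasFamilies D) [CharZero K]
    (hB : d.base.LefschetzConj D) : V.LefschetzConj D := by
  have h1 := (lef_iff' h d.base h').1 hB
  rw [lef_iff' h V h']
  intro i j θ hij hθ
  exact d.canon_desc h hF (canon_inv h h' i j) (fun f hf => h1 i j f hf.1 hf.2) θ ⟨hij, hθ⟩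

include h in
theorem desc_kunneth (h' : IsStandard D) (hF : HasFamilies D) [CharZero K]
    (hC : d.base.KunnethConj D) : V.KunnethConj D := by
  have h1 := (kun_iff' h d.base h').1 hC
  rw [kun_iff' h V h']
  intro i π hπ
  exact d.canon_desc h hF (canon_pr h i) (fun f hf => h1 i f hf) π hπ

end Descent

section main

variable [IsAlgClosed k₀]

theorem isOver_of_trdeg (V : PrVar k₀) (hV : Algebra.trdeg k₀ V.k = 0) : V.IsOver k₀ :=
  equiv_of_trdeg k₀ k₀ V.k (by rw [hV, trdeg_eq_zero])

theorem IsOver.trdeg {V : PrVar k₀} (hV : V.IsOver k₀) : Algebra.trdeg k₀ V.k = 0 := by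
  obtain ⟨e⟩ := hV
  rw [e.trdeg_eq]
  exact trdeg_eq_zero

/-- Induction on the transcendence degree. -/
theorem model_induct (hM : HasModels k₀) (P : PrVar k₀ → Prop)
    (base : ∀ V : PrVar k₀, V.IsOver k₀ → P V)
    (step : ∀ (r : ℕ), (∀ V : PrVar k₀, Algebra.trdeg k₀ V.k = r → P V) →
      ∀ (Φ : Fibration k₀) (V : PrVar k₀), Algebra.trdeg k₀ Φ.W.k = r → Model Φ V → P V) :
    ∀ (r : ℕ) (V : PrVar k₀), Algebra.trdeg k₀ V.k = r → P V := by
  intro r
  induction r with
  | zero =>
    intro V hV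
    exact base V (isOver_of_trdeg V (by rw [hV, Nat.cast_zero]))
  | succ r ih =>
    intro V hV
    obtain ⟨Φ, hΦ, ⟨M⟩⟩ := hM r V (by rw [hV, Nat.cast_succ])
    exact step r ih Φ V hΦ M

variable (h' : IsStandard D) (hF : HasFamilies D) (hM : HasModels k₀)

include h h' hF hM

/-- **The local form.** Conjecture B for a variety over a field of transcendence degree `r` over
`k₀` follows from conjecture B for finitely many varieties over `k₀`. -/
theorem lefschetz_loc : ∀ (r : ℕ) (V : PrVar k₀), Algebra.trdeg k₀ V.k = r →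
    ∃ S : List (PrVar k₀), (∀ U ∈ S, U.IsOver k₀ ∧ U.n < 2 ^ r * (V.n + 1)) ∧
      ((∀ U ∈ S, U.LefschetzConj D) → V.LefschetzConj D) := by
  have := char_zero h h'
  intro r
  induction r with
  | zero =>
    intro V hV
    have hV' : V.IsOver k₀ := isOver_of_trdeg V (by rw [hV, Nat.cast_zero])
    refine ⟨[V], fun U hU => ?_, fun H => H V (List.mem_singleton_self V)⟩
    rw [List.mem_singleton] at hU
    subst hU
    exact ⟨hV', by rw [pow_zero, one_mul]; exact Nat.lt_succ_self _⟩
  | succ r ih =>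
    intro V hV
    obtain ⟨Φ, hΦ, ⟨M⟩⟩ := hM r V (by rw [hV, Nat.cast_succ])
    obtain ⟨S, hS1, hS2⟩ := ih M.special hΦ
    obtain ⟨T, hT1, hT2⟩ := ih Φ.W hΦ
    refine ⟨S ++ T, fun A hA => ?_, fun H => ?_⟩
    · have h1 : 1 ≤ 2 ^ r := Nat.one_le_two_pow
      rcases List.mem_append.1 hA with hA | hA
      · obtain ⟨h2, h3⟩ := hS1 A hA
        have h4 : M.special.n = V.n := rfl
        rw [h4] at h3
        refine ⟨h2, h3.trans_le ?_⟩
        rw [pow_succ]
        nlinarith
      · obtain ⟨h2, h3⟩ := hT1 A hA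
        have h4 : Φ.W.n = 2 * V.n + 1 := by rw [Φ.dim, M.dim]
        rw [h4] at h3
        refine ⟨h2, h3.trans_le ?_⟩
        rw [pow_succ]
        nlinarith
    · exact M.step_lefschetz h h' hF (Φ.varTate h h' hF
        (hT2 fun A hA => H A (List.mem_append.2 (Or.inr hA)))).2
        (hS2 fun A hA => H A (List.mem_append.2 (Or.inl hA)))

/-- The local form for conjecture C, for varieties over a field of transcendence degree `1` over
`k₀`. -/
theorem kunneth_loc (hC : ∀ V : PrVar k₀, V.IsOver k₀ → V.KunnethConj D) (V : PrVar k₀)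
    (hV : Algebra.trdeg k₀ V.k = 1) : ∃ U : PrVar k₀,
      U.IsOver k₀ ∧ U.n = 2 * V.n + 1 ∧ (U.LefschetzConj D → V.KunnethConj D) := by
  have := char_zero h h'
  obtain ⟨Φ, hΦ, ⟨M⟩⟩ := hM 0 V (by rw [hV, Nat.cast_zero, zero_add])
  rw [Nat.cast_zero] at hΦ
  refine ⟨Φ.W, isOver_of_trdeg _ hΦ, by rw [Φ.dim, M.dim], fun H => ?_⟩
  exact M.step_kunneth h h' hF (Φ.varTate h h' hF H).2 (hC _ (isOver_of_trdeg M.special hΦ))

/-- Conjecture C over the closure of the prime field and the variational Tate conjecture imply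
conjecture C over fields of finite transcendence degree. -/
theorem kunneth_fin (hC : ∀ V : PrVar k₀, V.IsOver k₀ → V.KunnethConj D)
    (hV : ∀ Φ : Fibration k₀, Φ.VarTate D) :
    ∀ (r : ℕ) (V : PrVar k₀), Algebra.trdeg k₀ V.k = r → V.KunnethConj D := by
  have := char_zero h h'
  refine model_induct hM (fun V => V.KunnethConj D) hC ?_
  intro r ih Φ V hΦ M
  exact M.step_kunneth h h' hF (hV Φ) (ih M.special hΦ)

variable (hD : HasDescent k₀)

include hD

/-- **Conjecture B over the closure of the prime field implies conjecture B over all fields.** -/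
theorem lefschetz_all (hB : ∀ V : PrVar k₀, V.IsOver k₀ → V.LefschetzConj D) (V : PrVar k₀) :
    V.LefschetzConj D := by
  have := char_zero h h'
  obtain ⟨F, _, _, _, hfin, ⟨d⟩⟩ := hD V
  obtain ⟨r, hr⟩ := Cardinal.lt_aleph0.1 hfin
  refine d.desc_lefschetz h h' hF ?_
  obtain ⟨S, hS1, hS2⟩ := lefschetz_loc h h' hF hM r d.base hr
  exact hS2 fun U hU => hB U (hS1 U hU).1

/-- Conjecture C over the closure of the prime field and the variational Tate conjecture imply
conjecture C over all fields. -/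
theorem kunneth_all (hC : ∀ V : PrVar k₀, V.IsOver k₀ → V.KunnethConj D)
    (hV : ∀ Φ : Fibration k₀, Φ.VarTate D) (V : PrVar k₀) : V.KunnethConj D := by
  have := char_zero h h'
  obtain ⟨F, _, _, _, hfin, ⟨d⟩⟩ := hD V
  obtain ⟨r, hr⟩ := Cardinal.lt_aleph0.1 hfin
  exact d.desc_kunneth h h' hF (kunneth_fin h h' hF hM hC hV r d.base hr)

end main

end Pool.Agent.Lib.MP_4ca46c_ag.Vtc
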