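import Mathlib
import Pool.Agent.Lib.MP_4ca46c_ag.Hyp.Proj
import Pool.Agent.Lib.MP_4ca46c_ag.Vtc.BC

/-!
# Descent of projective varieties: fields of definition
-/

namespace Pool.Agent.Lib.MP_4ca46c_ag.Vtc

open CategoryTheory Limits AlgebraicGeometry MvPolynomial HomogeneousLocalization
open Pool.Agent.Lib.MP_4ca46c_ag.Sign Pool.Agent.Lib.MP_4ca46c_ag.Hyp
open Pool.Agent.Lib.MP_4ca46c_ag.Std

attribute [local instance] MvPolynomial.gradedAlgebra

/-- A finite set of elements of `k` is contained in an algebraically closed subfield of finite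
transcendence degree. -/
theorem desc_field (k₀ k : Type) [Field k₀] [Field k] [Algebra k₀ k] [IsAlgClosed k]
    (A : Finset k) : ∃ (F : Type) (_ : Field F) (_ : Algebra k₀ F) (_ : IsAlgClosed F)
      (_ : Algebra F k) (_ : IsScalarTower k₀ F k), Algebra.trdeg k₀ F < Cardinal.aleph0 ∧
      ∀ a ∈ A, a ∈ (algebraMap F k).range := by
  let K : IntermediateField k₀ k := IntermediateField.adjoin k₀ (A : Set k)
  let F : IntermediateField K k := algebraicClosure K k
  have hK : K.FG := IntermediateField.fg_adjoin_of_finite A.finite_toSet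
  have hK2 : Algebra.EssFiniteType k₀ K := IntermediateField.essFiniteType_iff.2 hK
  have h1 : IsAlgClosure K F := algebraicClosure.isAlgClosure K k
  have h2 : IsAlgClosed F := h1.isAlgClosed
  have h3 : Algebra.IsAlgebraic K F := h1.isAlgebraic
  have h4 : FinTrdeg k₀ K := inferInstance
  have h5 : FinTrdeg K F := inferInstance
  have h6 : FinTrdeg k₀ F := FinTrdeg.trans k₀ K F
  refine ⟨F, inferInstance, inferInstance, h2, inferInstance,
    IsScalarTower.of_algebraMap_eq fun x => rfl, trdeg_lt_aleph0 k₀ F, fun a ha => ?_⟩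
  have ha' : a ∈ K := IntermediateField.subset_adjoin k₀ _ ha
  exact ⟨algebraMap K F ⟨a, ha'⟩, rfl⟩

/-- Every element of the ring of a chart is defined over a finitely generated field. -/
theorem desc_elt {k : Type} [Field k] {κ : Type} (i : κ)
    (x : Away (homogeneousSubmodule κ k) (X i : MvPolynomial κ k)) :
    ∃ A : Finset k, ∀ (F : Type) [Field F] [Algebra F k]
      (g : Away (homogeneousSubmodule κ F) (X i : MvPolynomial κ F) →+*
        Away (homogeneousSubmodule κ k) (X i : MvPolynomial κ k)),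
      g.comp (bcCst F (X i)) = (bcCst k (X i)).comp (algebraMap F k) →
      (∀ j, g (frac i j) = frac i j) → (∀ a ∈ A, a ∈ (algebraMap F k).range) → x ∈ g.range := by
  classical
  obtain ⟨n, p, hp, rfl⟩ := Away.mk_surjective (homogeneousSubmodule κ k) (hX i) x
  refine ⟨p.support.image fun m => coeff m p, fun F _ _ g h1 h2 hA => ?_⟩
  rw [dehom_eq, p.as_sum, map_sum]
  refine Subring.sum_mem _ fun m hm => ?_
  rw [monomial_eq, map_mul, Finsupp.prod, map_prod]
  refine Subring.mul_mem _ ?_ (Subring.prod_mem _ fun j _ => ?_)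
  · obtain ⟨a, ha⟩ := hA (coeff m p) (Finset.mem_image_of_mem _ hm)
    have h3 := congrArg (fun φ => φ a) h1
    refine ⟨bcCst F (X i) a, ?_⟩
    have h4 : dehom (k := k) i (C (coeff m p)) = bcCst k (X i) (coeff m p) := by
      rw [dehom, coe_eval₂Hom, eval₂_C]
      rfl
    rw [h4, ← ha]
    exact h3
  · rw [map_pow]
    have h3 : dehom (k := k) i (X j) = frac i j := by
      rw [dehom, coe_eval₂Hom, eval₂_X]
    rw [h3]
    exact pow_mem (show frac i j ∈ g.range from ⟨frac i j, h2 j⟩) _

end Pool.Agent.Lib.MP_4ca46c_ag.Vtc
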