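import Mathlib
import Pool.Agent.Lib.MP_4ca46c_ag.Vtc.HasDesc1

/-!
# Descent of projective varieties: ideal sheaves
-/

namespace Pool.Agent.Lib.MP_4ca46c_ag.Vtc

open CategoryTheory Limits AlgebraicGeometry MvPolynomial HomogeneousLocalization
open Pool.Agent.Lib.MP_4ca46c_ag.Sign Pool.Agent.Lib.MP_4ca46c_ag.Hyp
open Pool.Agent.Lib.MP_4ca46c_ag.Std

attribute [local instance] MvPolynomial.gradedAlgebra

/-- An ideal sheaf which is locally generated by sections coming from `Y` is the pullback of its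
direct image. -/
theorem desc_comap {X Y : Scheme.{0}} (f : X ⟶ Y) [QuasiCompact f] (I : X.IdealSheafData)
    {ι : Type} (U : ι → Y.affineOpens) (W : ι → X.affineOpens)
    (hW : ∀ i, (W i : X.Opens) = f ⁻¹ᵁ (U i : Y.Opens)) (hU : ⨆ i, (W i : X.Opens) = ⊤)
    (h : ∀ i, ∃ S : Set Γ(X, (W i : X.Opens)), I.ideal (W i) = Ideal.span S ∧
      ∀ s ∈ S, s ∈ (f.appLE (U i) (W i) (hW i).le).hom.range) : (I.map f).comap f = I := by
  refine le_antisymm (Scheme.IdealSheafData.comap_map_le I f) ?_
  refine Scheme.IdealSheafData.le_of_iSup_eq_top W hU fun i => ?_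
  obtain ⟨S, hS, hr⟩ := h i
  rw [hS, Ideal.span_le]
  intro s hs
  obtain ⟨a, ha⟩ := hr s hs
  have hsI : s ∈ I.ideal (W i) := by
    rw [hS]
    exact Ideal.subset_span hs
  have key : ∀ (V : X.affineOpens) (e : (V : X.Opens) = f ⁻¹ᵁ (U i : Y.Opens)) (a : Γ(Y, U i)),
      (f.appLE (U i) V e.le).hom a ∈ I.ideal V →
      (f.appLE (U i) V e.le).hom a ∈ ((I.map f).comap f).ideal V := by
    rintro ⟨V, hV⟩ e a haI
    dsimp only at e
    subst e
    rw [Scheme.Hom.appLE_eq_app] at haI ⊢
    have h1 : a ∈ (I.map f).ideal (U i) := by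
      rw [Scheme.IdealSheafData.ideal_map I f (U i) hV]
      exact haI
    have h2 := Scheme.IdealSheafData.le_map_comap (I.map f) f (U i) h1
    rw [Scheme.IdealSheafData.ideal_map _ f (U i) hV] at h2
    exact h2
  rw [← ha] at hsI ⊢
  exact key (W i) (hW i) a hsI

section

variable (F k : Type) [Field F] [Field k] [Algebra F k] (κ : Type)

theorem desc_app (i : κ) (y : MvPolynomial κ k) (hy : y ∈ homogeneousSubmodule κ k 1)
    (e : bcG F k κ (X i) = y) :
    ∃ g : Away (homogeneousSubmodule κ F) (X i : MvPolynomial κ F) →+*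
        Away (homogeneousSubmodule κ k) y,
      g.comp (bcCst F (X i)) = (bcCst k y).comp (algebraMap F k) ∧
      (∀ j, g (frac i j) = Away.mk (homogeneousSubmodule κ k) hy 1 (X j)
        (by simpa using hX j)) ∧
      ∃ hle : Proj.basicOpen (homogeneousSubmodule κ k) y ≤ psBC F k κ ⁻¹ᵁ psD i,
        Proj.awayToSection (homogeneousSubmodule κ F) (X i) ≫
          (psBC F k κ).appLE (psD i) (Proj.basicOpen (homogeneousSubmodule κ k) y) hle =
        CommRingCat.ofHom g ≫ Proj.awayToSection (homogeneousSubmodule κ k) y := by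
  subst e
  refine ⟨Away.map (bcG F k κ) (X i), bc_away F k κ (X i), fun j => ?_, le_rfl, ?_⟩
  · refine HomogeneousLocalization.val_injective _ ?_
    rw [frac, Away.map_mk, Away.val_mk, Away.val_mk]
    have h : bcG F k κ (X j) = X j := by rw [bcG_apply, map_X]
    rw [h]
  · exact Proj.awayToSection_comp_appLE (bcG F k κ) (bcG_irrelevant F k κ) (hX i)

theorem desc_preimage (i : κ) : (psD i : (PS k κ).Opens) = psBC F k κ ⁻¹ᵁ psD i := by
  refine ((Proj.map_preimage_basicOpen (bcG F k κ) (bcG_irrelevant F k κ) (X i)).trans ?_).symm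
  rw [bcG_apply, map_X]

end

/-- Every section over a chart is defined over a finitely generated field. -/
theorem desc_sec {k : Type} [Field k] {κ : Type} (i : κ) (s : Γ(PS k κ, psD i)) :
    ∃ A : Finset k, ∀ (F : Type) [Field F] [Algebra F k],
      (∀ a ∈ A, a ∈ (algebraMap F k).range) →
        s ∈ ((psBC F k κ).appLE (psD i) (psD i) (desc_preimage F k κ i).le).hom.range := by
  have hb : Function.Bijective (Proj.awayToSection (homogeneousSubmodule κ k) (X i)).hom := by
    have := (Proj.basicOpenIsoAway (homogeneousSubmodule κ k) (X i) (hX i)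
      one_pos).isIso_hom
    exact ConcreteCategory.bijective_of_isIso
      (Proj.basicOpenIsoAway (homogeneousSubmodule κ k) (X i) (hX i) one_pos).hom
  obtain ⟨x, rfl⟩ := hb.2 s
  obtain ⟨A, hA⟩ := desc_elt i x
  refine ⟨A, fun F _ _ h => ?_⟩
  obtain ⟨g, h1, h2, hle, h3⟩ := desc_app F k κ i (X i) (hX i) (by rw [bcG_apply, map_X])
  obtain ⟨a, ha⟩ := hA F g h1 h2 h
  refine ⟨(Proj.awayToSection (homogeneousSubmodule κ F) (X i)).hom a, ?_⟩
  have h4 := congrArg (fun φ => φ.hom a) h3
  rw [← ha]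
  exact h4

/-- The ideal of a closed subscheme of projective space is defined over a finitely generated
field. -/
theorem desc_ideal {k : Type} [Field k] {κ : Type} [Finite κ] (I : (PS k κ).IdealSheafData)
    [IsLocallyNoetherian (PS k κ)] :
    ∃ A : Finset k, ∀ (F : Type) [Field F] [Algebra F k] [QuasiCompact (psBC F k κ)],
      (∀ a ∈ A, a ∈ (algebraMap F k).range) →
        (I.map (psBC F k κ)).comap (psBC F k κ) = I := by
  classical
  have : Fintype κ := Fintype.ofFinite κ
  have haff : ∀ (L : Type) [Field L] (i : κ), IsAffineOpen (psD i : (PS L κ).Opens) :=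
    fun L _ i => Proj.isAffineOpen_basicOpen (homogeneousSubmodule κ L) (X i) (hX i) one_pos
  let W : κ → (PS k κ).affineOpens := fun i => ⟨psD i, haff k i⟩
  have h1 : ∀ i, ∃ S : Finset Γ(PS k κ, psD i), Ideal.span (S : Set Γ(PS k κ, psD i)) =
      I.ideal (W i) := fun i => by
    have : IsNoetherianRing Γ(PS k κ, psD i) :=
      IsLocallyNoetherian.component_noetherian (W i)
    exact (isNoetherianRing_iff_ideal_fg _).1 this (I.ideal (W i))
  choose S hS using h1
  choose A hA using fun i => desc_sec (k := k) (κ := κ) i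
  refine ⟨Finset.univ.biUnion fun i => (S i).biUnion fun s => A i s, fun F _ _ _ h => ?_⟩
  refine desc_comap (psBC F k κ) I (fun i => ⟨psD i, haff F i⟩) W
    (fun i => desc_preimage F k κ i) iSup_psD fun i => ⟨S i, (hS i).symm, fun s hs => ?_⟩
  refine hA i s F fun a ha => h a ?_
  exact Finset.mem_biUnion.2 ⟨i, Finset.mem_univ i, Finset.mem_biUnion.2 ⟨s, hs, ha⟩⟩

end Pool.Agent.Lib.MP_4ca46c_ag.Vtc
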