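import Mathlib
import Pool.Agent.Lib.MP_4ca46c_ag.Vtc.HasDesc2
import Pool.Agent.Lib.MP_4ca46c_ag.Vtc.HasDesc4
import Pool.Agent.Lib.MP_4ca46c_ag.Vtc.DescSt
import Pool.Agent.Lib.MP_4ca46c_ag.Hyp.HypCompl

/-!
# Every smooth projective variety is defined over an algebraically closed field of finite
transcendence degree
-/

namespace Pool.Agent.Lib.MP_4ca46c_ag.Vtc

open CategoryTheory Limits AlgebraicGeometry MvPolynomial
open Pool.Agent.Lib.MP_4ca46c_ag.Sign Pool.Agent.Lib.MP_4ca46c_ag.Hyp
open Pool.Agent.Lib.MP_4ca46c_ag.Std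

attribute [local instance] MvPolynomial.gradedAlgebra

theorem desc_psBC_comp (E F k : Type) [Field E] [Field F] [Field k] [Algebra E F] [Algebra F k]
    [Algebra E k] [IsScalarTower E F k] (κ : Type) :
    psBC F k κ ≫ psBC E F κ = psBC E k κ := by
  have e : (bcG F k κ).comp (bcG E F κ) = bcG E k κ := by
    refine DFunLike.ext _ _ fun x => ?_
    change MvPolynomial.map (algebraMap F k) (MvPolynomial.map (algebraMap E F) x) =
      MvPolynomial.map (algebraMap E k) x
    rw [MvPolynomial.map_map, ← IsScalarTower.algebraMap_eq]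
  have key : ∀ {f f' : GradedRingHom (homogeneousSubmodule κ E) (homogeneousSubmodule κ k)},
      f = f' → ∀ hf hf', Proj.map f hf = Proj.map f' hf' := by
    rintro f _ rfl _ _
    rfl
  exact (Proj.map_comp _ _ _ _).symm.trans (key e _ _)

theorem desc_qc (F k : Type) [Field F] [Field k] [Algebra F k] (κ : Type) :
    QuasiCompact (psBC F k κ) :=
  MorphismProperty.of_isPullback (P := @QuasiCompact) (psBC_isPullback F k κ).flip inferInstance

/-- Every smooth projective variety is defined over an algebraically closed field of finite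
transcendence degree over `k₀`. -/
theorem hasDescent (k₀ : Type) [Field k₀] : HasDescent k₀ := by
  intro V
  have hκ : ∃ N, Nat.card V.κ = N + 1 := by
    have : 0 < Nat.card V.κ := Nat.card_pos
    exact ⟨Nat.card V.κ - 1, by omega⟩
  obtain ⟨N, hN⟩ := hκ
  have iN : IsLocallyNoetherian (PS V.k V.κ) := by
    have h1 : Smooth (PSo.str k₀ V.k V.κ).left := by
      have := (pso_var k₀ V.k V.κ N hN).smooth
      exact SmoothOfRelativeDimension.smooth N _
    have h2 : LocallyOfFiniteType (psStr V.k V.κ) := by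
      have : Smooth (psStr V.k V.κ) := h1
      infer_instance
    exact LocallyOfFiniteType.isLocallyNoetherian (psStr V.k V.κ)
  obtain ⟨A, hA⟩ := desc_ideal (k := V.k) (κ := V.κ) V.emb.left.ker
  obtain ⟨F, _, _, _, _, _, htr, hF⟩ := desc_field k₀ V.k A
  have iq : QuasiCompact (psBC F V.k V.κ) := desc_qc F V.k V.κ
  have iV := V.isClosed
  have hI := hA F hF
  let B : PSo k₀ V.k V.κ ⟶ PSo k₀ F V.κ := PSo.bc F V.k V.κ k₀
  have hI' : (V.emb.left.ker.map B.left).comap B.left = V.emb.left.ker := hI
  let q : V.X.left ⟶ (PSo k₀ F V.κ).left := V.emb.left ≫ B.left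
  have hq : q.toImage ≫ q.imageι = V.emb.left ≫ B.left := Scheme.Hom.toImage_imageι q
  let X : Sch k₀ := Over.mk (q.imageι ≫ (PSo k₀ F V.κ).hom)
  let emb : X ⟶ PSo k₀ F V.κ := Over.homMk q.imageι rfl
  let g : V.X ⟶ X := Over.homMk q.toImage (by
    change q.toImage ≫ q.imageι ≫ (PSo k₀ F V.κ).hom = V.X.hom
    rw [← Category.assoc, hq, Category.assoc, Over.w, Over.w])
  have p1 : IsPullback V.emb.left q.toImage B.left q.imageι := by
    refine isPullback_of_isClosedImmersion _ _ _ _ hq.symm ?_
    rw [Scheme.IdealSheafData.ker_subschemeι, Scheme.Hom.ker_comp]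
    exact hI'
  have p2 : IsPullback V.emb g B emb := over_isPullback _ _ _ _ p1
  have p3 : IsPullback g V.str (emb ≫ PSo.str k₀ F V.κ) (ext k₀ F V.k) := by
    rw [← V.emb_str]
    exact p2.flip.paste_vert (bc_isPullback k₀ F V.k V.κ)
  have hp : IsProper (emb ≫ PSo.str k₀ F V.κ).left := by
    have h1 : IsProper (PSo.str k₀ F V.κ).left := (pso_var k₀ F V.κ N hN).proper
    have h2 : IsClosedImmersion emb.left := inferInstanceAs (IsClosedImmersion q.imageι)
    rw [Over.comp_left]
    infer_instance
  have p4 := p3.map (Over.forget _)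
  have s1 : Surjective (ext k₀ F V.k).left := conn_surjective (algebraMap F V.k)
  have s2 : Flat (ext k₀ F V.k).left := genclass_flat_field
  have s3 : QuasiCompact (ext k₀ F V.k).left :=
    inferInstanceAs (QuasiCompact (Spec.map (CommRingCat.ofHom (algebraMap F V.k))))
  have hv : IsVar (emb ≫ PSo.str k₀ F V.κ) V.n :=
    ⟨desc_smooth (ext k₀ F V.k).left _ g.left V.str.left p4 V.n V.isVar.smooth, hp,
      desc_conn (ext k₀ F V.k).left _ g.left V.str.left p4 V.isVar.connected⟩
  refine ⟨F, inferInstance, inferInstance, inferInstance, htr, ⟨?_⟩⟩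
  exact {
    X := X
    str := emb ≫ PSo.str k₀ F V.κ
    isVar := hv
    emb := emb
    isClosed := inferInstanceAs (IsClosedImmersion q.imageι)
    emb_str := rfl
    e := ext k₀ F V.k
    g := g
    isPullback := p3
    g_emb := by
      rw [← Category.assoc, p2.w.symm, Category.assoc]
      congr 1
      exact Over.OverMorphism.ext (desc_psBC_comp k₀ F V.k V.κ) }

end Pool.Agent.Lib.MP_4ca46c_ag.Vtc
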