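import Mathlib
import Pool.Agent.Lib.MP_4ca46c_ag.Vtc.Desc
import Pool.Agent.Lib.MP_4ca46c_ag.Vtc.HasDesc
import Pool.Agent.Lib.MP_4ca46c_ag.Std.Bridge4

/-!
# The final form
-/

namespace Pool.Agent.Lib.MP_4ca46c_ag.Vtc

open CategoryTheory Limits AlgebraicGeometry
open Pool.Agent.Lib.MP_4ca46c_ag.Sign Pool.Agent.Lib.MP_4ca46c_ag.Hyp
open Pool.Agent.Lib.MP_4ca46c_ag.Std

variable {k₀ K : Type} [Field k₀] [Field K] {D : CohData k₀ K} (h : D.IsTheory)
  (h' : IsStandard D) (hF : HasFamilies D)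

include h h' hF

theorem final_fib (Φ : Fibration k₀) (hW : Φ.W.LefschetzConj D) : Φ.Splits D ∧ Φ.VarTate D :=
  have := char_zero h h'
  Φ.varTate h h' hF hW

/-- Transfer from the special fibre of a model to the generic fibre. -/
theorem final_model [IsAlgClosed k₀] (Φ : Fibration k₀) (hV : Φ.VarTate D) (V : PrVar k₀)
    (M : Model Φ V) : ∃ U : PrVar k₀, U.X = fib M.g M.b ∧
      (U.LefschetzConj D → V.LefschetzConj D) ∧ (U.KunnethConj D → V.KunnethConj D) :=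
  have := char_zero h h'
  ⟨M.special, rfl, M.step_lefschetz h h' hF hV, M.step_kunneth h h' hF hV⟩

theorem final_tfae [IsAlgClosed k₀] (hM : HasModels k₀) :
    [∀ V : PrVar k₀, V.KunnethConj D, ∀ V : PrVar k₀, V.LefschetzConj D,
      ∀ V : PrVar k₀, V.IsOver k₀ → V.LefschetzConj D,
      (∀ V : PrVar k₀, V.IsOver k₀ → V.KunnethConj D) ∧
        ∀ Φ : Fibration k₀, Φ.VarTate D].TFAE := by
  have h1 := (std_main h h').2
  tfae_have 1 ↔ 2 := h1.out 1 2
  tfae_have 2 → 3 := fun H V _ => H V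
  tfae_have 3 → 2 := fun H V => lefschetz_all h h' hF hM (hasDescent k₀) H V
  tfae_have 2 → 4 := fun H => by
    have h2 := (h1.out 1 2).2 H
    exact ⟨fun V _ => h2 V, fun Φ => (final_fib h h' hF Φ (H _)).2⟩
  tfae_have 4 → 1 := fun H V => kunneth_all h h' hF hM (hasDescent k₀) H.1 H.2 V
  tfae_finish

end Pool.Agent.Lib.MP_4ca46c_ag.Vtc
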